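import Mathlib

set_option autoImplicit false

namespace Pool.Agent.P.MP_7322d1_co

open Matrix

variable {d : ℕ}

/- Stack three rows under a `d × (d+3)` matrix. -/
def stk (P : Matrix (Fin d) (Fin (d + 3)) ℝ) (u v w : Fin (d + 3) → ℝ) :
    Matrix (Fin d ⊕ Fin 3) (Fin (d + 3)) ℝ :=
  Matrix.fromRows P (Matrix.of ![u, v, w])

noncomputable def sdet (M : Matrix (Fin d ⊕ Fin 3) (Fin (d + 3)) ℝ) : ℝ :=
  (M.submatrix id finSumFinEquiv).det

lemma sdet_mul_sdet (M N : Matrix (Fin d ⊕ Fin 3) (Fin (d + 3)) ℝ) :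
    sdet M * sdet N = (M * Nᵀ).det := by
  unfold sdet
  rw [← det_transpose (N.submatrix id finSumFinEquiv), ← det_mul, transpose_submatrix,
    submatrix_mul_equiv]
  rfl

lemma sdet_left (L : Matrix (Fin d ⊕ Fin 3) (Fin d ⊕ Fin 3) ℝ)
    (M : Matrix (Fin d ⊕ Fin 3) (Fin (d + 3)) ℝ) : sdet (L * M) = L.det * sdet M := by
  unfold sdet
  rw [← det_mul]
  rfl

lemma abs_sdet_equiv (M : Matrix (Fin d ⊕ Fin 3) (Fin (d + 3)) ℝ)
    (σ : Fin d ⊕ Fin 3 ≃ Fin (d + 3)) : |sdet M| = |(M.submatrix id σ).det| := by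
  unfold sdet
  have : M.submatrix id σ = (M.submatrix id finSumFinEquiv).submatrix (Equiv.refl _)
      (σ.trans finSumFinEquiv.symm) := by
    ext i j; simp
  rw [this, abs_det_submatrix_equiv_equiv]

lemma sdet_diag (M : Matrix (Fin d ⊕ Fin 3) (Fin (d + 3)) ℝ) (l : Fin (d + 3) → ℝ) :
    sdet (M * diagonal l) = sdet M * ∏ i, l i := by
  unfold sdet
  have : (M * diagonal l).submatrix id finSumFinEquiv =
      M.submatrix id finSumFinEquiv * diagonal (fun j => l (finSumFinEquiv j)) := by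
    ext i j; simp
  rw [this, det_mul, det_diagonal, Equiv.prod_comp finSumFinEquiv l]

lemma stk_mul (P R : Matrix (Fin d) (Fin (d + 3)) ℝ) (u v w u' v' w' : Fin (d + 3) → ℝ) :
    stk P u v w * (stk R u' v' w')ᵀ =
      fromBlocks (P * Rᵀ) (P * (Matrix.of ![u', v', w'])ᵀ) (Matrix.of ![u, v, w] * Rᵀ)
        (Matrix.of ![u, v, w] * (Matrix.of ![u', v', w'])ᵀ) := by
  unfold stk
  rw [transpose_fromRows, fromRows_mul_fromCols]

lemma mul_three_eq_zero (P : Matrix (Fin d) (Fin (d + 3)) ℝ) {u v w : Fin (d + 3) → ℝ}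
    (hu : P *ᵥ u = 0) (hv : P *ᵥ v = 0) (hw : P *ᵥ w = 0) :
    P * (Matrix.of ![u, v, w])ᵀ = 0 := by
  ext r k
  fin_cases k
  · simpa [Matrix.mul_apply, mulVec, dotProduct] using congrFun hu r
  · simpa [Matrix.mul_apply, mulVec, dotProduct] using congrFun hv r
  · simpa [Matrix.mul_apply, mulVec, dotProduct] using congrFun hw r

lemma three_mul_three (u v w u' v' w' : Fin (d + 3) → ℝ) :
    Matrix.of ![u, v, w] * (Matrix.of ![u', v', w'])ᵀ =
      !![u ⬝ᵥ u', u ⬝ᵥ v', u ⬝ᵥ w'; v ⬝ᵥ u', v ⬝ᵥ v', v ⬝ᵥ w'; w ⬝ᵥ u', w ⬝ᵥ v', w ⬝ᵥ w'] := by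
  ext i j
  fin_cases i <;> fin_cases j <;> simp [Matrix.mul_apply, dotProduct]

/- The affine determinant of the points other than `a`, `b`. -/
noncomputable def chi (P : Matrix (Fin d) (Fin (d + 3)) ℝ) (a b : Fin (d + 3)) : ℝ :=
  sdet (stk P 1 (Pi.single a 1) (Pi.single b 1))

lemma chi_rel (P R : Matrix (Fin d) (Fin (d + 3)) ℝ) {μ x y : Fin (d + 3) → ℝ}
    (hμ : P *ᵥ μ = 0) (hx : P *ᵥ x = 0) (hy : P *ᵥ y = 0) (sx : ∑ i, x i = 0)
    (sy : ∑ i, y i = 0) (a b : Fin (d + 3)) :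
    chi P a b * sdet (stk R μ x y) = (P * Rᵀ).det * ((∑ i, μ i) * (x a * y b - x b * y a)) := by
  unfold chi
  rw [sdet_mul_sdet, stk_mul, mul_three_eq_zero P hμ hx hy, det_fromBlocks_zero₁₂,
    three_mul_three, det_fin_three]
  simp [one_dotProduct, sx, sy]
  left; ring

/- Translate all points by `c`. -/
def transl (P : Matrix (Fin d) (Fin (d + 3)) ℝ) (c : Fin d → ℝ) :
    Matrix (Fin d) (Fin (d + 3)) ℝ := Matrix.of fun r i => P r i - c r

lemma chi_transl (P : Matrix (Fin d) (Fin (d + 3)) ℝ) (c : Fin d → ℝ) (a b : Fin (d + 3)) :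
    chi (transl P c) a b = chi P a b := by
  unfold chi
  have : stk (transl P c) 1 (Pi.single a 1) (Pi.single b 1) =
      (fromBlocks (1 : Matrix (Fin d) (Fin d) ℝ)
        (Matrix.of fun r (k : Fin 3) => if k = 0 then - c r else 0) (0 : Matrix (Fin 3) (Fin d) ℝ)
        (1 : Matrix (Fin 3) (Fin 3) ℝ) : Matrix (Fin d ⊕ Fin 3) (Fin d ⊕ Fin 3) ℝ) *
        stk P 1 (Pi.single a 1) (Pi.single b 1) := by
    unfold stk
    rw [fromBlocks_mul_fromRows]
    congr 1
    · ext r i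
      simp [transl, Matrix.mul_apply, sub_eq_add_neg]
    · simp
  rw [this, sdet_left, det_fromBlocks_zero₂₁]
  simp

lemma transl_mulVec (P : Matrix (Fin d) (Fin (d + 3)) ℝ) (c : Fin d → ℝ) (v : Fin (d + 3) → ℝ) :
    transl P c *ᵥ v = P *ᵥ v - (∑ i, v i) • c := by
  ext r
  simp [transl, mulVec, dotProduct, sub_mul, Finset.sum_sub_distrib, Finset.sum_mul, mul_comm (c r)]

/- The points affinely span. -/
def Spanning (P : Matrix (Fin d) (Fin (d + 3)) ℝ) : Prop :=
  ∀ (v : Fin d → ℝ) (c : ℝ), (∀ i, ∑ r, v r * P r i = c) → v = 0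

lemma Spanning.transl {P : Matrix (Fin d) (Fin (d + 3)) ℝ} (h : Spanning P) (c : Fin d → ℝ) :
    Spanning (transl P c) := by
  intro v e hv
  apply h v (e + ∑ r, v r * c r)
  intro i
  rw [← hv i]
  simp [Pool.Agent.P.MP_7322d1_co.transl, mul_sub, Finset.sum_sub_distrib]

lemma Spanning.posDef {P : Matrix (Fin d) (Fin (d + 3)) ℝ} (h : Spanning P)
    {l : Fin (d + 3) → ℝ} (hl : ∀ i, 0 < l i) : (P * (P * diagonal l)ᵀ).PosDef := by
  have e : P * (P * diagonal l)ᵀ = Pᵀᴴ * diagonal l * Pᵀ := by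
    rw [transpose_mul, diagonal_transpose, Matrix.mul_assoc]
    rfl
  rw [e]
  apply Matrix.PosDef.conjTranspose_mul_mul_same (Matrix.PosDef.diagonal hl)
  intro v w hvw
  have : v - w = 0 := by
    apply h (v - w) 0
    intro i
    have := congrFun hvw i
    simp only [mulVec, dotProduct, transpose_apply] at this
    simp only [Pi.sub_apply, sub_mul, Finset.sum_sub_distrib]
    simp only [mul_comm] at this ⊢
    linarith
  exact sub_eq_zero.mp this

/- The weighted Gram determinant. -/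
noncomputable def gram (l x y : Fin (d + 3) → ℝ) : ℝ :=
  (∑ i, x i ^ 2 / l i) * (∑ i, y i ^ 2 / l i) - (∑ i, x i * y i / l i) ^ 2

lemma sdet_sq (P : Matrix (Fin d) (Fin (d + 3)) ℝ) {l x y : Fin (d + 3) → ℝ}
    (hl : ∀ i, 0 < l i) (hμ : P *ᵥ l = 0) (hx : P *ᵥ x = 0) (hy : P *ᵥ y = 0)
    (sx : ∑ i, x i = 0) (sy : ∑ i, y i = 0) :
    sdet (stk (P * diagonal l) l x y) ^ 2 =
      (∏ i, l i) * ((P * (P * diagonal l)ᵀ).det * ((∑ i, l i) * gram l x y)) := by
  have e : stk (P * diagonal l) l x y =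
      stk P 1 (fun i => x i / l i) (fun i => y i / l i) * diagonal l := by
    unfold stk
    rw [fromRows_mul]
    congr 1
    ext k i
    have := (hl i).ne'
    fin_cases k <;> simp <;> field_simp
  have h2 : sdet (stk P 1 (fun i => x i / l i) (fun i => y i / l i)) *
      sdet (stk (P * diagonal l) l x y) =
      (P * (P * diagonal l)ᵀ).det * ((∑ i, l i) * gram l x y) := by
    rw [sdet_mul_sdet, stk_mul, mul_three_eq_zero P hμ hx hy, det_fromBlocks_zero₁₂,
      three_mul_three, det_fin_three]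
    have a1 : (fun i => x i / l i) ⬝ᵥ x = ∑ i, x i ^ 2 / l i := by
      simp only [dotProduct]; apply Finset.sum_congr rfl; intro i _; ring
    have a2 : (fun i => y i / l i) ⬝ᵥ y = ∑ i, y i ^ 2 / l i := by
      simp only [dotProduct]; apply Finset.sum_congr rfl; intro i _; ring
    have a3 : (fun i => x i / l i) ⬝ᵥ y = ∑ i, x i * y i / l i := by
      simp only [dotProduct]; apply Finset.sum_congr rfl; intro i _; ring
    have a4 : (fun i => y i / l i) ⬝ᵥ x = ∑ i, x i * y i / l i := by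
      simp only [dotProduct]; apply Finset.sum_congr rfl; intro i _; ring
    simp [one_dotProduct, sx, sy, a1, a2, a3, a4, gram]
    left; ring
  rw [← h2, sq]
  nth_rewrite 1 [e]
  rw [sdet_diag]
  ring

end Pool.Agent.P.MP_7322d1_co
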