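import Mathlib
import Pool.Agent.P.MP_7322d1_co.Lin

set_option autoImplicit false

namespace Pool.Agent.P.MP_7322d1_co

open Matrix

variable {d : ℕ} {P : Matrix (Fin d) (Fin (d + 3)) ℝ} {x y : Fin (d + 3) → ℝ}

/- `x`, `y` is a basis of the space of affine dependencies. -/
structure Ker (P : Matrix (Fin d) (Fin (d + 3)) ℝ) (x y : Fin (d + 3) → ℝ) : Prop where
  px : P *ᵥ x = 0
  py : P *ᵥ y = 0
  sx : ∑ i, x i = 0
  sy : ∑ i, y i = 0
  span : ∀ v : Fin (d + 3) → ℝ, ∑ i, v i = 0 → P *ᵥ v = 0 → ∃ α β : ℝ, ∀ i, v i = α * x i + β * y i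
  indep : ∀ α β : ℝ, (∀ i, α * x i + β * y i = 0) → α = 0 ∧ β = 0

lemma Ker.symm (h : Ker P x y) : Ker P y x where
  px := h.py
  py := h.px
  sx := h.sy
  sy := h.sx
  span := fun v h1 h2 => by
    obtain ⟨α, β, e⟩ := h.span v h1 h2
    exact ⟨β, α, fun i => by rw [e i]; ring⟩
  indep := fun α β e => (h.indep β α (fun i => by rw [← e i]; ring)).symm

lemma Spanning.exists_ker (h : Spanning P) : ∃ x y, Ker P x y := by
  let M : Matrix (Fin d ⊕ Unit) (Fin (d + 3)) ℝ := fromRows P (Matrix.of fun _ _ => 1)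
  have hli : LinearIndependent ℝ M.row := by
    rw [Fintype.linearIndependent_iff]
    intro g hg
    have h1 : ∀ i, ∑ r, g (Sum.inl r) * P r i = - g (Sum.inr ()) := by
      intro i
      have := congrFun hg i
      simp [Fintype.sum_sum_type, M, Finset.sum_apply] at this
      linarith
    have h2 := h _ _ h1
    have h3 : ∀ r, g (Sum.inl r) = 0 := fun r => congrFun h2 r
    have h4 : g (Sum.inr ()) = 0 := by
      have := h1 0
      simp [h3] at this
      exact this
    rintro (r | u)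
    · exact h3 r
    · exact h4
  have hr := hli.rank_matrix
  have hk := LinearMap.finrank_range_add_finrank_ker M.mulVecLin
  have hk2 : Module.finrank ℝ (LinearMap.ker M.mulVecLin) = 2 := by
    unfold Matrix.rank at hr
    rw [hr] at hk
    simp at hk
    omega
  let b := Module.finBasisOfFinrankEq ℝ _ hk2
  have mem : ∀ v : Fin (d + 3) → ℝ, v ∈ LinearMap.ker M.mulVecLin ↔ P *ᵥ v = 0 ∧ ∑ i, v i = 0 := by
    intro v
    rw [LinearMap.mem_ker, mulVecLin_apply, fromRows_mulVec]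
    constructor
    · intro e
      refine ⟨?_, ?_⟩
      · ext r; exact congrFun e (Sum.inl r)
      · simpa [mulVec, dotProduct] using congrFun e (Sum.inr ())
    · rintro ⟨e1, e2⟩
      ext (r | u)
      · simp [e1]
      · simpa [mulVec, dotProduct] using e2
  refine ⟨b 0, b 1, ((mem _).1 (b 0).2).1, ((mem _).1 (b 1).2).1, ((mem _).1 (b 0).2).2,
    ((mem _).1 (b 1).2).2, ?_, ?_⟩
  · intro v h1 h2
    have := b.sum_repr ⟨v, (mem v).2 ⟨h2, h1⟩⟩
    rw [Fin.sum_univ_two] at this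
    refine ⟨b.repr ⟨v, (mem v).2 ⟨h2, h1⟩⟩ 0, b.repr ⟨v, (mem v).2 ⟨h2, h1⟩⟩ 1, fun i => ?_⟩
    have := congrFun (congrArg Subtype.val this) i
    simpa using this.symm
  · intro α β e
    have := Fintype.linearIndependent_iff.mp b.linearIndependent ![α, β] (by
      rw [Fin.sum_univ_two]
      ext i
      simpa using e i)
    exact ⟨this 0, this 1⟩

lemma Ker.gram_pos (h : Ker P x y) {l : Fin (d + 3) → ℝ} (hl : ∀ i, 0 < l i) :
    0 < gram l x y := by
  have pos : ∀ α β : ℝ, ¬ (α = 0 ∧ β = 0) → 0 < ∑ i, (α * x i + β * y i) ^ 2 / l i := by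
    intro α β hne
    have : ∃ i, α * x i + β * y i ≠ 0 := by
      by_contra hc
      push Not at hc
      exact hne (h.indep α β hc)
    obtain ⟨i, hi⟩ := this
    apply Finset.sum_pos' (fun j _ => div_nonneg (sq_nonneg _) (hl j).le)
    exact ⟨i, Finset.mem_univ _, div_pos (sq_pos_of_ne_zero hi) (hl i)⟩
  have hA : 0 < ∑ i, x i ^ 2 / l i := by simpa using pos 1 0 (by simp)
  have h2 := pos (-(∑ i, x i * y i / l i)) (∑ i, x i ^ 2 / l i) (fun hh => hA.ne' hh.2)
  set A := ∑ i, x i ^ 2 / l i with hAd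
  set C := ∑ i, x i * y i / l i with hCd
  have e : ∑ i, (-C * x i + A * y i) ^ 2 / l i = A * gram l x y := by
    have : ∀ i, (-C * x i + A * y i) ^ 2 / l i =
        C ^ 2 * (x i ^ 2 / l i) - 2 * A * C * (x i * y i / l i) + A ^ 2 * (y i ^ 2 / l i) := by
      intro i; ring
    simp only [this, Finset.sum_add_distrib, Finset.sum_sub_distrib, ← Finset.mul_sum]
    unfold gram
    rw [← hAd, ← hCd]; ring
  rw [e] at h2
  exact (pos_iff_pos_of_mul_pos h2).mp hA

/- The weighted covariance matrix. -/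
noncomputable def covB (P : Matrix (Fin d) (Fin (d + 3)) ℝ) (l : Fin (d + 3) → ℝ) :
    Matrix (Fin d) (Fin d) ℝ :=
  transl P ((∑ i, l i)⁻¹ • P *ᵥ l) * (transl P ((∑ i, l i)⁻¹ • P *ᵥ l) * diagonal l)ᵀ

lemma Ker.chi_kappa (hS : Spanning P) (h : Ker P x y) {l : Fin (d + 3) → ℝ} (hl : ∀ i, 0 < l i) :
    ∃ κ : ℝ, κ ≠ 0 ∧ (∀ a b, chi P a b = κ * (x a * y b - x b * y a)) ∧
      κ ^ 2 * ((∏ i, l i) * gram l x y) = (covB P l).det * ∑ i, l i := by
  set c := (∑ i, l i)⁻¹ • P *ᵥ l with hc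
  have hL : 0 < ∑ i, l i := Finset.sum_pos (fun i _ => hl i) Finset.univ_nonempty
  have h1 : transl P c *ᵥ l = 0 := by
    rw [transl_mulVec, hc, smul_smul, mul_inv_cancel₀ hL.ne', one_smul, sub_self]
  have h2 : transl P c *ᵥ x = 0 := by rw [transl_mulVec, h.px, h.sx]; simp
  have h3 : transl P c *ᵥ y = 0 := by rw [transl_mulVec, h.py, h.sy]; simp
  have hB : 0 < (covB P l).det := ((hS.transl c).posDef hl).det_pos
  have hsq := sdet_sq (transl P c) hl h1 h2 h3 h.sx h.sy
  have hrel := chi_rel (transl P c) (transl P c * diagonal l) h1 h2 h3 h.sx h.sy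
  set s := sdet (stk (transl P c * diagonal l) l x y) with hs
  change s ^ 2 = (∏ i, l i) * ((covB P l).det * ((∑ i, l i) * gram l x y)) at hsq
  change ∀ a b, chi (transl P c) a b * s = (covB P l).det * ((∑ i, l i) * (x a * y b - x b * y a))
    at hrel
  have hP : 0 < ∏ i, l i := Finset.prod_pos (fun i _ => hl i)
  have hg := h.gram_pos hl
  have hs0 : s ≠ 0 := by
    intro h0
    rw [h0] at hsq
    have : 0 < (∏ i, l i) * ((covB P l).det * ((∑ i, l i) * gram l x y)) := by positivity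
    linarith
  refine ⟨(covB P l).det * (∑ i, l i) / s, by positivity, fun a b => ?_, ?_⟩
  · rw [← chi_transl P c]
    field_simp
    linear_combination hrel a b
  · rw [div_pow, hsq]
    field_simp

/- The sign `(-1)^(a+b+1)`. -/
def sg (a b : Fin (d + 3)) : ℝ := (-1) ^ ((a : ℕ) + b + 1)

lemma sg_odd {a b : Fin (d + 3)} (h : ((a : ℕ) + b) % 2 = 1) : sg a b = 1 :=
  Even.neg_one_pow (Nat.even_iff.mpr (by omega))

lemma sg_even {a b : Fin (d + 3)} (h : ((a : ℕ) + b) % 2 = 0) : sg a b = -1 :=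
  Odd.neg_one_pow (Nat.odd_iff.mpr (by omega))

structure Gale (P : Matrix (Fin d) (Fin (d + 3)) ℝ) (x y : Fin (d + 3) → ℝ) : Prop
    extends Ker P x y where
  pos : ∀ a b : Fin (d + 3), a < b → 0 < sg a b * (x a * y b - x b * y a)

lemma Ker.gale_of_triples (hd : Even d) (h : Ker P x y)
    (ht : ∀ a b c : Fin (d + 3), a < b → b < c → ((a : ℕ) + b) % 2 = 1 → ((b : ℕ) + c) % 2 = 1 →
      ∃ ca cb cc : ℝ, 0 < ca ∧ 0 < cb ∧ 0 < cc ∧ ∀ v : Fin (d + 3) → ℝ, ∑ i, v i = 0 →
        P *ᵥ v = 0 → ca * v a + cb * v b + cc * v c = 0) :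
    Gale P x y ∨ Gale P y x := by
  set σ : Fin (d + 3) → Fin (d + 3) → ℝ := fun a b => sg a b * (x a * y b - x b * y a) with hσ
  have tr : ∀ a b c : Fin (d + 3), a < b → b < c → ((a : ℕ) + b) % 2 = 1 →
      ((b : ℕ) + c) % 2 = 1 → ∀ z : ℝ, ((∃ k : ℝ, 0 < k ∧ σ a b = k * z) ↔
        (∃ k : ℝ, 0 < k ∧ σ b c = k * z)) ∧ ((∃ k : ℝ, 0 < k ∧ σ a b = k * z) →
        (∃ k : ℝ, 0 < k ∧ σ a c = k * z)) := by
    intro a b c hab hbc p1 p2 z
    obtain ⟨ca, cb, cc, h1, h2, h3, e⟩ := ht a b c hab hbc p1 p2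
    have ex := e x h.sx h.px
    have ey := e y h.sy h.py
    have e1 : ca * σ a b = cc * σ b c := by
      simp only [hσ, sg_odd p1, sg_odd p2]
      linear_combination (y b) * ex - (x b) * ey
    have e2 : cb * σ a b = cc * σ a c := by
      simp only [hσ, sg_odd p1, sg_even (show ((a : ℕ) + c) % 2 = 0 by omega)]
      linear_combination (x a) * ey - (y a) * ex
    refine ⟨⟨?_, ?_⟩, ?_⟩
    · rintro ⟨k, hk, ek⟩
      refine ⟨ca * k / cc, by positivity, ?_⟩
      field_simp
      linear_combination ca * ek - e1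
    · rintro ⟨k, hk, ek⟩
      refine ⟨cc * k / ca, by positivity, ?_⟩
      field_simp
      linear_combination cc * ek + e1
    · rintro ⟨k, hk, ek⟩
      refine ⟨cb * k / cc, by positivity, ?_⟩
      field_simp
      linear_combination cb * ek - e2
  set z := σ ⟨0, by omega⟩ ⟨1, by omega⟩ with hz
  have cons : ∀ (j : ℕ) (hj : j + 1 < d + 3),
      ∃ k : ℝ, 0 < k ∧ σ ⟨j, by omega⟩ ⟨j + 1, hj⟩ = k * z := by
    intro j
    induction j with
    | zero => intro hj; exact ⟨1, one_pos, by simp [hz]⟩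
    | succ j ih =>
      intro hj
      exact (tr ⟨j, by omega⟩ ⟨j + 1, by omega⟩ ⟨j + 1 + 1, hj⟩ (by simp) (by simp)
        (by simp; omega) (by simp; omega) z).1.1 (ih (by omega))
  have all : ∀ a b : Fin (d + 3), a < b → ∃ k : ℝ, 0 < k ∧ σ a b = k * z := by
    rintro ⟨a, ha⟩ ⟨b, hb⟩ hab
    have hab' : a < b := hab
    obtain ⟨m, hm⟩ := hd
    by_cases hp : (a + b) % 2 = 0
    · exact (tr ⟨a, ha⟩ ⟨a + 1, by omega⟩ ⟨b, hb⟩ (by simp) (by simp; omega)
        (by simp; omega) (by simp; omega) z).2 (cons a (by omega))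
    · by_cases hb1 : b + 1 < d + 3
      · exact (tr ⟨a, ha⟩ ⟨b, hb⟩ ⟨b + 1, hb1⟩ hab (by simp)
          (by simp; omega) (by simp; omega) z).1.2 (cons b hb1)
      · obtain ⟨a', rfl⟩ : ∃ a', a = a' + 1 := ⟨a - 1, by omega⟩
        exact (tr ⟨a', by omega⟩ ⟨a' + 1, ha⟩ ⟨b, hb⟩ (by simp) hab
          (by simp; omega) (by simp; omega) z).1.1 (cons a' ha)
  rcases lt_trichotomy z 0 with hz0 | hz0 | hz0
  · right
    refine ⟨h.symm, fun a b hab => ?_⟩
    obtain ⟨k, hk, e⟩ := all a b hab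
    have : sg a b * (y a * x b - y b * x a) = - σ a b := by simp only [hσ]; ring
    rw [this, e]
    nlinarith [mul_pos hk (neg_pos.mpr hz0)]
  · exfalso
    have z0 : ∀ a b, x a * y b - x b * y a = 0 := by
      have z1 : ∀ a b, a < b → x a * y b - x b * y a = 0 := by
        intro a b hab
        obtain ⟨k, hk, e⟩ := all a b hab
        rw [hz0, mul_zero] at e
        exact (mul_eq_zero.mp e).resolve_left (pow_ne_zero _ (by norm_num))
      intro a b
      rcases lt_trichotomy a b with h1 | h1 | h1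
      · exact z1 a b h1
      · rw [h1]; ring
      · linarith [z1 b a h1]
    have hx0 : ∀ a, x a = 0 := by
      intro a
      have := (h.indep (y a) (- x a) (fun i => by linarith [z0 i a])).2
      linarith
    have := (h.indep 1 0 (fun i => by simp [hx0 i])).1
    exact one_ne_zero this
  · left
    refine ⟨h, fun a b hab => ?_⟩
    obtain ⟨k, hk, e⟩ := all a b hab
    change 0 < σ a b
    rw [e]
    exact mul_pos hk hz0

/- The sign pattern of the affine determinants. -/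
def Alt (P : Matrix (Fin d) (Fin (d + 3)) ℝ) (ε : ℝ) : Prop :=
  ∀ a b : Fin (d + 3), a < b → 0 < ε * (sg a b * chi P a b)

lemma Alt.spanning {ε : ℝ} (h : Alt P ε) : Spanning P := by
  intro v c hv
  by_contra hne
  have h0 := h ⟨0, by omega⟩ ⟨1, by omega⟩ (by simp)
  have : chi P ⟨0, by omega⟩ ⟨1, by omega⟩ = 0 := by
    unfold chi sdet
    apply exists_vecMul_eq_zero_iff.mp
    refine ⟨Sum.elim v ![-c, 0, 0], ?_, ?_⟩
    · intro e
      apply hne
      ext r
      exact congrFun e (Sum.inl r)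
    · ext j
      simp [vecMul, dotProduct, Fintype.sum_sum_type, stk, Fin.sum_univ_three, hv]
  rw [this] at h0
  simp at h0

lemma Alt.exists_gale {ε : ℝ} (h : Alt P ε) : ∃ x y, Gale P x y := by
  obtain ⟨x, y, hK⟩ := h.spanning.exists_ker
  obtain ⟨κ, hκ, e, -⟩ := hK.chi_kappa h.spanning (l := fun _ => 1) (fun _ => one_pos)
  have hε : ε ≠ 0 := by
    rintro rfl
    simpa using h ⟨0, by omega⟩ ⟨1, by omega⟩ (by simp)
  rcases lt_or_gt_of_ne (mul_ne_zero hε hκ) with h1 | h1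
  · refine ⟨y, x, hK.symm, fun a b hab => ?_⟩
    have := h a b hab
    rw [e] at this
    by_contra hc
    push Not at hc
    nlinarith [mul_nonneg (neg_nonneg.mpr hc) (neg_pos.mpr h1).le]
  · refine ⟨x, y, hK, fun a b hab => ?_⟩
    have := h a b hab
    rw [e] at this
    by_contra hc
    push Not at hc
    nlinarith [mul_nonneg (neg_nonneg.mpr hc) h1.le]

lemma Gale.ne_zero (h : Gale P x y) {a b : Fin (d + 3)} (hab : a ≠ b) :
    x a * y b - x b * y a ≠ 0 := by
  intro e
  rcases lt_or_gt_of_ne hab with h1 | h1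
  · have := h.pos a b h1
    rw [e] at this
    simp at this
  · have := h.pos b a h1
    rw [show x b * y a - x a * y b = 0 by linarith] at this
    simp at this

end Pool.Agent.P.MP_7322d1_co
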