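import Mathlib
import Pool.Agent.P.MP_7322d1_co.Gale

set_option autoImplicit false

namespace Pool.Agent.P.MP_7322d1_co

open Matrix MeasureTheory

variable {d : ℕ}

abbrev E (d : ℕ) := EuclideanSpace ℝ (Fin d)

/- The coordinate matrix of a configuration. -/
def mat (p : Fin (d + 3) → E d) : Matrix (Fin d) (Fin (d + 3)) ℝ := Matrix.of fun r i => p i r

lemma mem_hull (p : Fin (d + 3) → E d) (q : E d) :
    q ∈ convexHull ℝ (Set.range p) ↔
      ∃ t : Fin (d + 3) → ℝ, (∀ i, 0 ≤ t i) ∧ ∑ i, t i = 1 ∧ q = WithLp.toLp 2 (mat p *ᵥ t) := by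
  let Lm : (Fin (d + 3) → ℝ) →ₗ[ℝ] E d :=
    (WithLp.linearEquiv 2 ℝ (Fin d → ℝ)).symm.toLinearMap ∘ₗ (mat p).mulVecLin
  have h1 : Lm '' (Set.range fun i j : Fin (d + 3) => if i = j then (1 : ℝ) else 0) =
      Set.range p := by
    rw [← Set.range_comp]
    congr 1
    ext i r
    simp [Lm, mat, mulVec, dotProduct]
  rw [← h1, ← LinearMap.image_convexHull, convexHull_basis_eq_stdSimplex]
  constructor
  · rintro ⟨t, ⟨h1, h2⟩, rfl⟩
    exact ⟨t, h1, h2, rfl⟩
  · rintro ⟨t, h1, h2, rfl⟩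
    exact ⟨t, ⟨h1, h2⟩, rfl⟩

def Sx (r : ℝ → Prop) (P : Matrix (Fin d) (Fin (d + 3)) ℝ) (a b : Fin (d + 3)) : Set (E d) :=
  {q | ∃ t : Fin (d + 3) → ℝ, (∀ i, i ≠ a → i ≠ b → r (t i)) ∧ t a = 0 ∧ t b = 0 ∧
    ∑ i, t i = 1 ∧ q = WithLp.toLp 2 (P *ᵥ t)}

def Dl (d : ℕ) (r : ℝ → Prop) : Set (E d) := {s | (∀ k, r (s k)) ∧ r (1 - ∑ k, s k)}

lemma vol_Sx (r : ℝ → Prop) (P : Matrix (Fin d) (Fin (d + 3)) ℝ) {a b : Fin (d + 3)}
    (ha : a ≠ 0) (hb : b ≠ 0) (hab : a ≠ b) :
    volume (Sx r P a b) = ENNReal.ofReal |chi P a b| * volume (Dl d r) := by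
  have inj1 : Function.Injective
      (fun k : Fin 3 => (finSumFinEquiv (Sum.inr k : Fin d ⊕ Fin 3) : Fin (d + 3))) := by
    intro k l h
    simpa using h
  have inj2 : Function.Injective (![0, a, b] : Fin 3 → Fin (d + 3)) := by
    intro k l h
    fin_cases k <;> fin_cases l <;> simp_all [eq_comm]
  obtain ⟨π, hπ⟩ := Equiv.Perm.exists_extending_pair _ _ inj1 inj2
  set σ : Fin d ⊕ Fin 3 ≃ Fin (d + 3) := finSumFinEquiv.trans π with hσ
  have s0 : σ (Sum.inr 0) = 0 := hπ 0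
  have s1 : σ (Sum.inr 1) = a := hπ 1
  have s2 : σ (Sum.inr 2) = b := hπ 2
  have n1 : ∀ k, σ (Sum.inl k) ≠ a := fun k h => by
    rw [← s1] at h; simpa using σ.injective h
  have n2 : ∀ k, σ (Sum.inl k) ≠ b := fun k h => by
    rw [← s2] at h; simpa using σ.injective h
  have sumσ : ∀ f : Fin (d + 3) → ℝ, ∑ i, f i = ∑ k, f (σ (Sum.inl k)) + (f 0 + f a + f b) := by
    intro f
    rw [← Equiv.sum_comp σ f, Fintype.sum_sum_type, Fin.sum_univ_three, s0, s1, s2]
  set A : Matrix (Fin d) (Fin d) ℝ := Matrix.of fun j k => P j (σ (Sum.inl k)) - P j 0 with hA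
  have hdet : |chi P a b| = |A.det| := by
    unfold chi
    rw [abs_sdet_equiv _ σ]
    congr 1
    have e : (stk P 1 (Pi.single a 1) (Pi.single b 1)).submatrix id σ =
        (fromBlocks A (Matrix.of fun j k => P j (σ (Sum.inr k))) (0 : Matrix (Fin 3) (Fin d) ℝ)
          (!![1, 1, 1; 0, 1, 0; 0, 0, 1] : Matrix (Fin 3) (Fin 3) ℝ) :
            Matrix (Fin d ⊕ Fin 3) (Fin d ⊕ Fin 3) ℝ) *
        (fromBlocks (1 : Matrix (Fin d) (Fin d) ℝ) (0 : Matrix (Fin d) (Fin 3) ℝ)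
          (Matrix.of fun (k : Fin 3) (_ : Fin d) => if k = 0 then (1 : ℝ) else 0)
          (1 : Matrix (Fin 3) (Fin 3) ℝ) : Matrix (Fin d ⊕ Fin 3) (Fin d ⊕ Fin 3) ℝ) := by
      rw [fromBlocks_multiply]
      ext (j | j) (k | k)
      · simp [stk, hA, Matrix.mul_apply, s0]
      · simp [stk]
      · fin_cases j <;> simp [stk, n1, n2, vecHead, vecTail]
      · fin_cases j <;> fin_cases k <;> simp [stk, s0, s1, s2, ha.symm, hb.symm, hab, hab.symm]
    rw [e, det_mul, det_fromBlocks_zero₂₁, det_fromBlocks_zero₁₂]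
    simp [det_fin_three]
  have himg : Sx r P a b = (fun z => (WithLp.toLp 2 (fun j => P j 0) : E d) + z) ''
      (Matrix.toLpLin 2 2 A '' Dl d r) := by
    ext q
    constructor
    · rintro ⟨t, h1, h2, h3, h4, rfl⟩
      have h5 : t 0 = 1 - ∑ k, t (σ (Sum.inl k)) := by
        rw [sumσ, h2, h3] at h4; linarith
      refine ⟨_, ⟨WithLp.toLp 2 (fun k => t (σ (Sum.inl k))), ⟨fun k => h1 _ (n1 k) (n2 k), ?_⟩,
        rfl⟩, ?_⟩
      · simpa [← h5] using h1 0 ha.symm hb.symm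
      · ext j
        simp only [toLpLin_apply, PiLp.add_apply, mulVec, dotProduct]
        rw [sumσ (fun i => P j i * t i), h2, h3, h5]
        simp [hA, sub_mul, Finset.sum_sub_distrib, mul_sub, Finset.mul_sum]
        ring
    · rintro ⟨_, ⟨s, ⟨h1, h2⟩, rfl⟩, rfl⟩
      set t : Fin (d + 3) → ℝ := fun i => Sum.elim (fun k => s k) ![1 - ∑ k, s k, 0, 0] (σ.symm i)
        with ht
      have t0 : t 0 = 1 - ∑ k, s k := by rw [← s0]; simp [ht]
      have ta : t a = 0 := by rw [← s1]; simp [ht]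
      have tb : t b = 0 := by rw [← s2]; simp [ht]
      have tk : ∀ k, t (σ (Sum.inl k)) = s k := fun k => by simp [ht]
      refine ⟨t, ?_, ta, tb, ?_, ?_⟩
      · intro i hia hib
        obtain ⟨j, rfl⟩ := σ.surjective i
        rcases j with k | k
        · rw [tk]; exact h1 k
        · fin_cases k
          · simpa [s0, t0] using h2
          · exact absurd s1 hia
          · exact absurd s2 hib
      · rw [sumσ, t0, ta, tb]; simp [tk]
      · ext j
        simp only [toLpLin_apply, PiLp.add_apply, mulVec, dotProduct]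
        rw [sumσ (fun i => P j i * t i), ta, tb, t0]
        simp [hA, tk, sub_mul, Finset.sum_sub_distrib, mul_sub, Finset.mul_sum]
        ring
  rw [himg, Set.image_add_left, measure_preimage_add, Measure.addHaar_image_linearMap,
    toLpLin_eq_toLin, LinearMap.det_toLin, hdet]

lemma vol_hyperplane (f : E d →ₗ[ℝ] ℝ) (v : E d) (hv : f v = 1) (c : ℝ) :
    volume {s : E d | f s = c} = 0 := by
  have : {s : E d | f s = c} = (fun s => -(c • v) + s) ⁻¹' (LinearMap.ker f : Set (E d)) := by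
    ext s
    simp only [Set.mem_ofPred_eq, Set.mem_preimage, SetLike.mem_coe, LinearMap.mem_ker, map_add,
      map_neg, map_smul, hv, smul_eq_mul, mul_one]
    constructor <;> intro h <;> linarith
  rw [this, measure_preimage_add]
  apply Measure.addHaar_submodule
  intro h
  have : v ∈ LinearMap.ker f := by rw [h]; trivial
  rw [LinearMap.mem_ker, hv] at this
  exact one_ne_zero this

lemma vol_Dl_eq (hd : 0 < d) : volume (Dl d (0 < ·)) = volume (Dl d (0 ≤ ·)) := by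
  apply le_antisymm
  · exact measure_mono (fun s hs => ⟨fun k => (hs.1 k).le, hs.2.le⟩)
  · have hsub : Dl d (0 ≤ ·) ⊆ Dl d (0 < ·) ∪
        ((⋃ k, {s : E d | s k = 0}) ∪ {s : E d | ∑ k, s k = 1}) := by
      intro s hs
      by_contra hc
      simp only [Set.mem_union, Set.mem_iUnion, Set.mem_ofPred_eq, not_or, not_exists] at hc
      exact hc.1 ⟨fun k => lt_of_le_of_ne (hs.1 k) (Ne.symm (hc.2.1 k)),
        lt_of_le_of_ne hs.2 (fun h => hc.2.2 (by linarith))⟩
    have h0 : volume ((⋃ k, {s : E d | s k = 0}) ∪ {s : E d | ∑ k, s k = 1}) = 0 := by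
      apply measure_union_null
      · apply measure_iUnion_null
        intro k
        exact vol_hyperplane (EuclideanSpace.projₗ k) (EuclideanSpace.single k 1) (by simp) 0
      · have := vol_hyperplane (∑ k, EuclideanSpace.projₗ k)
          (EuclideanSpace.single (⟨0, hd⟩ : Fin d) 1) (by simp) 1
        simpa using this
    calc volume (Dl d (0 ≤ ·)) ≤ _ := measure_mono hsub
      _ ≤ _ := measure_union_le _ _
      _ = _ := by rw [h0, add_zero]

lemma vol_Dl_pos : 0 < volume (Dl d (0 < ·)) := by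
  have ho : IsOpen (Dl d (0 < ·)) := by
    have : Dl d (0 < ·) = (⋂ k, {s : E d | 0 < s k}) ∩ {s : E d | 0 < 1 - ∑ k, s k} := by
      ext s; simp [Dl]
    rw [this]
    refine IsOpen.inter (isOpen_iInter_of_finite fun k => ?_) ?_
    · exact isOpen_lt continuous_const (by fun_prop)
    · exact isOpen_lt continuous_const (by fun_prop)
  refine ho.measure_pos volume ?_
  refine ⟨WithLp.toLp 2 fun _ => 1 / ((d : ℝ) + 1), fun k => ?_, ?_⟩
  · simp only; positivity
  · simp only [Finset.sum_const, Finset.card_univ, Fintype.card_fin, nsmul_eq_mul]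
    have : (1 : ℝ) - d * (1 / ((d : ℝ) + 1)) = 1 / ((d : ℝ) + 1) := by field_simp; ring
    rw [this]; positivity

lemma vol_Dl_lt_top : volume (Dl d (0 ≤ ·)) < ⊤ := by
  apply Bornology.IsBounded.measure_lt_top
  refine (Metric.isBounded_closedBall (x := (0 : E d)) (r := 1)).subset ?_
  intro s hs
  rw [mem_closedBall_zero_iff, EuclideanSpace.norm_eq, Real.sqrt_le_one]
  have h1 : ∑ k, s k ≤ 1 := by linarith [hs.2]
  refine le_trans (Finset.sum_le_sum fun k _ => ?_) h1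
  have h2 : s k ≤ 1 := le_trans (Finset.single_le_sum (f := fun k => s k) (fun k _ => hs.1 k)
    (Finset.mem_univ k)) h1
  have h3 := hs.1 k
  rw [Real.norm_eq_abs, sq_abs]
  nlinarith

/- The pairs omitted by the simplices of the pulling triangulation at vertex `0`. -/
def Tr (d : ℕ) : Finset (Fin (d + 3) × Fin (d + 3)) :=
  Finset.univ.filter fun ab => (ab.1 : ℕ) % 2 = 1 ∧ (ab.2 : ℕ) % 2 = 0 ∧ ab.1 < ab.2

lemma mem_Tr {ab : Fin (d + 3) × Fin (d + 3)} :
    ab ∈ Tr d ↔ (ab.1 : ℕ) % 2 = 1 ∧ (ab.2 : ℕ) % 2 = 0 ∧ ab.1 < ab.2 := by simp [Tr]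

lemma Tr_ne {ab : Fin (d + 3) × Fin (d + 3)} (h : ab ∈ Tr d) :
    ab.1 ≠ 0 ∧ ab.2 ≠ 0 ∧ ab.1 ≠ ab.2 := by
  obtain ⟨h1, h2, h3⟩ := mem_Tr.mp h
  refine ⟨?_, ?_, h3.ne⟩
  · intro e; rw [e] at h1; simp at h1
  · intro e; rw [e] at h3; simp at h3

variable {P : Matrix (Fin d) (Fin (d + 3)) ℝ} {x y : Fin (d + 3) → ℝ}

lemma Gale.cover (h : Gale P x y) (t0 : Fin (d + 3) → ℝ) (h1 : ∀ i, 0 ≤ t0 i)
    (h2 : ∑ i, t0 i = 1) : ∃ ab ∈ Tr d, WithLp.toLp 2 (P *ᵥ t0) ∈ Sx (0 ≤ ·) P ab.1 ab.2 := by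
  have hc : IsCompact (stdSimplex ℝ (Fin (d + 3)) ∩ {t | P *ᵥ t = P *ᵥ t0}) :=
    (isCompact_stdSimplex ℝ _).inter_right (isClosed_eq (by fun_prop) continuous_const)
  obtain ⟨t, ⟨⟨t1, t2⟩, t3⟩, tmax⟩ := hc.exists_isMaxOn ⟨t0, ⟨h1, h2⟩, rfl⟩
    (continuous_apply (0 : Fin (d + 3))).continuousOn
  have t3 : P *ᵥ t = P *ᵥ t0 := t3
  by_contra hcon
  push Not at hcon
  have hno : ∀ a b : Fin (d + 3), (a : ℕ) % 2 = 1 → (b : ℕ) % 2 = 0 → a < b → t a = 0 →
      t b = 0 → False := by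
    intro a b p1 p2 hab e1 e2
    exact hcon (a, b) (mem_Tr.mpr ⟨p1, p2, hab⟩) ⟨t, fun i _ _ => t1 i, e1, e2, t2, by rw [t3]⟩
  obtain ⟨k, hk0, hk⟩ : ∃ k : Fin (d + 3), 0 < k ∧ ∀ i, t i = 0 →
      ((i : ℕ) % 2 = 0 → i ≤ k) ∧ ((i : ℕ) % 2 = 1 → k ≤ i) := by
    by_cases hZ : (Finset.univ.filter
        (fun i : Fin (d + 3) => t i = 0 ∧ (i : ℕ) % 2 = 0 ∧ 0 < i)).Nonempty
    · obtain ⟨k, hk1, hk2⟩ := Finset.exists_max_image _ id hZ
      simp only [Finset.mem_filter, Finset.mem_univ, true_and, id] at hk1 hk2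
      refine ⟨k, hk1.2.2, fun i hi => ⟨fun p => ?_, fun p => ?_⟩⟩
      · rcases (Fin.zero_le i).lt_or_eq with h0 | h0
        · exact hk2 i ⟨hi, p, h0⟩
        · rw [← h0]; exact Fin.zero_le k
      · by_contra hlt
        push Not at hlt
        exact hno i k p hk1.2.1 hlt hi hk1.1
    · refine ⟨⟨1, by omega⟩, by simp, fun i hi => ⟨fun p => ?_, fun p => ?_⟩⟩
      · by_contra hlt
        push Not at hlt
        apply hZ
        refine ⟨i, ?_⟩
        simp only [Finset.mem_filter, Finset.mem_univ, true_and]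
        refine ⟨hi, p, ?_⟩
        rw [Fin.lt_def] at hlt ⊢
        simp only [Fin.val_zero] at hlt ⊢
        omega
      · rw [Fin.le_def]
        simp
        omega
  set u : Fin (d + 3) → ℝ := fun i => sg 0 k * (x i * y k - x k * y i) with hu
  have u0 : 0 < u 0 := h.pos 0 k hk0
  have uZ : ∀ i, t i = 0 → 0 ≤ u i := by
    intro i hi
    obtain ⟨e1, e2⟩ := hk i hi
    rcases Nat.mod_two_eq_zero_or_one i with p | p
    · rcases (e1 p).lt_or_eq with h3 | h3
      · have := h.pos i k h3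
        have e : sg i k = sg 0 k := by
          rcases Nat.mod_two_eq_zero_or_one k with q | q
          · rw [sg_even (by omega), sg_even (by simpa using q)]
          · rw [sg_odd (by omega), sg_odd (by simpa using q)]
        rw [e] at this
        exact this.le
      · simp [hu, h3]
    · rcases (e2 p).lt_or_eq with h3 | h3
      · have := h.pos k i h3
        have e : sg k i = - sg 0 k := by
          rcases Nat.mod_two_eq_zero_or_one k with q | q
          · rw [sg_odd (by omega), sg_even (by simpa using q)]; simp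
          · rw [sg_even (by omega), sg_odd (by simpa using q)]
        rw [e] at this
        simp only [hu]
        linarith
      · simp [hu, h3]
  have uP : P *ᵥ u = 0 := by
    have : u = (sg 0 k * y k) • x - (sg 0 k * x k) • y := by
      ext i; simp [hu]; ring
    rw [this, mulVec_sub, mulVec_smul, mulVec_smul, h.px, h.py]; simp
  have uS : ∑ i, u i = 0 := by
    have : ∀ i, u i = (sg 0 k * y k) * x i - (sg 0 k * x k) * y i := by
      intro i; simp [hu]; ring
    simp only [this, Finset.sum_sub_distrib, ← Finset.mul_sum, h.sx, h.sy]; simp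
  have ev : ∀ᶠ ε in nhdsWithin (0 : ℝ) (Set.Ioi 0), ∀ i, 0 ≤ t i + ε * u i := by
    rw [Filter.eventually_all]
    intro i
    rcases (t1 i).lt_or_eq with h3 | h3
    · apply Filter.Eventually.filter_mono nhdsWithin_le_nhds
      have : Filter.Tendsto (fun ε : ℝ => t i + ε * u i) (nhds 0) (nhds (t i + 0 * u i)) :=
        (Continuous.tendsto (by fun_prop) 0)
      exact (this.eventually (lt_mem_nhds (by simpa using h3))).mono fun _ h => h.le
    · filter_upwards [self_mem_nhdsWithin] with ε hε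
      have := uZ i h3.symm
      have hε : 0 < ε := hε
      rw [← h3]
      positivity
  obtain ⟨ε, hε1, hε2⟩ := (ev.and self_mem_nhdsWithin).exists
  have hε2 : 0 < ε := hε2
  have := tmax (a := t + ε • u) ⟨⟨fun i => by simpa using hε1 i, by
    simp [Finset.sum_add_distrib, ← Finset.mul_sum, uS, t2]⟩, by
    simp [mulVec_add, mulVec_smul, uP, t3]⟩
  simp at this
  nlinarith [mul_pos hε2 u0]

lemma Gale.disj (h : Gale P x y) {ab ab' : Fin (d + 3) × Fin (d + 3)} (h1 : ab ∈ Tr d)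
    (h2 : ab' ∈ Tr d) (hne : ab ≠ ab') :
    Disjoint (Sx (0 < ·) P ab.1 ab.2) (Sx (0 < ·) P ab'.1 ab'.2) := by
  have key : ∀ {ab ab' : Fin (d + 3) × Fin (d + 3)}, ab ∈ Tr d → ab' ∈ Tr d → ab ≠ ab' →
      ∀ t t' : Fin (d + 3) → ℝ, t ab.1 = 0 → t ab.2 = 0 → ∑ i, t i = 1 →
      (∀ i, i ≠ ab'.1 → i ≠ ab'.2 → 0 < t' i) → t' ab'.1 = 0 → t' ab'.2 = 0 → ∑ i, t' i = 1 →
      P *ᵥ t = P *ᵥ t' → t' 0 < t 0 := by
    rintro ⟨a, b⟩ ⟨a', b'⟩ h1 h2 hne t t' ta tb ts tp ta' tb' ts' hP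
    obtain ⟨p1, p2, p3⟩ := mem_Tr.mp h1
    obtain ⟨q1, q2, q3⟩ := mem_Tr.mp h2
    obtain ⟨n1, n2, n3⟩ := Tr_ne h1
    simp only at *
    obtain ⟨α, β, e⟩ := h.span (t' - t) (by simp [Finset.sum_sub_distrib, ts, ts'])
      (by rw [mulVec_sub, hP]; simp)
    have g1 := h.pos a b p3
    have g2 := h.pos 0 b (Fin.pos_iff_ne_zero.mpr n2)
    have g3 := h.pos 0 a (Fin.pos_iff_ne_zero.mpr n1)
    rw [sg_odd (by omega)] at g1
    rw [sg_even (by simpa using p2)] at g2
    rw [sg_odd (by simpa using p1)] at g3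
    have e0 := e 0
    have ea := e a
    have eb := e b
    simp only [Pi.sub_apply, ta, tb, sub_zero] at e0 ea eb
    have nn : ∀ i, 0 ≤ t' i := by
      intro i
      by_cases i1 : i = a'
      · rw [i1, ta']
      · by_cases i2 : i = b'
        · rw [i2, tb']
        · exact (tp i i1 i2).le
    have id1 : (x a * y b - x b * y a) * (t' 0 - t 0) + (-(x 0 * y b - x b * y 0)) * t' a +
        (x 0 * y a - x a * y 0) * t' b = 0 := by
      rw [e0, ea, eb]; ring
    have hpos : 0 < (-(x 0 * y b - x b * y 0)) * t' a + (x 0 * y a - x a * y 0) * t' b := by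
      by_cases haa : a = a'
      · have hbb : b ≠ b' := fun hb => hne (by rw [haa, hb])
        have hba : b ≠ a' := fun hb => by rw [hb] at p2; omega
        nlinarith [mul_pos g3 (tp b hba hbb), mul_nonneg g2.le (nn a)]
      · have hab : a ≠ b' := fun hb => by rw [hb] at p1; omega
        nlinarith [mul_pos g2 (tp a haa hab), mul_nonneg g3.le (nn b)]
    by_contra hc
    push Not at hc
    nlinarith [mul_nonneg g1.le (sub_nonneg.mpr hc)]
  rw [Set.disjoint_left]
  rintro q ⟨t, tp, ta, tb, ts, rfl⟩ ⟨t', tp', ta', tb', ts', e⟩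
  have e : P *ᵥ t = P *ᵥ t' := by simpa using e
  have a1 := key h1 h2 hne t t' ta tb ts tp' ta' tb' ts' e
  have a2 := key h2 h1 hne.symm t' t ta' tb' ts' tp ta tb ts e.symm
  linarith

lemma convex_Sx (P : Matrix (Fin d) (Fin (d + 3)) ℝ) (a b : Fin (d + 3)) :
    Convex ℝ (Sx (0 < ·) P a b) := by
  rintro _ ⟨t, tp, ta, tb, ts, rfl⟩ _ ⟨t', tp', ta', tb', ts', rfl⟩ α β hα hβ hs
  refine ⟨α • t + β • t', fun i i1 i2 => ?_, by simp [ta, ta'], by simp [tb, tb'], ?_, ?_⟩
  · have a1 := tp i i1 i2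
    have a2 := tp' i i1 i2
    simp only [Pi.add_apply, Pi.smul_apply, smul_eq_mul]
    rcases hα.lt_or_eq with h0 | h0
    · nlinarith [mul_pos h0 a1, mul_nonneg hβ a2.le]
    · have : β = 1 := by linarith
      rw [← h0, this]; simpa using a2
  · simp [Finset.sum_add_distrib, ← Finset.mul_sum, ts, ts', hs]
  · simp [mulVec_add, mulVec_smul]

theorem Gale.vol {p : Fin (d + 3) → E d} (hd : 0 < d) (h : Gale (mat p) x y) :
    volume (convexHull ℝ (Set.range p)) =
      ENNReal.ofReal (∑ ab ∈ Tr d, |chi (mat p) ab.1 ab.2|) * volume (Dl d (0 ≤ ·)) := by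
  rw [ENNReal.ofReal_sum_of_nonneg (fun _ _ => abs_nonneg _), Finset.sum_mul]
  apply le_antisymm
  · have hsub : convexHull ℝ (Set.range p) ⊆ ⋃ ab ∈ Tr d, Sx (0 ≤ ·) (mat p) ab.1 ab.2 := by
      intro q hq
      obtain ⟨t, t1, t2, rfl⟩ := (mem_hull p q).mp hq
      obtain ⟨ab, h1, h2⟩ := h.cover t t1 t2
      exact Set.mem_biUnion h1 h2
    refine (measure_mono hsub).trans ((measure_biUnion_finset_le _ _).trans (le_of_eq ?_))
    apply Finset.sum_congr rfl
    intro ab hab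
    obtain ⟨n1, n2, n3⟩ := Tr_ne hab
    exact vol_Sx _ _ n1 n2 n3
  · have hsub : (⋃ ab ∈ Tr d, Sx (0 < ·) (mat p) ab.1 ab.2) ⊆ convexHull ℝ (Set.range p) := by
      intro q hq
      simp only [Set.mem_iUnion] at hq
      obtain ⟨ab, -, t, tp, ta, tb, ts, rfl⟩ := hq
      refine (mem_hull p _).mpr ⟨t, fun i => ?_, ts, rfl⟩
      by_cases i1 : i = ab.1
      · rw [i1, ta]
      · by_cases i2 : i = ab.2
        · rw [i2, tb]
        · exact (tp i i1 i2).le
    refine le_trans (le_of_eq ?_) (measure_mono hsub)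
    rw [measure_biUnion_finset₀ (fun ab h1 ab' h2 hne => (h.disj h1 h2 hne).aedisjoint)
      (fun ab _ => (convex_Sx _ _ _).nullMeasurableSet _)]
    apply Finset.sum_congr rfl
    intro ab hab
    obtain ⟨n1, n2, n3⟩ := Tr_ne hab
    rw [vol_Sx _ _ n1 n2 n3, vol_Dl_eq hd]

end Pool.Agent.P.MP_7322d1_co
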