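import Mathlib
import Pool.Agent.P.MP_7322d1_co.Vol

set_option autoImplicit false

namespace Pool.Agent.P.MP_7322d1_co

open Matrix

variable {d : ℕ}

/- The mixed area form. -/
def Vf (x y : Fin (d + 3) → ℝ) : ℝ := ∑ ab ∈ Tr d, (x ab.1 * y ab.2 - x ab.2 * y ab.1)

def tI (a b : Fin (d + 3)) : ℝ := if (a : ℕ) % 2 = 1 ∧ (b : ℕ) % 2 = 0 ∧ a < b then 1 else 0

def prim (x : Fin (d + 3) → ℝ) (i : Fin (d + 3)) : ℝ := ∑ k, (tI k i - tI i k) * x k

def Dop (u : Fin (d + 3) → ℝ) (i : Fin (d + 3)) : ℝ := u (i + 1) - u (i - 1)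

lemma Vf_eq (x y : Fin (d + 3) → ℝ) : Vf x y = ∑ i, prim x i * y i := by
  unfold Vf Tr prim
  rw [Finset.sum_filter, Fintype.sum_prod_type]
  have e1 : ∀ a b : Fin (d + 3), (if (a : ℕ) % 2 = 1 ∧ (b : ℕ) % 2 = 0 ∧ a < b then
      x a * y b - x b * y a else 0) = tI a b * x a * y b - tI a b * x b * y a := by
    intro a b
    unfold tI
    split_ifs <;> ring
  simp only [e1, Finset.sum_sub_distrib, Finset.sum_mul, sub_mul]
  rw [Finset.sum_comm]

lemma Vf_swap (x y : Fin (d + 3) → ℝ) : Vf y x = - Vf x y := by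
  unfold Vf
  rw [← Finset.sum_neg_distrib]
  apply Finset.sum_congr rfl
  intro _ _; ring

lemma Vf_self (x : Fin (d + 3) → ℝ) : Vf x x = 0 := by
  linarith [Vf_swap x x]

lemma val_succ (i : Fin (d + 3)) :
    ((i + 1 : Fin (d + 3)) : ℕ) = if (i : ℕ) + 1 < d + 3 then (i : ℕ) + 1 else 0 := by
  rw [Fin.val_add_eq_ite]
  have := i.2
  have h1 : ((1 : Fin (d + 3)) : ℕ) = 1 := rfl
  rw [h1]
  split_ifs <;> omega

lemma val_pred (i : Fin (d + 3)) :
    ((i - 1 : Fin (d + 3)) : ℕ) = if (i : ℕ) = 0 then d + 2 else (i : ℕ) - 1 := by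
  have h := val_succ (i - 1)
  rw [sub_add_cancel] at h
  have := i.2
  have := (i - 1).2
  split_ifs at h ⊢ <;> omega

lemma D_prim (hd : Even d) {x : Fin (d + 3) → ℝ} (hx : ∑ i, x i = 0) (i : Fin (d + 3)) :
    Dop (prim x) i = x i := by
  unfold Dop prim
  rw [← Finset.sum_sub_distrib]
  have e : ∀ k, (tI k (i + 1) - tI (i + 1) k) * x k - (tI k (i - 1) - tI (i - 1) k) * x k =
      (if i = k then x k else 0) - (if (i : ℕ) = 0 then 1 else 0) * x k := by
    intro k
    obtain ⟨m, hm⟩ := hd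
    have h1 := val_succ i
    have h2 := val_pred i
    have := i.2
    have := k.2
    simp only [tI, Fin.lt_def, Fin.ext_iff]
    split_ifs at h1 h2 ⊢ <;> first | (exfalso; omega) | ring
  simp only [e, Finset.sum_sub_distrib, ← Finset.mul_sum, hx]
  simp

lemma D_adj (φ u : Fin (d + 3) → ℝ) : ∑ i, φ i * Dop u i = - ∑ i, Dop φ i * u i := by
  unfold Dop
  simp only [mul_sub, sub_mul, Finset.sum_sub_distrib]
  have e1 : ∑ i, φ i * u (i + 1) = ∑ i, φ (i - 1) * u i := by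
    rw [← Equiv.sum_comp (Equiv.addRight (1 : Fin (d + 3))) (fun i => φ (i - 1) * u i)]
    simp
  have e2 : ∑ i, φ i * u (i - 1) = ∑ i, φ (i + 1) * u i := by
    rw [← Equiv.sum_comp (Equiv.subRight (1 : Fin (d + 3))) (fun i => φ (i + 1) * u i)]
    simp
  rw [e1, e2]; ring

variable {P : Matrix (Fin d) (Fin (d + 3)) ℝ} {x y : Fin (d + 3) → ℝ}

lemma Gale.term_pos (h : Gale P x y) {ab : Fin (d + 3) × Fin (d + 3)} (hab : ab ∈ Tr d) :
    0 < x ab.1 * y ab.2 - x ab.2 * y ab.1 := by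
  obtain ⟨p1, p2, p3⟩ := mem_Tr.mp hab
  have := h.pos _ _ p3
  rwa [sg_odd (by omega), one_mul] at this

lemma Gale.Vf_pos (h : Gale P x y) : 0 < Vf x y :=
  Finset.sum_pos (fun _ hab => h.term_pos hab)
    ⟨(⟨1, by omega⟩, ⟨2, by omega⟩), mem_Tr.mpr (by simp [Fin.lt_def])⟩

/- The normalised volume. -/
noncomputable def fv (P : Matrix (Fin d) (Fin (d + 3)) ℝ) : ℝ := ∑ ab ∈ Tr d, |chi P ab.1 ab.2|

lemma fv_nonneg (P : Matrix (Fin d) (Fin (d + 3)) ℝ) : 0 ≤ fv P :=
  Finset.sum_nonneg fun _ _ => abs_nonneg _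

lemma Gale.fv_eq (h : Gale P x y) {κ : ℝ} (e : ∀ a b, chi P a b = κ * (x a * y b - x b * y a)) :
    fv P = |κ| * Vf x y := by
  unfold fv Vf
  rw [Finset.mul_sum]
  apply Finset.sum_congr rfl
  intro ab hab
  rw [e, abs_mul, abs_of_pos (h.term_pos hab)]

lemma Gale.fv_sq (hS : Spanning P) (h : Gale P x y) {l : Fin (d + 3) → ℝ} (hl : ∀ i, 0 < l i) :
    fv P ^ 2 * ((∏ i, l i) * gram l x y) = (covB P l).det * (∑ i, l i) * Vf x y ^ 2 := by
  obtain ⟨κ, -, e, e2⟩ := h.toKer.chi_kappa hS hl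
  rw [h.fv_eq e, mul_pow, sq_abs, ← e2]
  ring

lemma Gale.fv_pos (hS : Spanning P) (h : Gale P x y) : 0 < fv P := by
  obtain ⟨κ, hκ, e, -⟩ := h.toKer.chi_kappa hS (l := fun _ => 1) (fun _ => one_pos)
  rw [h.fv_eq e]
  exact mul_pos (abs_pos.mpr hκ) h.Vf_pos

/- AM-GM for determinants, with the case of equality. -/
lemma det_amgm {B : Matrix (Fin d) (Fin d) ℝ} (hB : B.PosDef) {m : ℝ} (hm : 0 < m)
    (ht : B.trace ≤ d * m) : B.det ≤ m ^ d ∧ (m ^ d ≤ B.det → B = m • 1) := by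
  set e := hB.isHermitian.eigenvalues with he
  have epos : ∀ k, 0 < e k := hB.eigenvalues_pos
  have h1 : B.det = ∏ k, e k := by simpa using hB.isHermitian.det_eq_prod_eigenvalues
  have h2 : B.trace = ∑ k, e k := by simpa using hB.isHermitian.trace_eq_sum_eigenvalues
  have h3 : B.det = m ^ d * ∏ k, (e k / m) := by
    rw [h1, Finset.prod_div_distrib]
    simp
    field_simp
  have h4 : ∏ k, Real.exp (e k / m - 1) ≤ 1 := by
    rw [← Real.exp_sum, Real.exp_le_one_iff, Finset.sum_sub_distrib, ← Finset.sum_div, ← h2]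
    simp
    rw [div_le_iff₀ hm]
    exact ht
  have h5 : ∀ k, e k / m ≤ Real.exp (e k / m - 1) := fun k => by
    linarith [Real.add_one_le_exp (e k / m - 1)]
  have hmd : 0 < m ^ d := by positivity
  constructor
  · rw [h3]
    have : ∏ k, (e k / m) ≤ 1 :=
      (Finset.prod_le_prod (fun k _ => (div_pos (epos k) hm).le) (fun k _ => h5 k)).trans h4
    nlinarith
  · intro hge
    have h6 : ∀ k, e k = m := by
      intro k
      by_contra hne
      have hne' : e k / m - 1 ≠ 0 := by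
        intro h0
        apply hne
        field_simp at h0
        linarith
      have : ∏ k, (e k / m) < ∏ k, Real.exp (e k / m - 1) :=
        Finset.prod_lt_prod (fun k _ => div_pos (epos k) hm) (fun k _ => h5 k)
          ⟨k, Finset.mem_univ k, by linarith [Real.add_one_lt_exp hne']⟩
      rw [h3] at hge
      nlinarith
    have h7 := hB.isHermitian.spectral_theorem
    have h8 : diagonal (RCLike.ofReal ∘ hB.isHermitian.eigenvalues) =
        m • (1 : Matrix (Fin d) (Fin d) ℝ) := by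
      ext i j
      rw [← he]
      by_cases hij : i = j
      · subst hij; simp [h6]
      · simp [hij]
    rw [h8, map_smul, map_one] at h7
    exact h7

lemma covB_trace (P : Matrix (Fin d) (Fin (d + 3)) ℝ) {l : Fin (d + 3) → ℝ} (hl : ∀ i, 0 < l i)
    (hP : ∀ i, ∑ r, P r i ^ 2 = 1) :
    (covB P l).trace = (∑ i, l i) * (1 - ∑ r, (((∑ i, l i)⁻¹ • P *ᵥ l) r) ^ 2) := by
  have hL : 0 < ∑ i, l i := Finset.sum_pos (fun i _ => hl i) Finset.univ_nonempty
  set c := (∑ i, l i)⁻¹ • P *ᵥ l with hc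
  have hc' : ∀ r, ∑ i, P r i * l i = (∑ i, l i) * c r := by
    intro r
    simp only [hc, Pi.smul_apply, smul_eq_mul, mulVec, dotProduct]
    field_simp
  have e1 : ∀ r, covB P l r r = ∑ i, P r i ^ 2 * l i - (∑ i, l i) * c r ^ 2 := by
    intro r
    have e0 : covB P l r r = ∑ i, (P r i - c r) * ((P r i - c r) * l i) := by
      rw [covB, ← hc, Matrix.mul_apply]
      simp only [transpose_apply, mul_diagonal, transl, of_apply]
    rw [e0]
    have : ∀ i, (P r i - c r) * ((P r i - c r) * l i) =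
        P r i ^ 2 * l i - 2 * c r * (P r i * l i) + c r ^ 2 * l i := fun i => by ring
    simp only [this, Finset.sum_add_distrib, Finset.sum_sub_distrib, ← Finset.mul_sum, hc']
    ring
  simp only [trace, diag_apply, e1, Finset.sum_sub_distrib, ← Finset.mul_sum]
  rw [Finset.sum_comm]
  simp only [← Finset.sum_mul, hP]
  simp [mul_sub]

lemma covB_posDef (hS : Spanning P) {l : Fin (d + 3) → ℝ} (hl : ∀ i, 0 < l i) :
    (covB P l).PosDef := (hS.transl _).posDef hl

lemma covB_det_le (hd : 0 < d) (hS : Spanning P) {l : Fin (d + 3) → ℝ} (hl : ∀ i, 0 < l i)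
    (hP : ∀ i, ∑ r, P r i ^ 2 = 1) : (covB P l).det ≤ ((∑ i, l i) / d) ^ d := by
  have hL : 0 < ∑ i, l i := Finset.sum_pos (fun i _ => hl i) Finset.univ_nonempty
  have hd' : (0 : ℝ) < d := by exact_mod_cast hd
  refine (det_amgm (covB_posDef hS hl) (div_pos hL hd') ?_).1
  rw [covB_trace P hl hP, mul_div_cancel₀ _ hd'.ne']
  nlinarith [mul_nonneg hL.le (Finset.sum_nonneg (s := Finset.univ)
    (fun r _ => sq_nonneg (((∑ i, l i)⁻¹ • P *ᵥ l) r)))]

end Pool.Agent.P.MP_7322d1_co
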