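import Mathlib
import Pool.Agent.P.MP_7322d1_co.Form

set_option autoImplicit false

namespace Pool.Agent.P.MP_7322d1_co

open Matrix Real

variable {d : ℕ}

noncomputable def ang (d : ℕ) (i : Fin (d + 3)) : ℝ := 2 * π * (i : ℕ) / ((d + 3 : ℕ) : ℝ)

noncomputable def stp (d : ℕ) : ℝ := 2 * π / ((d + 3 : ℕ) : ℝ)

lemma npos (d : ℕ) : (0 : ℝ) < ((d + 3 : ℕ) : ℝ) := by positivity

lemma ang_succ (i : Fin (d + 3)) : ∃ z : ℤ, ang d (i + 1) = ang d i + stp d + z * (2 * π) := by
  have h := val_succ i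
  have hn := (npos d).ne'
  unfold ang stp
  split_ifs at h with h1
  · exact ⟨0, by rw [h]; push_cast; field_simp; ring⟩
  · refine ⟨-1, ?_⟩
    have h2 : (i : ℕ) = d + 2 := by have := i.2; omega
    rw [h, h2]; push_cast; field_simp; ring

lemma ang_pred (i : Fin (d + 3)) : ∃ z : ℤ, ang d (i - 1) = ang d i - stp d + z * (2 * π) := by
  obtain ⟨z, hz⟩ := ang_succ (i - 1)
  rw [sub_add_cancel] at hz
  exact ⟨-z, by rw [hz]; push_cast; ring⟩

lemma D_cos (k : ℤ) (i : Fin (d + 3)) :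
    Dop (fun i => cos (k * ang d i)) i = -2 * sin (k * stp d) * sin (k * ang d i) := by
  obtain ⟨z, hz⟩ := ang_succ i
  obtain ⟨w, hw⟩ := ang_pred i
  unfold Dop
  have e1 : k * ang d (i + 1) = (k * ang d i + k * stp d) + ((k * z : ℤ) : ℝ) * (2 * π) := by
    rw [hz]; push_cast; ring
  have e2 : k * ang d (i - 1) = (k * ang d i - k * stp d) + ((k * w : ℤ) : ℝ) * (2 * π) := by
    rw [hw]; push_cast; ring
  simp only
  rw [e1, e2, cos_add_int_mul_two_pi, cos_add_int_mul_two_pi, cos_add, cos_sub]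
  ring

lemma D_sin (k : ℤ) (i : Fin (d + 3)) :
    Dop (fun i => sin (k * ang d i)) i = 2 * sin (k * stp d) * cos (k * ang d i) := by
  obtain ⟨z, hz⟩ := ang_succ i
  obtain ⟨w, hw⟩ := ang_pred i
  unfold Dop
  have e1 : k * ang d (i + 1) = (k * ang d i + k * stp d) + ((k * z : ℤ) : ℝ) * (2 * π) := by
    rw [hz]; push_cast; ring
  have e2 : k * ang d (i - 1) = (k * ang d i - k * stp d) + ((k * w : ℤ) : ℝ) * (2 * π) := by
    rw [hw]; push_cast; ring
  simp only
  rw [e1, e2, sin_add_int_mul_two_pi, sin_add_int_mul_two_pi, sin_add, sin_sub]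
  ring

lemma sum_D (u : Fin (d + 3) → ℝ) : ∑ i, Dop u i = 0 := by
  have := D_adj (fun _ => 1) u
  simpa [Dop] using this

lemma sin_stp_ne (hd : Even d) {k : ℤ} (h0 : k ≠ 0) (h1 : |k| < d + 3) : sin (k * stp d) ≠ 0 := by
  intro h
  obtain ⟨z, hz⟩ := sin_eq_zero_iff.mp h
  have hn := (npos d).ne'
  unfold stp at hz
  field_simp at hz
  have hz' : z * (d + 3) = k * 2 := by exact_mod_cast hz
  obtain ⟨m, hm⟩ := hd
  rw [abs_lt] at h1
  have a1 : z < 2 := by by_contra hc; push Not at hc; nlinarith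
  have a2 : -2 < z := by by_contra hc; push Not at hc; nlinarith
  interval_cases z <;> omega

lemma sum_cos (hd : Even d) {k : ℤ} (h1 : |k| < d + 3) :
    ∑ i, cos (k * ang d i) = if k = 0 then ((d + 3 : ℕ) : ℝ) else 0 := by
  split_ifs with h0
  · simp [h0]
  · have := sum_D (fun i => sin (k * ang d i))
    simp only [D_sin, ← Finset.mul_sum] at this
    have h2 := sin_stp_ne hd h0 h1
    simpa [h2] using this

lemma sum_sin (hd : Even d) {k : ℤ} (h1 : |k| < d + 3) : ∑ i, sin (k * ang d i) = 0 := by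
  by_cases h0 : k = 0
  · simp [h0]
  · have := sum_D (fun i => cos (k * ang d i))
    simp only [D_cos, ← Finset.mul_sum] at this
    have h2 := sin_stp_ne hd h0 h1
    simpa [h2] using this

/- The frequency of the `j`-th trigonometric function. -/
def fq (j : ℕ) : ℤ := ((j / 2 + 1 : ℕ) : ℤ)

noncomputable def ph (d : ℕ) (j : ℕ) (i : Fin (d + 3)) : ℝ :=
  if Even j then cos (fq j * ang d i) else sin (fq j * ang d i)

lemma sum_ph (hd : Even d) {j : ℕ} (hj : j < d + 2) : ∑ i, ph d j i = 0 := by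
  have h1 : |fq j| < d + 3 := by unfold fq; rw [abs_lt]; constructor <;> omega
  have h0 : fq j ≠ 0 := by unfold fq; omega
  unfold ph
  split_ifs
  · rw [sum_cos hd h1, if_neg h0]
  · exact sum_sin hd h1

lemma ph_orth (hd : Even d) {j l : ℕ} (hj : j < d + 2) (hl : l < d + 2) :
    ∑ i, ph d j i * ph d l i = if j = l then ((d + 3 : ℕ) : ℝ) / 2 else 0 := by
  obtain ⟨m, hm⟩ := hd
  have hd : Even d := ⟨m, hm⟩
  have h1 : |fq j + fq l| < d + 3 := by unfold fq; rw [abs_lt]; constructor <;> omega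
  have h2 : |fq j - fq l| < d + 3 := by unfold fq; rw [abs_lt]; constructor <;> omega
  have h0 : fq j + fq l ≠ 0 := by unfold fq; omega
  have c1 := sum_cos hd h1
  have c2 := sum_cos hd h2
  have s1 := sum_sin hd h1
  have s2 := sum_sin hd h2
  rw [if_neg h0] at c1
  push_cast at c1 c2 s1 s2
  unfold ph
  by_cases pj : Even j <;> by_cases pl : Even l <;> simp only [pj, pl, if_true, if_false]
  · have : ∀ i, cos (fq j * ang d i) * cos (fq l * ang d i) =
        (cos ((fq j - fq l) * ang d i) + cos ((fq j + fq l) * ang d i)) / 2 := fun i => by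
      rw [sub_mul, add_mul, cos_add, cos_sub]; ring
    simp only [this, ← Finset.sum_div, Finset.sum_add_distrib, c1, c2]
    have : fq j - fq l = 0 ↔ j = l := by
      rw [Nat.even_iff] at pj pl; unfold fq; omega
    simp only [this]
    split_ifs <;> simp
  · have : ∀ i, cos (fq j * ang d i) * sin (fq l * ang d i) =
        (sin ((fq j + fq l) * ang d i) - sin ((fq j - fq l) * ang d i)) / 2 := fun i => by
      rw [sub_mul, add_mul, sin_add, sin_sub]; ring
    simp only [this, ← Finset.sum_div, Finset.sum_sub_distrib, s1, s2]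
    rw [if_neg (fun h : j = l => pl (h ▸ pj))]; simp
  · have : ∀ i, sin (fq j * ang d i) * cos (fq l * ang d i) =
        (sin ((fq j + fq l) * ang d i) + sin ((fq j - fq l) * ang d i)) / 2 := fun i => by
      rw [sub_mul, add_mul, sin_add, sin_sub]; ring
    simp only [this, ← Finset.sum_div, Finset.sum_add_distrib, s1, s2]
    rw [if_neg (fun h : j = l => pj (h ▸ pl))]; simp
  · have : ∀ i, sin (fq j * ang d i) * sin (fq l * ang d i) =
        (cos ((fq j - fq l) * ang d i) - cos ((fq j + fq l) * ang d i)) / 2 := fun i => by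
      rw [sub_mul, add_mul, cos_add, cos_sub]; ring
    simp only [this, ← Finset.sum_div, Finset.sum_sub_distrib, c1, c2]
    have : fq j - fq l = 0 ↔ j = l := by
      rw [Nat.not_even_iff] at pj pl; unfold fq; omega
    simp only [this]
    split_ifs <;> simp

lemma recon (hd : Even d) (v : Fin (d + 3) → ℝ) (i : Fin (d + 3)) :
    v i = 2 / ((d + 3 : ℕ) : ℝ) * ∑ j : Fin (d + 2), (∑ k, ph d j k * v k) * ph d j i +
      (∑ k, v k) / ((d + 3 : ℕ) : ℝ) := by
  have hn := npos d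
  let G : Matrix (Fin (d + 2) ⊕ Unit) (Fin (d + 3)) ℝ :=
    fromRows (Matrix.of fun j i => ph d j i) (Matrix.of fun _ _ => 1)
  let H : Matrix (Fin (d + 3)) (Fin (d + 2) ⊕ Unit) ℝ :=
    fromCols (Matrix.of fun i j => 2 / ((d + 3 : ℕ) : ℝ) * ph d j i)
      (Matrix.of fun _ _ => 1 / ((d + 3 : ℕ) : ℝ))
  have h1 : G * H = 1 := by
    ext (j | j) (l | l)
    · simp only [G, H, Matrix.mul_apply, fromRows_apply_inl, fromCols_apply_inl, of_apply]
      have : ∀ i, ph d j i * (2 / ((d + 3 : ℕ) : ℝ) * ph d l i) =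
          2 / ((d + 3 : ℕ) : ℝ) * (ph d j i * ph d l i) := fun i => by ring
      simp only [this, ← Finset.mul_sum, ph_orth hd j.2 l.2, one_apply, Sum.inl.injEq, Fin.ext_iff]
      split_ifs
      · field_simp
      · simp
    · simp only [G, H, Matrix.mul_apply, fromRows_apply_inl, fromCols_apply_inr, of_apply,
        ← Finset.sum_mul, sum_ph hd j.2]
      simp
    · simp only [G, H, Matrix.mul_apply, fromRows_apply_inr, fromCols_apply_inl, of_apply,
        one_mul, ← Finset.mul_sum, sum_ph hd l.2]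
      simp
    · simp only [G, H, Matrix.mul_apply, fromRows_apply_inr, fromCols_apply_inr, of_apply]
      simp
      field_simp
  have h2 : H * G = 1 := (mul_eq_one_comm_of_card_eq _ _ _ (by simp)).mp h1
  have h3 : v i = (H *ᵥ (G *ᵥ v)) i := by rw [mulVec_mulVec, h2, one_mulVec]
  rw [h3]
  simp only [G, H, mulVec, dotProduct, Fintype.sum_sum_type, fromRows_apply_inl,
    fromRows_apply_inr, fromCols_apply_inl, fromCols_apply_inr, of_apply, Finset.mul_sum]
  congr 1
  · apply Finset.sum_congr rfl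
    intro j _
    rw [← Finset.mul_sum]
    ring
  · simp [← Finset.mul_sum, div_eq_inv_mul]

lemma parseval (hd : Even d) (u v : Fin (d + 3) → ℝ) :
    ∑ i, u i * v i = 2 / ((d + 3 : ℕ) : ℝ) *
      ∑ j : Fin (d + 2), (∑ k, ph d j k * u k) * (∑ k, ph d j k * v k) +
      (∑ k, u k) * (∑ k, v k) / ((d + 3 : ℕ) : ℝ) := by
  have : ∀ i, u i * v i = 2 / ((d + 3 : ℕ) : ℝ) *
      ∑ j : Fin (d + 2), (∑ k, ph d j k * v k) * (ph d j i * u i) +
      u i * ((∑ k, v k) / ((d + 3 : ℕ) : ℝ)) := by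
    intro i
    conv_lhs => rw [recon hd v i]
    rw [mul_add, mul_left_comm, Finset.mul_sum]
    congr 2
    apply Finset.sum_congr rfl
    intro j _; ring
  simp only [this, Finset.sum_add_distrib, ← Finset.mul_sum, ← Finset.sum_mul]
  rw [Finset.sum_comm]
  simp only [← Finset.mul_sum]
  congr 1
  · congr 1
    apply Finset.sum_congr rfl
    intro j _; ring
  · ring

lemma DD_ph (j : ℕ) (i : Fin (d + 3)) :
    Dop (Dop (ph d j)) i = -(4 * sin (fq j * stp d) ^ 2) * ph d j i := by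
  by_cases pj : Even j
  · have e : ph d j = fun i => cos (fq j * ang d i) := by ext i; simp [ph, pj]
    have e2 : Dop (ph d j) = fun i => -2 * sin (fq j * stp d) * sin (fq j * ang d i) := by
      ext i; rw [e, D_cos]
    have := D_sin (fq j) i
    rw [e2, e]
    unfold Dop at this ⊢
    linear_combination (-2 * sin (fq j * stp d)) * this
  · have e : ph d j = fun i => sin (fq j * ang d i) := by ext i; simp [ph, pj]
    have e2 : Dop (ph d j) = fun i => 2 * sin (fq j * stp d) * cos (fq j * ang d i) := by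
      ext i; rw [e, D_sin]
    have := D_cos (fq j) i
    rw [e2, e]
    unfold Dop at this ⊢
    linear_combination (2 * sin (fq j * stp d)) * this

noncomputable def s0 (d : ℕ) : ℝ := sin (π / ((d + 3 : ℕ) : ℝ))

lemma s0_pos : 0 < s0 d := by
  have hn := npos d
  apply sin_pos_of_pos_of_lt_pi (div_pos pi_pos hn)
  rw [div_lt_iff₀ hn]
  have : (1 : ℝ) < ((d + 3 : ℕ) : ℝ) := by exact_mod_cast (by omega : 1 < d + 3)
  nlinarith [pi_pos]

lemma s0_lt (hd : Even d) {j : ℕ} (hj : j < d) : s0 d < sin (fq j * stp d) := by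
  have hn := npos d
  obtain ⟨m, hm⟩ := hd
  have k1 : (1 : ℝ) ≤ fq j := by exact_mod_cast (by unfold fq; omega : (1 : ℤ) ≤ fq j)
  have k2 : (2 : ℝ) * fq j + 3 ≤ ((d + 3 : ℕ) : ℝ) := by
    exact_mod_cast (by unfold fq; omega : (2 : ℤ) * fq j + 3 ≤ ((d + 3 : ℕ) : ℤ))
  set a := π / ((d + 3 : ℕ) : ℝ) with ha
  have a0 : 0 < a := div_pos pi_pos hn
  have a1 : π = ((d + 3 : ℕ) : ℝ) * a := by rw [ha]; field_simp
  have e : fq j * stp d = 2 * fq j * a := by unfold stp; rw [ha]; ring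
  have b1 : a < 2 * fq j * a := by nlinarith
  have b2 : 2 * fq j * a < π - a := by rw [a1]; nlinarith
  rw [e]
  change sin a < _
  rcases le_total (2 * fq j * a) (π / 2) with h | h
  · exact sin_lt_sin_of_lt_of_le_pi_div_two (by linarith [pi_pos]) h b1
  · rw [← sin_pi_sub (2 * fq j * a)]
    exact sin_lt_sin_of_lt_of_le_pi_div_two (by linarith [pi_pos]) (by linarith) (by linarith)

lemma s0_eq (hd : Even d) {j : ℕ} (h1 : d ≤ j) (h2 : j < d + 2) : sin (fq j * stp d) = s0 d := by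
  have hn := npos d
  obtain ⟨m, hm⟩ := hd
  have k2 : (2 : ℝ) * fq j + 1 = ((d + 3 : ℕ) : ℝ) := by
    exact_mod_cast (by unfold fq; omega : (2 : ℤ) * fq j + 1 = ((d + 3 : ℕ) : ℤ))
  unfold s0 stp
  rw [← sin_pi_sub]
  congr 1
  field_simp
  linarith

/- Discrete Wirtinger inequality with the case of equality. -/
lemma wirt (hd : Even d) {u : Fin (d + 3) → ℝ} (hu : ∑ i, u i = 0) :
    4 * s0 d ^ 2 * ∑ i, u i ^ 2 ≤ ∑ i, Dop u i ^ 2 ∧
      (∑ i, Dop u i ^ 2 ≤ 4 * s0 d ^ 2 * ∑ i, u i ^ 2 →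
        ∀ j : Fin d, ∑ k, ph d j k * u k = 0) := by
  have hn := npos d
  have e1 : ∑ i, u i ^ 2 = 2 / ((d + 3 : ℕ) : ℝ) * ∑ j : Fin (d + 2), (∑ k, ph d j k * u k) ^ 2 := by
    simpa [sq, hu] using parseval hd u u
  have e2 : ∑ i, Dop u i ^ 2 = 2 / ((d + 3 : ℕ) : ℝ) *
      ∑ j : Fin (d + 2), 4 * sin (fq j * stp d) ^ 2 * (∑ k, ph d j k * u k) ^ 2 := by
    have a1 : ∑ i, Dop u i ^ 2 = - ∑ i, u i * Dop (Dop u) i := by
      rw [D_adj u (Dop u)]; simp [sq]
    have a2 : ∀ j : Fin (d + 2), ∑ k, ph d j k * Dop (Dop u) k =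
        -(4 * sin (fq j * stp d) ^ 2) * ∑ k, ph d j k * u k := by
      intro j
      rw [D_adj, D_adj, neg_neg, Finset.mul_sum]
      apply Finset.sum_congr rfl
      intro k _
      rw [DD_ph]; ring
    rw [a1, parseval hd u, hu]
    simp only [a2, zero_mul, zero_div, add_zero]
    rw [← mul_neg, ← Finset.sum_neg_distrib]
    congr 1
    apply Finset.sum_congr rfl
    intro j _; ring
  have s00 := s0_pos (d := d)
  have le : ∀ j : Fin (d + 2), s0 d ≤ sin (fq j * stp d) := by
    intro j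
    rcases lt_or_ge (j : ℕ) d with h | h
    · exact (s0_lt hd h).le
    · exact (s0_eq hd h j.2).ge
  have e3 : ∑ i, Dop u i ^ 2 - 4 * s0 d ^ 2 * ∑ i, u i ^ 2 = 2 / ((d + 3 : ℕ) : ℝ) *
      ∑ j : Fin (d + 2), 4 * (sin (fq j * stp d) ^ 2 - s0 d ^ 2) * (∑ k, ph d j k * u k) ^ 2 := by
    rw [e1, e2, mul_left_comm, ← mul_sub, Finset.mul_sum, ← Finset.sum_sub_distrib]
    congr 1
    apply Finset.sum_congr rfl
    intro j _; ring
  have nn : ∀ j : Fin (d + 2),
      0 ≤ 4 * (sin (fq j * stp d) ^ 2 - s0 d ^ 2) * (∑ k, ph d j k * u k) ^ 2 := by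
    intro j
    have := le j
    have : 0 ≤ sin (fq j * stp d) ^ 2 - s0 d ^ 2 := by nlinarith
    positivity
  have c0 : 0 < 2 / ((d + 3 : ℕ) : ℝ) := by positivity
  constructor
  · have := mul_nonneg c0.le (Finset.sum_nonneg (s := Finset.univ) fun j _ => nn j)
    linarith
  · intro h j
    have h4 : ∑ j : Fin (d + 2),
        4 * (sin (fq j * stp d) ^ 2 - s0 d ^ 2) * (∑ k, ph d j k * u k) ^ 2 = 0 := by
      apply le_antisymm _ (Finset.sum_nonneg fun j _ => nn j)
      by_contra hc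
      push Not at hc
      nlinarith [mul_pos c0 hc]
    have h5 := (Finset.sum_eq_zero_iff_of_nonneg fun j _ => nn j).mp h4 ⟨j, by omega⟩
      (Finset.mem_univ _)
    have h6 := s0_lt hd j.2
    have h7 : 0 < sin (fq j * stp d) ^ 2 - s0 d ^ 2 := by nlinarith
    simp only at h5
    rcases mul_eq_zero.mp h5 with h8 | h8
    · linarith
    · exact pow_eq_zero_iff (two_ne_zero) |>.mp h8

end Pool.Agent.P.MP_7322d1_co
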