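import Mathlib
import Pool.Agent.P.MP_7322d1_co.Fourier

set_option autoImplicit false

namespace Pool.Agent.P.MP_7322d1_co

open Matrix Real

variable {d : ℕ}

lemma V_le0 (hd : Even d) {x y : Fin (d + 3) → ℝ} (sx : ∑ i, x i = 0) (sy : ∑ i, y i = 0) :
    4 * s0 d ^ 2 * Vf x y ^ 2 ≤ (∑ i, x i ^ 2) * ∑ i, y i ^ 2 ∧
      (0 < (∑ i, x i ^ 2) * ∑ i, y i ^ 2 →
        (∑ i, x i ^ 2) * ∑ i, y i ^ 2 ≤ 4 * s0 d ^ 2 * Vf x y ^ 2 →
        ∀ j : Fin d, ∑ k, ph d j k * y k = 0) := by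
  have hn := npos d
  set u : Fin (d + 3) → ℝ := fun i => prim x i - (∑ k, prim x k) / ((d + 3 : ℕ) : ℝ) with hu
  have u0 : ∑ i, u i = 0 := by
    simp only [hu, Finset.sum_sub_distrib, Finset.sum_const, Finset.card_univ, Fintype.card_fin,
      nsmul_eq_mul]
    field_simp
    ring
  have uD : ∀ i, Dop u i = x i := fun i => by
    rw [← D_prim hd sx i]; simp [Dop, hu]
  have uV : Vf x y = ∑ i, u i * y i := by
    rw [Vf_eq]
    simp only [hu, sub_mul, Finset.sum_sub_distrib, ← Finset.mul_sum, sy]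
    simp
  obtain ⟨w1, w2⟩ := wirt hd u0
  simp only [uD] at w1 w2
  have cs := Finset.sum_mul_sq_le_sq_mul_sq Finset.univ u y
  rw [← uV] at cs
  have s00 := s0_pos (d := d)
  have yn : 0 ≤ ∑ i, y i ^ 2 := Finset.sum_nonneg fun _ _ => sq_nonneg _
  have un : 0 ≤ ∑ i, u i ^ 2 := Finset.sum_nonneg fun _ _ => sq_nonneg _
  have s2 : 0 < 4 * s0 d ^ 2 := by positivity
  have a1 := mul_le_mul_of_nonneg_left cs s2.le
  have a2 := mul_le_mul_of_nonneg_right w1 yn
  refine ⟨by nlinarith, fun hp hge j => ?_⟩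
  have yp : 0 < ∑ i, y i ^ 2 := by
    rcases yn.lt_or_eq with h | h
    · exact h
    · rw [← h] at hp; simp at hp
  have b1 : ∑ i, x i ^ 2 ≤ 4 * s0 d ^ 2 * ∑ i, u i ^ 2 := by
    by_contra hc
    push Not at hc
    nlinarith [mul_lt_mul_of_pos_right hc yp]
  have up : 0 < ∑ i, u i ^ 2 := by
    rcases un.lt_or_eq with h | h
    · exact h
    · rw [← h] at b1
      nlinarith
  have b2 : (∑ i, u i ^ 2) * ∑ i, y i ^ 2 ≤ Vf x y ^ 2 := by
    by_contra hc
    push Not at hc
    nlinarith [mul_lt_mul_of_pos_left hc s2]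
  set A := ∑ i, u i ^ 2 with hA
  have b3 : ∑ i, (A * y i - Vf x y * u i) ^ 2 = A * (A * ∑ i, y i ^ 2 - Vf x y ^ 2) := by
    have : ∀ i, (A * y i - Vf x y * u i) ^ 2 =
        A ^ 2 * y i ^ 2 - 2 * A * Vf x y * (u i * y i) + Vf x y ^ 2 * u i ^ 2 := fun i => by ring
    simp only [this, Finset.sum_add_distrib, Finset.sum_sub_distrib, ← Finset.mul_sum, ← uV, ← hA]
    ring
  have b4 : ∑ i, (A * y i - Vf x y * u i) ^ 2 = 0 := by
    apply le_antisymm _ (Finset.sum_nonneg fun _ _ => sq_nonneg _)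
    rw [b3]
    exact mul_nonpos_of_nonneg_of_nonpos un (by linarith)
  have b5 : ∀ i, y i = Vf x y / A * u i := by
    intro i
    have := (Finset.sum_eq_zero_iff_of_nonneg fun _ _ => sq_nonneg _).mp b4 i (Finset.mem_univ _)
    have := pow_eq_zero_iff (two_ne_zero) |>.mp this
    field_simp
    linarith
  have b6 := w2 b1 j
  have : ∀ k, ph d j k * y k = Vf x y / A * (ph d j k * u k) := fun k => by
    rw [b5 k]; ring_nf
  simp only [this, ← Finset.mul_sum, b6, mul_zero]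

lemma Vf_sub (x y : Fin (d + 3) → ℝ) (t : ℝ) : Vf x (fun i => y i - t * x i) = Vf x y := by
  have h := Vf_self x
  rw [Vf_eq] at h
  rw [Vf_eq, Vf_eq]
  have : ∀ i, prim x i * (y i - t * x i) = prim x i * y i - t * (prim x i * x i) := fun i => by ring
  simp only [this, Finset.sum_sub_distrib, ← Finset.mul_sum, h]
  simp

lemma V_le1 (hd : Even d) {x y : Fin (d + 3) → ℝ} (sx : ∑ i, x i = 0) (sy : ∑ i, y i = 0)
    (hg : 0 < gram (fun _ => 1) x y) :
    4 * s0 d ^ 2 * Vf x y ^ 2 ≤ gram (fun _ => 1) x y ∧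
      (gram (fun _ => 1) x y ≤ 4 * s0 d ^ 2 * Vf x y ^ 2 → ∀ j : Fin d,
        (∑ i, x i ^ 2) * ∑ k, ph d j k * y k = (∑ i, x i * y i) * ∑ k, ph d j k * x k) := by
  have xn : 0 ≤ ∑ i, x i ^ 2 := Finset.sum_nonneg fun _ _ => sq_nonneg _
  simp only [gram, div_one] at hg ⊢
  have xp : 0 < ∑ i, x i ^ 2 := by
    rcases xn.lt_or_eq with h | h
    · exact h
    · rw [← h] at hg
      nlinarith [sq_nonneg (∑ i, x i * y i)]
  set A := ∑ i, x i ^ 2 with hA
  set C := ∑ i, x i * y i with hC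
  have s1 : ∑ i, (y i - C / A * x i) = 0 := by
    simp [Finset.sum_sub_distrib, ← Finset.mul_sum, sx, sy]
  obtain ⟨h1, h2⟩ := V_le0 hd sx s1
  have e : A * ∑ i, (y i - C / A * x i) ^ 2 = A * ∑ i, y i ^ 2 - C ^ 2 := by
    have : ∀ i, (y i - C / A * x i) ^ 2 =
        y i ^ 2 - 2 * (C / A) * (x i * y i) + (C / A) ^ 2 * x i ^ 2 := fun i => by ring
    simp only [this, Finset.sum_add_distrib, Finset.sum_sub_distrib, ← Finset.mul_sum, ← hA, ← hC]
    field_simp
    ring
  rw [Vf_sub, ← hA, e] at h1 h2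
  refine ⟨h1, fun h j => ?_⟩
  have h3 := h2 hg h j
  have : ∀ k, ph d j k * (y k - C / A * x k) = ph d j k * y k - C / A * (ph d j k * x k) :=
    fun k => by ring
  simp only [this, Finset.sum_sub_distrib, ← Finset.mul_sum] at h3
  field_simp at h3
  linarith

lemma gram_swap (l x y : Fin (d + 3) → ℝ) : gram l y x = gram l x y := by
  unfold gram
  simp only [mul_comm (y _) (x _)]
  ring

lemma V_le (hd : Even d) {x y : Fin (d + 3) → ℝ} (sx : ∑ i, x i = 0) (sy : ∑ i, y i = 0)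
    (hg : 0 < gram (fun _ => 1) x y) :
    4 * s0 d ^ 2 * Vf x y ^ 2 ≤ gram (fun _ => 1) x y ∧
      (gram (fun _ => 1) x y ≤ 4 * s0 d ^ 2 * Vf x y ^ 2 → ∀ j : Fin d,
        ∑ k, ph d j k * x k = 0 ∧ ∑ k, ph d j k * y k = 0) := by
  obtain ⟨h1, h2⟩ := V_le1 hd sx sy hg
  obtain ⟨-, h3⟩ := V_le1 hd sy sx (by rwa [gram_swap])
  refine ⟨h1, fun h j => ?_⟩
  have a1 := h2 h j
  have a2 := h3 (by rw [gram_swap, Vf_swap, neg_sq]; exact h) j
  simp only [gram, div_one] at hg
  simp only [mul_comm (y _) (x _)] at a2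
  set A := ∑ i, x i ^ 2
  set B := ∑ i, y i ^ 2
  set C := ∑ i, x i * y i
  constructor
  · apply mul_left_cancel₀ hg.ne'
    linear_combination A * a2 + C * a1
  · apply mul_left_cancel₀ hg.ne'
    linear_combination B * a1 + C * a2

/- The vertex matrix of the trigonometric cyclic polytope. -/
noncomputable def Cm (d : ℕ) : Matrix (Fin d) (Fin (d + 3)) ℝ :=
  Matrix.of fun j i => √(2 / (d : ℝ)) * ph d j i

lemma Cm_mulVec (v : Fin (d + 3) → ℝ) (j : Fin d) :
    (Cm d *ᵥ v) j = √(2 / (d : ℝ)) * ∑ k, ph d j k * v k := by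
  simp [Cm, mulVec, dotProduct, Finset.mul_sum, mul_assoc]

lemma Cm_one (hd : Even d) : Cm d *ᵥ (fun _ => 1) = 0 := by
  ext j
  rw [Cm_mulVec]
  simp [sum_ph hd (show (j : ℕ) < d + 2 by omega)]

lemma Cm_CmT (hd : Even d) (hd0 : 0 < d) :
    Cm d * (Cm d)ᵀ = (((d + 3 : ℕ) : ℝ) / d) • (1 : Matrix (Fin d) (Fin d) ℝ) := by
  have hd' : (0 : ℝ) < d := by exact_mod_cast hd0
  ext j l
  simp only [Cm, Matrix.mul_apply, transpose_apply, of_apply]
  have : ∀ i, √(2 / (d : ℝ)) * ph d j i * (√(2 / (d : ℝ)) * ph d l i) =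
      2 / (d : ℝ) * (ph d j i * ph d l i) := fun i => by
    have := Real.mul_self_sqrt (show (0 : ℝ) ≤ 2 / d by positivity)
    linear_combination (ph d j i * ph d l i) * this
  simp only [this, ← Finset.mul_sum,
    ph_orth hd (show (j : ℕ) < d + 2 by omega) (show (l : ℕ) < d + 2 by omega), Matrix.smul_apply,
    one_apply, Fin.ext_iff, smul_eq_mul]
  split_ifs
  · field_simp
  · simp

lemma Cm_unit (hd : Even d) (hd0 : 0 < d) (i : Fin (d + 3)) : ∑ r, Cm d r i ^ 2 = 1 := by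
  have hd' : (0 : ℝ) < d := by exact_mod_cast hd0
  have key : ∀ m : ℕ, ∑ j ∈ Finset.range (m + m), ph d j i ^ 2 = m := by
    intro m
    induction m with
    | zero => simp
    | succ m ih =>
      rw [show m + 1 + (m + 1) = m + m + 1 + 1 by ring, Finset.sum_range_succ,
        Finset.sum_range_succ, ih]
      have e1 : Even (m + m) := ⟨m, rfl⟩
      have e2 : ¬ Even (m + m + 1) := by rw [Nat.not_even_iff]; omega
      have e3 : fq (m + m + 1) = fq (m + m) := by unfold fq; omega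
      simp only [ph, e1, e2, e3, if_true, if_false]
      push_cast
      linarith [cos_sq_add_sin_sq (fq (m + m) * ang d i)]
  obtain ⟨m, hm⟩ := hd
  have h2 : ∑ r : Fin d, ph d r i ^ 2 = m := by
    rw [Fin.sum_univ_eq_sum_range (fun j => ph d j i ^ 2) d]
    have := key m
    rwa [← hm] at this
  simp only [Cm, of_apply, mul_pow, ← Finset.mul_sum, h2,
    Real.sq_sqrt (show (0 : ℝ) ≤ 2 / d by positivity)]
  have : (d : ℝ) = m + m := by exact_mod_cast hm
  field_simp
  linarith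

lemma Cm_spanning (hd : Even d) (hd0 : 0 < d) : Spanning (Cm d) := by
  intro v c hv
  have hd' : (0 : ℝ) < d := by exact_mod_cast hd0
  have h1 : v ᵥ* Cm d = c • (fun _ => 1) := by
    ext i; simpa [vecMul, dotProduct] using hv i
  have h2 : v ᵥ* (Cm d * (Cm d)ᵀ) = 0 := by
    rw [← vecMul_vecMul, h1, vecMul_transpose, mulVec_smul, Cm_one hd, smul_zero]
  rw [Cm_CmT hd hd0, vecMul_smul, vecMul_one] at h2
  exact (smul_eq_zero.mp h2).resolve_left (div_pos (npos d) hd').ne'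

lemma Cm_gale (hd : Even d) (hd0 : 0 < d) : Gale (Cm d) (ph d d) (ph d (d + 1)) := by
  have hd' : (0 : ℝ) < d := by exact_mod_cast hd0
  have hn := npos d
  refine ⟨⟨?_, ?_, sum_ph hd (by omega), sum_ph hd (by omega), ?_, ?_⟩, ?_⟩
  · ext j
    rw [Cm_mulVec, ph_orth hd (by omega) (by omega), if_neg (by omega)]; simp
  · ext j
    rw [Cm_mulVec, ph_orth hd (by omega) (by omega), if_neg (by omega)]; simp
  · intro v h1 h2
    have h3 : ∀ j : Fin d, ∑ k, ph d j k * v k = 0 := by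
      intro j
      have := congrFun h2 j
      rw [Cm_mulVec] at this
      exact (mul_eq_zero.mp this).resolve_left (Real.sqrt_pos.mpr (by positivity)).ne'
    refine ⟨2 / ((d + 3 : ℕ) : ℝ) * ∑ k, ph d d k * v k,
      2 / ((d + 3 : ℕ) : ℝ) * ∑ k, ph d (d + 1) k * v k, fun i => ?_⟩
    rw [recon hd v i, Fin.sum_univ_castSucc, Fin.sum_univ_castSucc, h1]
    simp [h3]
    ring
  · intro α β e
    have a1 : ∑ i, ph d d i * (α * ph d d i + β * ph d (d + 1) i) = 0 := by simp [e]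
    have a2 : ∑ i, ph d (d + 1) i * (α * ph d d i + β * ph d (d + 1) i) = 0 := by simp [e]
    have : ∀ j i, ph d j i * (α * ph d d i + β * ph d (d + 1) i) =
        α * (ph d j i * ph d d i) + β * (ph d j i * ph d (d + 1) i) := fun j i => by ring
    simp only [this, Finset.sum_add_distrib, ← Finset.mul_sum] at a1 a2
    rw [ph_orth hd (by omega) (by omega), ph_orth hd (by omega) (by omega)] at a1 a2
    simp at a1 a2
    constructor
    · rcases a1 with h | h
      · exact h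
      · exfalso; linarith
    · rcases a2 with h | h
      · exact h
      · exfalso; linarith
  · intro a b hab
    have e2 : ¬ Even (d + 1) := by rw [Nat.not_even_iff]; rw [Nat.even_iff] at hd; omega
    have e3 : fq (d + 1) = fq d := by unfold fq; rw [Nat.even_iff] at hd; omega
    have k2 : (2 : ℝ) * fq d + 1 = ((d + 3 : ℕ) : ℝ) := by
      rw [Nat.even_iff] at hd
      exact_mod_cast (by unfold fq; omega : (2 : ℤ) * fq d + 1 = ((d + 3 : ℕ) : ℤ))
    obtain ⟨k, hk⟩ := Nat.exists_eq_add_of_lt (show (a : ℕ) < b from hab)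
    have e4 : ph d d a * ph d (d + 1) b - ph d d b * ph d (d + 1) a =
        sin (((k + 1 : ℕ) : ℝ) * π - ((k + 1 : ℕ) : ℝ) * π / ((d + 3 : ℕ) : ℝ)) := by
      simp only [ph, hd, e2, e3, if_true, if_false]
      have : ((k + 1 : ℕ) : ℝ) * π - ((k + 1 : ℕ) : ℝ) * π / ((d + 3 : ℕ) : ℝ) =
          fq d * ang d b - fq d * ang d a := by
        unfold ang
        rw [hk, ← k2]
        rw [← k2] at hn
        push_cast
        field_simp
        ring
      rw [this, sin_sub]; ring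
    rw [e4, sin_nat_mul_pi_sub]
    have e5 : sg a b = - (-1) ^ (k + 1) := by
      unfold sg
      rw [hk, show (a : ℕ) + (a + k + 1) + 1 = 2 * a + (k + 1) + 1 by ring, pow_succ, pow_add,
        pow_mul]
      simp
    have e6 : 0 < sin (((k + 1 : ℕ) : ℝ) * π / ((d + 3 : ℕ) : ℝ)) := by
      apply sin_pos_of_pos_of_lt_pi (by positivity)
      rw [div_lt_iff₀ hn]
      have : ((k + 1 : ℕ) : ℝ) < ((d + 3 : ℕ) : ℝ) := by
        exact_mod_cast (by have := b.2; omega : k + 1 < d + 3)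
      nlinarith [pi_pos]
    rw [e5]
    have e7 : ((-1 : ℝ) ^ (k + 1)) * (-1) ^ (k + 1) = 1 := by
      rw [← mul_pow]; simp
    nlinarith

lemma covB_one {P : Matrix (Fin d) (Fin (d + 3)) ℝ} {l : Fin (d + 3) → ℝ} (h : P *ᵥ l = 0) :
    covB P l = P * (P * diagonal l)ᵀ := by
  have : transl P 0 = P := by ext r i; simp [transl]
  rw [covB, h, smul_zero, this]

lemma Cm_fv (hd : Even d) (hd0 : 0 < d) :
    4 * s0 d ^ 2 * fv (Cm d) ^ 2 = (((d + 3 : ℕ) : ℝ) / d) ^ d * ((d + 3 : ℕ) : ℝ) := by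
  have hn := npos d
  have G := Cm_gale hd hd0
  have h1 := G.fv_sq (Cm_spanning hd hd0) (l := fun _ => 1) (fun _ => one_pos)
  have s00 := s0_pos (d := d)
  have e1 : (covB (Cm d) fun _ => 1).det = (((d + 3 : ℕ) : ℝ) / d) ^ d := by
    rw [covB_one (Cm_one hd), diagonal_one, Matrix.mul_one, Cm_CmT hd hd0]
    simp
  have e2 : gram (fun _ => 1) (ph d d) (ph d (d + 1)) = (((d + 3 : ℕ) : ℝ) / 2) ^ 2 := by
    simp only [gram, div_one, sq]
    rw [ph_orth hd (by omega) (by omega), ph_orth hd (by omega) (by omega),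
      ph_orth hd (by omega) (by omega)]
    simp
  have e3 : 2 * s0 d * Vf (ph d d) (ph d (d + 1)) = ((d + 3 : ℕ) : ℝ) / 2 := by
    have p2 : ¬ Even (d + 1) := by rw [Nat.not_even_iff]; rw [Nat.even_iff] at hd; omega
    have p3 : fq (d + 1) = fq d := by unfold fq; rw [Nat.even_iff] at hd; omega
    have a1 : ∀ i, Dop (ph d d) i = -2 * s0 d * ph d (d + 1) i := by
      intro i
      have : ph d d = fun i => cos (fq d * ang d i) := by ext i; simp [ph, hd]
      rw [this, D_cos, s0_eq hd le_rfl (by omega)]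
      simp [ph, p2, p3]
    have a2 := D_adj (prim (ph d d)) (ph d d)
    simp only [D_prim hd G.sx, a1] at a2
    rw [ph_orth hd (by omega) (by omega), if_pos rfl] at a2
    rw [Vf_eq, Finset.mul_sum, ← neg_neg (((d + 3 : ℕ) : ℝ) / 2), ← a2, ← Finset.sum_neg_distrib]
    apply Finset.sum_congr rfl
    intro i _; ring
  rw [e1, e2, ← e3] at h1
  simp only [Finset.prod_const_one, one_mul, Finset.sum_const, Finset.card_univ, Fintype.card_fin,
    nsmul_eq_mul, mul_one] at h1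
  apply mul_right_cancel₀ (pow_ne_zero 2 G.Vf_pos.ne')
  linear_combination h1

theorem main_matrix (hd : Even d) (hd0 : 0 < d) {P : Matrix (Fin d) (Fin (d + 3)) ℝ}
    {x y : Fin (d + 3) → ℝ} (hS : Spanning P) (G : Gale P x y) (hP : ∀ i, ∑ r, P r i ^ 2 = 1) :
    fv P ≤ fv (Cm d) ∧
      (fv (Cm d) ≤ fv P → ∃ U : Matrix (Fin d) (Fin d) ℝ, U * Uᵀ = 1 ∧ U * P = Cm d) := by
  have hn := npos d
  have hd' : (0 : ℝ) < d := by exact_mod_cast hd0
  have s00 := s0_pos (d := d)
  have h1 := G.fv_sq hS (l := fun _ => 1) (fun _ => one_pos)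
  have hg := G.toKer.gram_pos (l := fun _ => 1) (fun _ => one_pos)
  obtain ⟨v1, v2⟩ := V_le hd G.sx G.sy hg
  have htr := covB_trace P (l := fun _ => 1) (fun _ => one_pos) hP
  simp only [Finset.prod_const_one, one_mul, Finset.sum_const, Finset.card_univ, Fintype.card_fin,
    nsmul_eq_mul, mul_one] at h1 htr
  set n : ℝ := ((d + 3 : ℕ) : ℝ) with hnd
  set c := n⁻¹ • P *ᵥ fun _ => 1 with hc
  have cn : 0 ≤ ∑ r, c r ^ 2 := Finset.sum_nonneg fun _ _ => sq_nonneg _
  have hB := covB_posDef hS (l := fun _ => 1) (fun _ => one_pos)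
  obtain ⟨d1, d2⟩ := det_amgm hB (div_pos hn hd') (by
    rw [htr, mul_div_cancel₀ _ hd'.ne']; nlinarith [mul_nonneg hn.le cn])
  have dpos := hB.det_pos
  have hC := Cm_fv hd hd0
  rw [← hnd] at hC
  set B := covB P fun _ => 1 with hBd
  set g := gram (fun _ => 1) x y
  set M := (n / d) ^ d
  have s2 : 0 < 4 * s0 d ^ 2 := by positivity
  have k1 : 4 * s0 d ^ 2 * fv P ^ 2 * g = B.det * n * (4 * s0 d ^ 2 * Vf x y ^ 2) := by
    linear_combination (4 * s0 d ^ 2) * h1
  have k2 : B.det * n * (4 * s0 d ^ 2 * Vf x y ^ 2) ≤ B.det * n * g :=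
    mul_le_mul_of_nonneg_left v1 (by positivity)
  have k3 : B.det * n * g ≤ M * n * g := by gcongr
  constructor
  · have k4 : 4 * s0 d ^ 2 * fv P ^ 2 * g ≤ 4 * s0 d ^ 2 * fv (Cm d) ^ 2 * g := by
      rw [hC]; linarith
    have k5 := le_of_mul_le_mul_left (le_of_mul_le_mul_right k4 hg) s2
    exact (pow_le_pow_iff_left₀ (fv_nonneg _) (fv_nonneg _) two_ne_zero).mp k5
  · intro hge
    have k4 : M * n * g ≤ 4 * s0 d ^ 2 * fv P ^ 2 * g := by
      rw [← hC]
      have := pow_le_pow_left₀ (fv_nonneg _) hge 2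
      gcongr
    have k5 : M ≤ B.det := by
      have : M * n * g ≤ B.det * n * g := by linarith
      exact le_of_mul_le_mul_right (le_of_mul_le_mul_right this hg) hn
    have k6 : g ≤ 4 * s0 d ^ 2 * Vf x y ^ 2 := by
      have : B.det * n * g ≤ B.det * n * (4 * s0 d ^ 2 * Vf x y ^ 2) := by linarith
      exact le_of_mul_le_mul_left this (by positivity)
    have hBe := d2 k5
    have c0 : ∑ r, c r ^ 2 = 0 := by
      rw [hBe] at htr
      simp only [trace_smul, trace_one, Fintype.card_fin, smul_eq_mul] at htr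
      rw [div_mul_cancel₀ _ hd'.ne'] at htr
      have : n * ∑ r, c r ^ 2 = 0 := by linarith
      exact (mul_eq_zero.mp this).resolve_left hn.ne'
    have c1 : c = 0 := by
      ext r
      have := (Finset.sum_eq_zero_iff_of_nonneg fun _ _ => sq_nonneg _).mp c0 r (Finset.mem_univ _)
      exact pow_eq_zero_iff (two_ne_zero) |>.mp this
    have P1 : P *ᵥ (fun _ => 1) = 0 :=
      (smul_eq_zero.mp c1).resolve_left (inv_pos.mpr hn).ne'
    have PP : P * Pᵀ = (n / d) • (1 : Matrix (Fin d) (Fin d) ℝ) := by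
      rw [← hBe, hBd, covB_one P1, diagonal_one, Matrix.mul_one]
    have Cx : Cm d *ᵥ x = 0 := by ext j; rw [Cm_mulVec, (v2 k6 j).1]; simp
    have Cy : Cm d *ᵥ y = 0 := by ext j; rw [Cm_mulVec, (v2 k6 j).2]; simp
    have UP : ((d / n) • (Cm d * Pᵀ)) * P = Cm d := by
      apply Matrix.ext_of_mulVec_single
      intro i
      set v : Fin (d + 3) → ℝ := Pi.single i 1 with hv
      have hs1 : ∑ k, ((Pᵀ *ᵥ (P *ᵥ v)) k) = 0 := by
        have : ∑ k, ((Pᵀ *ᵥ (P *ᵥ v)) k) = (P *ᵥ v) ⬝ᵥ (P *ᵥ fun _ => 1) := by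
          rw [dotProduct_mulVec, mulVec_transpose]; simp [dotProduct]
        rw [this, P1]; simp
      obtain ⟨α, β, e⟩ := G.span (v - (d / n) • (Pᵀ *ᵥ (P *ᵥ v)) - n⁻¹ • fun _ => 1)
        (by
          simp only [Pi.sub_apply, Pi.smul_apply, smul_eq_mul, Finset.sum_sub_distrib,
            ← Finset.mul_sum, hs1]
          simp [hv, ← hnd, inv_mul_cancel₀ hn.ne'])
        (by
          rw [mulVec_sub, mulVec_sub, mulVec_smul, mulVec_smul, P1, mulVec_mulVec, PP,
            smul_mulVec, one_mulVec, smul_smul]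
          have : d / n * (n / d) = 1 := by field_simp
          rw [this]; simp)
      have e' : v - (d / n) • (Pᵀ *ᵥ (P *ᵥ v)) - n⁻¹ • (fun _ => 1) = α • x + β • y := by
        ext k; simpa using e k
      have e2 := congrArg (fun w => Cm d *ᵥ w) e'
      simp only [mulVec_sub, mulVec_add, mulVec_smul, Cx, Cy, Cm_one hd, smul_zero, add_zero,
        sub_zero] at e2
      rw [← mulVec_mulVec, smul_mulVec, ← mulVec_mulVec]
      exact (sub_eq_zero.mp e2).symm
    refine ⟨(d / n) • (Cm d * Pᵀ), ?_, UP⟩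
    rw [transpose_smul, transpose_mul, transpose_transpose, Matrix.mul_smul, ← Matrix.mul_assoc,
      UP, Cm_CmT hd hd0, smul_smul, ← hnd]
    have : d / n * (n / d) = 1 := by field_simp
    rw [this, one_smul]

end Pool.Agent.P.MP_7322d1_co
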