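import Mathlib
import Pool.Agent.P.MP_7322d1_co.Bound

set_option autoImplicit false

namespace Pool.Agent.P.MP_7322d1_co

open Matrix

variable {d : ℕ}

lemma picone_term {a b A B : ℝ} (h : (a = 0 ∧ A = 0 ∧ b ≠ 0) ∨ (b = 0 ∧ B = 0 ∧ a ≠ 0) ∨ 0 < a * b ∨
    (a ≠ 0 ∧ b ≠ 0 ∧ A * b = B * a)) : (a - b) * (A ^ 2 / a - B ^ 2 / b) ≤ (A - B) ^ 2 := by
  have key : a ≠ 0 → b ≠ 0 →
      (A - B) ^ 2 - (a - b) * (A ^ 2 / a - B ^ 2 / b) = (A * b - B * a) ^ 2 / (a * b) := by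
    intro h1 h2
    field_simp
    ring
  rcases h with ⟨rfl, rfl, h⟩ | ⟨rfl, rfl, h⟩ | h | ⟨h1, h2, h3⟩
  · apply le_of_eq
    field_simp
    ring
  · apply le_of_eq
    field_simp
    ring
  · have h1 : a ≠ 0 := by rintro rfl; simp at h
    have h2 : b ≠ 0 := by rintro rfl; simp at h
    have := div_nonneg (sq_nonneg (A * b - B * a)) h.le
    linarith [key h1 h2]
  · have := key h1 h2
    rw [h3] at this
    simp at this
    linarith

lemma picone {c l η F : Fin (d + 3) → ℝ} (hc : ∀ i, 0 ≤ c i)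
    (heq : ∀ i, Dop (fun j => c j * Dop η j) i = - (l i * η i)) (η0 : η 0 = 0)
    (ηne : ∀ i, i ≠ 0 → η i ≠ 0)
    (same : ∀ i, i ≠ 0 → i + 1 ≠ 0 → i - 1 ≠ 0 → 0 < η (i + 1) * η (i - 1)) (F0 : F 0 = 0)
    (hF : F (0 + 1) * η (0 - 1) = F (0 - 1) * η (0 + 1)) :
    ∑ i, l i * F i ^ 2 ≤ ∑ i, c i * Dop F i ^ 2 := by
  have h1 := D_adj (fun j => c j * Dop η j) (fun i => F i ^ 2 / η i)
  have h2 : ∀ i, Dop (fun j => c j * Dop η j) i * (F i ^ 2 / η i) = - (l i * F i ^ 2) := by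
    intro i
    rw [heq]
    by_cases hi : i = 0
    · simp [hi, F0]
    · have := ηne i hi
      field_simp
  simp only [h2, Finset.sum_neg_distrib, neg_neg] at h1
  rw [← h1]
  apply Finset.sum_le_sum
  intro i _
  rw [mul_assoc]
  apply mul_le_mul_of_nonneg_left _ (hc i)
  apply picone_term
  have a1 := val_succ i
  have a2 := val_pred i
  have a3 := i.2
  have ne : i + 1 = 0 → i - 1 ≠ 0 := by
    intro e1 e2
    rw [e1] at a1
    rw [e2] at a2
    simp only [Fin.val_zero] at a1 a2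
    split_ifs at a1 a2 <;> omega
  by_cases e1 : i + 1 = 0
  · exact Or.inl ⟨by rw [e1, η0], by rw [e1, F0], ηne _ (ne e1)⟩
  · by_cases e2 : i - 1 = 0
    · exact Or.inr (Or.inl ⟨by rw [e2, η0], by rw [e2, F0], ηne _ e1⟩)
    · by_cases e3 : i = 0
      · exact Or.inr (Or.inr (Or.inr ⟨ηne _ e1, ηne _ e2, by rw [e3]; exact hF⟩))
      · exact Or.inr (Or.inr (Or.inl (same i e3 e1 e2)))

/- Weighted Wirtinger inequality. -/
lemma wwirt {c l η ξ F : Fin (d + 3) → ℝ} (hc : ∀ i, 0 ≤ c i) (hl : 0 < ∑ i, l i)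
    (heq : ∀ i, Dop (fun j => c j * Dop η j) i = - (l i * η i))
    (heq' : ∀ i, Dop (fun j => c j * Dop ξ j) i = - (l i * ξ i)) (η0 : η 0 = 0) (ξ0 : ξ 0 = 1)
    (ηne : ∀ i, i ≠ 0 → η i ≠ 0)
    (same : ∀ i, i ≠ 0 → i + 1 ≠ 0 → i - 1 ≠ 0 → 0 < η (i + 1) * η (i - 1))
    (hF : ∑ i, l i * F i = 0) : ∑ i, l i * F i ^ 2 ≤ ∑ i, c i * Dop F i ^ 2 := by
  have rad : ∀ G : Fin (d + 3) → ℝ, ∑ i, c i * Dop ξ i * Dop G i = ∑ i, l i * ξ i * G i := by
    intro G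
    rw [D_adj (fun j => c j * Dop ξ j) G, ← Finset.sum_neg_distrib]
    apply Finset.sum_congr rfl
    intro i _
    rw [heq']; ring
  have key : ∀ G : Fin (d + 3) → ℝ,
      (G (0 + 1) - G 0 * ξ (0 + 1)) * η (0 - 1) = (G (0 - 1) - G 0 * ξ (0 - 1)) * η (0 + 1) →
      ∑ i, l i * G i ^ 2 ≤ ∑ i, c i * Dop G i ^ 2 := by
    intro G hG
    have h1 := picone (F := fun i => G i - G 0 * ξ i) hc heq η0 ηne same (by simp [ξ0]) hG
    have e1 : ∀ i, l i * (G i - G 0 * ξ i) ^ 2 =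
        l i * G i ^ 2 - 2 * G 0 * (l i * ξ i * G i) + G 0 ^ 2 * (l i * ξ i * ξ i) := fun i => by
      ring
    have e2 : ∀ i, c i * Dop (fun i => G i - G 0 * ξ i) i ^ 2 = c i * Dop G i ^ 2 -
        2 * G 0 * (c i * Dop ξ i * Dop G i) + G 0 ^ 2 * (c i * Dop ξ i * Dop ξ i) := fun i => by
      unfold Dop; ring
    simp only [e1, e2, Finset.sum_add_distrib, Finset.sum_sub_distrib, ← Finset.mul_sum, rad] at h1
    linarith
  by_cases h1 : (1 - ξ (0 + 1)) * η (0 - 1) = (1 - ξ (0 - 1)) * η (0 + 1)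
  · have := key (fun _ => 1) (by simpa using h1)
    simp [Dop] at this
    linarith
  · set t := ((F (0 + 1) - F 0 * ξ (0 + 1)) * η (0 - 1) - (F (0 - 1) - F 0 * ξ (0 - 1)) * η (0 + 1)) /
      ((1 - ξ (0 + 1)) * η (0 - 1) - (1 - ξ (0 - 1)) * η (0 + 1)) with ht
    have h2 := sub_ne_zero.mpr h1
    have h3 : t * ((1 - ξ (0 + 1)) * η (0 - 1) - (1 - ξ (0 - 1)) * η (0 + 1)) =
        (F (0 + 1) - F 0 * ξ (0 + 1)) * η (0 - 1) - (F (0 - 1) - F 0 * ξ (0 - 1)) * η (0 + 1) := by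
      rw [ht, div_mul_cancel₀ _ h2]
    have h4 := key (fun i => F i - t) (by linear_combination -h3)
    have e1 : ∀ i, l i * (F i - t) ^ 2 = l i * F i ^ 2 - 2 * t * (l i * F i) + t ^ 2 * l i :=
      fun i => by ring
    have e2 : ∀ i, Dop (fun i => F i - t) i = Dop F i := fun i => by unfold Dop; ring
    simp only [e1, e2, Finset.sum_add_distrib, Finset.sum_sub_distrib, ← Finset.mul_sum, hF] at h4
    nlinarith [mul_nonneg (sq_nonneg t) hl.le]

lemma V_le_w (hd : Even d) {l : Fin (d + 3) → ℝ} {T : ℝ} (hl : ∀ i, 0 < l i)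
    (hW : ∀ F : Fin (d + 3) → ℝ, ∑ i, l i * F i = 0 →
      ∑ i, l i * F i ^ 2 ≤ ∑ i, T / l i * Dop F i ^ 2)
    {x y : Fin (d + 3) → ℝ} (sx : ∑ i, x i = 0) (sy : ∑ i, y i = 0)
    (hx : 0 < ∑ i, x i ^ 2 / l i) : Vf x y ^ 2 ≤ T * gram l x y := by
  have hL : 0 < ∑ i, l i := Finset.sum_pos (fun i _ => hl i) Finset.univ_nonempty
  set u : Fin (d + 3) → ℝ := fun i => prim x i - (∑ k, l k * prim x k) / ∑ k, l k with hu
  have u0 : ∑ i, l i * u i = 0 := by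
    simp only [hu, mul_sub, Finset.sum_sub_distrib, ← Finset.sum_mul]
    field_simp
    ring
  have uD : ∀ i, Dop u i = x i := fun i => by
    rw [← D_prim hd sx i]; simp [Dop, hu]
  have w1 := hW u u0
  set A := ∑ i, x i ^ 2 / l i with hA
  set C := ∑ i, x i * y i / l i with hC
  have w2 : ∑ i, T / l i * Dop u i ^ 2 = T * A := by
    rw [hA, Finset.mul_sum]
    apply Finset.sum_congr rfl
    intro i _
    rw [uD]; ring
  have uV : Vf x y = ∑ i, u i * (y i - C / A * x i) := by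
    rw [← Vf_sub x y (C / A), Vf_eq]
    simp only [hu, sub_mul, Finset.sum_sub_distrib, ← Finset.mul_sum, sy, sx]
    simp
  have cs := Finset.sum_sq_le_sum_mul_sum_of_sq_le_mul Finset.univ
    (r := fun i => u i * (y i - C / A * x i)) (f := fun i => l i * u i ^ 2)
    (g := fun i => (y i - C / A * x i) ^ 2 / l i)
    (fun i _ => mul_nonneg (hl i).le (sq_nonneg _))
    (fun i _ => div_nonneg (sq_nonneg _) (hl i).le)
    (fun i _ => le_of_eq (by have := (hl i).ne'; field_simp))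
  have e : A * ∑ i, (y i - C / A * x i) ^ 2 / l i = gram l x y := by
    have : ∀ i, (y i - C / A * x i) ^ 2 / l i = y i ^ 2 / l i - 2 * (C / A) * (x i * y i / l i) +
        (C / A) ^ 2 * (x i ^ 2 / l i) := fun i => by ring
    simp only [this, Finset.sum_add_distrib, Finset.sum_sub_distrib, ← Finset.mul_sum, ← hA, ← hC,
      gram]
    field_simp
    ring
  rw [← uV] at cs
  rw [w2] at w1
  have yn : 0 ≤ ∑ i, (y i - C / A * x i) ^ 2 / l i :=
    Finset.sum_nonneg fun i _ => div_nonneg (sq_nonneg _) (hl i).le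
  rw [← e, ← mul_assoc]
  exact cs.trans (mul_le_mul_of_nonneg_right w1 yn)

end Pool.Agent.P.MP_7322d1_co
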