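import Mathlib
import Pool.Agent.P.MP_7322d1_co.Wirt

set_option autoImplicit false

namespace Pool.Agent.P.MP_7322d1_co

open Matrix

variable {d : ℕ} {P : Matrix (Fin d) (Fin (d + 3)) ℝ} {x y l : Fin (d + 3) → ℝ}
  {z : Fin d → Fin (d + 3) → ℝ}

/- The critical point equations. -/
structure Crit (P : Matrix (Fin d) (Fin (d + 3)) ℝ) (x y l : Fin (d + 3) → ℝ)
    (z : Fin d → Fin (d + 3) → ℝ) : Prop where
  pz : ∀ r, P *ᵥ z r = Pi.single r 1
  sz : ∀ r, ∑ i, z r i = 0
  nn : ∀ i, 0 ≤ l i
  eq : ∀ r i, Vf x y * z r i - x i * Vf (z r) y - y i * Vf x (z r) = l i * P r i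

lemma Crit.pair (h : Crit P x y l z) (g : Fin (d + 3) → ℝ) (r : Fin d) :
    (P *ᵥ fun i => l i * g i) r = Vf x y * (∑ i, g i * z r i) - (∑ i, g i * x i) * Vf (z r) y -
      (∑ i, g i * y i) * Vf x (z r) := by
  simp only [mulVec, dotProduct, Finset.mul_sum, Finset.sum_mul, ← Finset.sum_sub_distrib]
  apply Finset.sum_congr rfl
  intro i _
  linear_combination (- g i) * h.eq r i

lemma Crit.pos (hd : Even d) (hd0 : 0 < d) (G : Gale P x y) (h : Crit P x y l z)
    (i : Fin (d + 3)) : 0 < l i := by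
  refine lt_of_le_of_ne (h.nn i) fun h0 => ?_
  have a : ∀ w : Fin (d + 3) → ℝ, ∑ k, w k = 0 →
      Vf x y * w i - x i * Vf w y - y i * Vf x w = 0 := by
    intro w hw
    obtain ⟨α, β, e⟩ := G.span (w - ∑ r, (P *ᵥ w) r • z r)
      (by
        simp only [Pi.sub_apply, Finset.sum_apply, Pi.smul_apply, smul_eq_mul,
          Finset.sum_sub_distrib, hw]
        rw [Finset.sum_comm]
        simp [← Finset.mul_sum, h.sz])
      (by
        rw [mulVec_sub, mulVec_sum]
        simp only [mulVec_smul, h.pz]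
        ext s
        simp [Finset.sum_apply, Pi.single_apply])
    have e' : ∀ k, w k = ∑ r, (P *ᵥ w) r * z r k + α * x k + β * y k := fun k => by
      have := e k
      simp only [Pi.sub_apply, Finset.sum_apply, Pi.smul_apply, smul_eq_mul] at this
      linarith
    have lin : ∀ u : Fin (d + 3) → ℝ, Vf u w = ∑ r, (P *ᵥ w) r * Vf u (z r) + α * Vf u x +
        β * Vf u y := by
      intro u
      simp only [Vf_eq, Finset.mul_sum]
      rw [Finset.sum_comm, ← Finset.sum_add_distrib, ← Finset.sum_add_distrib]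
      apply Finset.sum_congr rfl
      intro k _
      conv_lhs => rw [e' k, mul_add, mul_add, Finset.mul_sum]
      congr 1
      · congr 1
        · apply Finset.sum_congr rfl
          intro r _; ring
        · ring
      · ring
    have z0 : ∑ r, (P *ᵥ w) r * (Vf x y * z r i + x i * Vf y (z r) - y i * Vf x (z r)) = 0 := by
      apply Finset.sum_eq_zero
      intro r _
      have := h.eq r i
      rw [← h0, Vf_swap y (z r)] at this
      rw [show Vf x y * z r i + x i * Vf y (z r) - y i * Vf x (z r) = 0 by linarith, mul_zero]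
    have z1 : ∀ r, (P *ᵥ w) r * (Vf x y * z r i + x i * Vf y (z r) - y i * Vf x (z r)) =
        Vf x y * ((P *ᵥ w) r * z r i) + x i * ((P *ᵥ w) r * Vf y (z r)) -
          y i * ((P *ᵥ w) r * Vf x (z r)) := fun r => by ring
    simp only [z1, Finset.sum_add_distrib, Finset.sum_sub_distrib, ← Finset.mul_sum] at z0
    rw [Vf_swap y w, lin x, lin y, Vf_self, Vf_self, Vf_swap x y]
    linear_combination z0 + Vf x y * e' i
  set j : Fin (d + 3) := i + 1 + 1 with hj
  have b1 := val_succ i
  have b2 := val_succ (i + 1)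
  have b3 := val_succ j
  have n1 : i ≠ j := by
    intro e
    have := congrArg Fin.val e
    have := i.2
    rw [← hj] at b2
    split_ifs at b1 b2 <;> omega
  have n2 : i ≠ j + 1 := by
    intro e
    have := congrArg Fin.val e
    have := i.2
    rw [← hj] at b2
    split_ifs at b1 b2 b3 <;> omega
  have n3 : i ≠ j - 1 := by
    intro e
    rw [hj, add_sub_cancel_right] at e
    have := congrArg Fin.val e
    have := i.2
    split_ifs at b1 <;> omega
  have b := a (Pi.single (j + 1) 1 - Pi.single (j - 1) 1) (by simp [Finset.sum_sub_distrib])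
  have c : ∀ u : Fin (d + 3) → ℝ, ∑ k, u k = 0 →
      Vf u (Pi.single (j + 1) 1 - Pi.single (j - 1) 1) = u j := by
    intro u hu
    rw [Vf_eq, ← D_prim hd hu j]
    simp [mul_sub, Finset.sum_sub_distrib, Dop, Pi.single_apply]
  rw [Vf_swap y (_ - _), c x G.sx, c y G.sy] at b
  apply G.ne_zero n1
  simp [n2, n3] at b
  linarith

theorem Crit.le (hd : Even d) (hd0 : 0 < d) (hS : Spanning P) (G : Gale P x y)
    (hP : ∀ i, ∑ r, P r i ^ 2 = 1) (h : Crit P x y l z) : fv (Cm d) ≤ fv P := by
  have hl := h.pos hd hd0 G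
  have hL : 0 < ∑ i, l i := Finset.sum_pos (fun i _ => hl i) Finset.univ_nonempty
  have hd' : (0 : ℝ) < d := by exact_mod_cast hd0
  have hV := G.Vf_pos
  set V := Vf x y with hVd
  have P1 : P *ᵥ l = 0 := by
    ext r
    simpa [h.sz, G.sx, G.sy] using h.pair (fun _ => 1) r
  have PP : covB P l = V • (1 : Matrix (Fin d) (Fin d) ℝ) := by
    rw [covB_one P1]
    ext r s
    have a := h.pair (fun i => P s i) r
    have a1 := congrFun (h.pz r) s
    have a2 := congrFun G.px s
    have a3 := congrFun G.py s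
    simp only [mulVec, dotProduct, Pi.zero_apply] at a a1 a2 a3
    rw [a1, a2, a3] at a
    rw [Matrix.mul_apply]
    simp only [transpose_apply, mul_diagonal, mul_comm (P s _) (l _), a,
      Matrix.smul_apply, one_apply, Pi.single_apply, smul_eq_mul, eq_comm (a := s), ← hVd]
    simp
  have hVL : V = (∑ i, l i) / d := by
    have := covB_trace P hl hP
    rw [PP, P1] at this
    simp at this
    field_simp
    linarith
  have shift : ∀ u : Fin (d + 3) → ℝ, ∑ i, u i = 0 → (P *ᵥ fun i => l i * prim u i) = 0 →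
      ∃ (φ : Fin (d + 3) → ℝ) (α β : ℝ), (∀ i, Dop φ i = u i) ∧
        (∀ i, l i * φ i = α * x i + β * y i) ∧
        ∀ w : Fin (d + 3) → ℝ, ∑ i, w i = 0 → ∑ i, φ i * w i = Vf u w := by
    intro u hu hPu
    set t := (∑ k, l k * prim u k) / ∑ k, l k with ht
    obtain ⟨α, β, e⟩ := G.span (fun i => l i * (prim u i - t))
      (by
        simp only [ht, mul_sub, Finset.sum_sub_distrib, ← Finset.sum_mul]
        field_simp
        ring)
      (by
        have : (fun i => l i * (prim u i - t)) = (fun i => l i * prim u i) - t • l := by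
          ext i; simp; ring
        rw [this, mulVec_sub, mulVec_smul, hPu, P1]; simp)
    refine ⟨fun i => prim u i - t, α, β, fun i => ?_, e, fun w hw => ?_⟩
    · rw [← D_prim hd hu i]; simp [Dop]
    · rw [Vf_eq]
      simp [sub_mul, Finset.sum_sub_distrib, ← Finset.mul_sum, hw]
  obtain ⟨φ, α, β, Dφ, eφ, vφ⟩ := shift x G.sx (by
    ext r
    rw [h.pair, ← Vf_eq, ← Vf_eq, ← Vf_eq, Vf_self]; simp)
  obtain ⟨ψ, α', β', Dψ, eψ, vψ⟩ := shift y G.sy (by
    ext r
    rw [h.pair, ← Vf_eq, ← Vf_eq, ← Vf_eq, Vf_self, Vf_swap x y, Vf_swap y (z r)]; simp)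
  have φx : ∑ i, φ i * x i = 0 := by rw [vφ x G.sx, Vf_self]
  have φy : ∑ i, φ i * y i = V := vφ y G.sy
  have ψx : ∑ i, ψ i * x i = -V := by rw [vψ x G.sx, Vf_swap]
  have ψy : ∑ i, ψ i * y i = 0 := by rw [vψ y G.sy, Vf_self]
  have hβ : β' = -α := by
    have a1 : ∑ i, φ i * (α' * x i + β' * y i) = ∑ i, ψ i * (α * x i + β * y i) := by
      apply Finset.sum_congr rfl
      intro i _
      rw [← eφ, ← eψ]; ring
    have a2 : ∀ (u : Fin (d + 3) → ℝ) (a b : ℝ), ∑ i, u i * (a * x i + b * y i) =
        a * ∑ i, u i * x i + b * ∑ i, u i * y i := by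
      intro u a b
      simp only [Finset.mul_sum, ← Finset.sum_add_distrib]
      apply Finset.sum_congr rfl
      intro i _; ring
    rw [a2, a2, φx, φy, ψx, ψy] at a1
    apply mul_right_cancel₀ hV.ne'
    linarith
  subst hβ
  set T := -α ^ 2 - α' * β with hT
  have ex : ∀ i, T * (x i / l i) = -(α * φ i + β * ψ i) := by
    intro i
    have := (hl i).ne'
    field_simp
    linear_combination α * eφ i + β * eψ i
  have ey : ∀ i, T * (y i / l i) = -(α' * φ i - α * ψ i) := by
    intro i
    have := (hl i).ne'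
    field_simp
    linear_combination α' * eφ i - α * eψ i
  have g1 : T * ∑ i, x i ^ 2 / l i = β * V := by
    have : ∀ i, T * (x i ^ 2 / l i) = -α * (φ i * x i) - β * (ψ i * x i) := fun i => by
      linear_combination x i * ex i
    simp only [Finset.mul_sum, this, Finset.sum_sub_distrib]
    simp only [← Finset.mul_sum, φx, ψx]
    ring
  have g2 : T * ∑ i, y i ^ 2 / l i = -α' * V := by
    have : ∀ i, T * (y i ^ 2 / l i) = -α' * (φ i * y i) + α * (ψ i * y i) := fun i => by
      linear_combination y i * ey i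
    simp only [Finset.mul_sum, this, Finset.sum_add_distrib]
    simp only [← Finset.mul_sum, φy, ψy]
    ring
  have g3 : T * ∑ i, x i * y i / l i = -α * V := by
    have : ∀ i, T * (x i * y i / l i) = -α * (φ i * y i) - β * (ψ i * y i) := fun i => by
      linear_combination y i * ex i
    simp only [Finset.mul_sum, this, Finset.sum_sub_distrib]
    simp only [← Finset.mul_sum, φy, ψy]
    ring
  have hg := G.toKer.gram_pos hl
  have g4 : T * (T * gram l x y) = T * V ^ 2 := by
    have : T * (T * gram l x y) = (T * ∑ i, x i ^ 2 / l i) * (T * ∑ i, y i ^ 2 / l i) -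
        (T * ∑ i, x i * y i / l i) ^ 2 := by unfold gram; ring
    rw [this, g1, g2, g3, hT]; ring
  have T0 : T ≠ 0 := by
    intro h0
    rw [h0] at g1 g2 g3
    have b1 : β = 0 := by
      apply mul_right_cancel₀ hV.ne'; linarith
    have b2 : α = 0 := by
      apply mul_right_cancel₀ hV.ne'; linarith
    have b3 : ∀ i, φ i = 0 := fun i => by
      have := eφ i
      rw [b1, b2] at this
      apply mul_left_cancel₀ (hl i).ne'
      linarith
    have b4 : ∑ i, φ i * y i = 0 := by simp [b3]
    linarith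
  have g5 : T * gram l x y = V ^ 2 := mul_left_cancel₀ T0 g4
  have Tp : 0 < T := by
    have : 0 < T * gram l x y := by rw [g5]; positivity
    exact (pos_iff_pos_of_mul_pos this).mpr hg
  have fam : ∀ a b : ℝ, ∀ i, Dop (fun j => T / l j * Dop (fun k => (a * x k + b * y k) / l k) j) i =
      -(l i * ((a * x i + b * y i) / l i)) := by
    intro a b i
    have e1 : ∀ k, (a * x k + b * y k) / l k =
        -T⁻¹ * ((a * α + b * α') * φ k + (a * β - b * α) * ψ k) := fun k => by
      apply mul_left_cancel₀ T0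
      rw [← mul_assoc, mul_neg, mul_inv_cancel₀ T0]
      linear_combination a * ex k + b * ey k
    have e2 : ∀ j, T / l j * Dop (fun k => (a * x k + b * y k) / l k) j =
        -(a * φ j + b * ψ j) := by
      intro j
      have a1 := Dφ j
      have a2 := Dψ j
      have a3 := (hl j).ne'
      simp only [Dop] at a1 a2 ⊢
      rw [e1, e1]
      field_simp
      linear_combination (-(a * α + b * α')) * a1 - (a * β - b * α) * a2 + a * eφ j + b * eψ j
    have a1 := Dφ i
    have a2 := Dψ i
    have a3 := (hl i).ne'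
    simp only [e2]
    simp only [Dop] at a1 a2 ⊢
    field_simp
    linear_combination (-a) * a1 - b * a2
  have hW : ∀ F : Fin (d + 3) → ℝ, ∑ i, l i * F i = 0 →
      ∑ i, l i * F i ^ 2 ≤ ∑ i, T / l i * Dop F i ^ 2 := by
    intro F hF
    have n0 : 0 < x 0 ^ 2 + y 0 ^ 2 := by
      have := G.ne_zero (a := 0) (b := 1) (by simp)
      by_contra hc
      have a1 : x 0 = 0 := by nlinarith [sq_nonneg (x 0), sq_nonneg (y 0)]
      have a2 : y 0 = 0 := by nlinarith [sq_nonneg (x 0), sq_nonneg (y 0)]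
      simp [a1, a2] at this
    refine wwirt (fun i => div_nonneg Tp.le (hl i).le) hL (fam (- y 0) (x 0))
      (fam (l 0 * x 0 / (x 0 ^ 2 + y 0 ^ 2)) (l 0 * y 0 / (x 0 ^ 2 + y 0 ^ 2))) (by ring) ?_ ?_ ?_ hF
    · have := (hl 0).ne'
      field_simp
    · intro i hi
      apply div_ne_zero _ (hl i).ne'
      have := G.ne_zero hi.symm
      intro e
      apply this
      linarith
    · intro i h0 h1 h2
      have a1 := G.pos 0 (i + 1) (Fin.pos_iff_ne_zero.mpr h1)
      have a2 := G.pos 0 (i - 1) (Fin.pos_iff_ne_zero.mpr h2)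
      have b1 := val_succ i
      have b2 := val_pred i
      have b3 : (i : ℕ) ≠ 0 := fun e => h0 (Fin.ext e)
      have b4 : ((i + 1 : Fin (d + 3)) : ℕ) ≠ 0 := fun e => h1 (Fin.ext e)
      have b5 : ((i + 1 : Fin (d + 3)) : ℕ) = ((i - 1 : Fin (d + 3)) : ℕ) + 2 := by
        split_ifs at b1 b2 <;> omega
      have b6 : sg 0 (i + 1) * sg 0 (i - 1) = 1 := by
        unfold sg
        rw [b5, ← pow_add]
        exact Even.neg_one_pow (Nat.even_iff.mpr (by omega))
      rw [div_mul_div_comm]
      apply div_pos _ (mul_pos (hl _) (hl _))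
      have := mul_pos a1 a2
      rw [mul_mul_mul_comm, b6] at this
      linarith
  have G' := Cm_gale hd hd0
  have hg' := G'.toKer.gram_pos hl
  have hx' : 0 < ∑ i, ph d d i ^ 2 / l i := by
    have a : 0 ≤ ∑ i, ph d d i ^ 2 / l i :=
      Finset.sum_nonneg fun i _ => div_nonneg (sq_nonneg _) (hl i).le
    refine lt_of_le_of_ne a fun e => ?_
    unfold gram at hg'
    rw [← e] at hg'
    nlinarith [sq_nonneg (∑ i, ph d d i * ph d (d + 1) i / l i)]
  have k1 := V_le_w hd hl hW G'.sx G'.sy hx'
  have k2 := G'.fv_sq (Cm_spanning hd hd0) hl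
  have k3 := covB_det_le hd0 (Cm_spanning hd hd0) hl (Cm_unit hd hd0)
  have k4 := G.fv_sq hS hl
  have k5 := (covB_posDef (Cm_spanning hd hd0) hl).det_pos
  rw [PP, det_smul, det_one, mul_one, Fintype.card_fin, ← hVd, ← g5] at k4
  rw [← hVL] at k3
  have hPi : 0 < ∏ i, l i := Finset.prod_pos (fun i _ => hl i)
  have k6 : fv P ^ 2 * ∏ i, l i = V ^ d * (∑ i, l i) * T := by
    apply mul_right_cancel₀ hg.ne'
    linear_combination k4
  have k7 : fv (Cm d) ^ 2 * (∏ i, l i) * gram l (ph d d) (ph d (d + 1)) ≤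
      V ^ d * (∑ i, l i) * T * gram l (ph d d) (ph d (d + 1)) := by
    rw [mul_assoc, k2, mul_assoc (V ^ d * _)]
    gcongr
  have k8 := le_of_mul_le_mul_right k7 hg'
  rw [← k6] at k8
  exact (pow_le_pow_iff_left₀ (fv_nonneg _) (fv_nonneg _) two_ne_zero).mp
    (le_of_mul_le_mul_right k8 hPi)

end Pool.Agent.P.MP_7322d1_co
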