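import Mathlib

set_option autoImplicit false

namespace Pool.Agent.P.MP_7322d1_co

/-- `P` is a `d`-dimensional convex polytope with exactly `n` vertices, all on the unit sphere. -/
def IsInscribed (d n : ℕ) (P : Set (EuclideanSpace ℝ (Fin d))) : Prop :=
  (∃ V : Finset (EuclideanSpace ℝ (Fin d)), P = convexHull ℝ (V : Set (EuclideanSpace ℝ (Fin d)))) ∧
    (interior P).Nonempty ∧ (P.extremePoints ℝ).ncard = n ∧ ∀ v ∈ P.extremePoints ℝ, ‖v‖ = 1

/-- The face lattices of `P` and `Q` are isomorphic. -/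
def CombEquiv {d : ℕ} (P Q : Set (EuclideanSpace ℝ (Fin d))) : Prop :=
  Nonempty ({F : Set (EuclideanSpace ℝ (Fin d)) // IsExposed ℝ P F} ≃o
    {F : Set (EuclideanSpace ℝ (Fin d)) // IsExposed ℝ Q F})

/-- The moment curve `t ↦ (t, t^2, ..., t^d)`. -/
def momentCurve (d : ℕ) (t : ℝ) : EuclideanSpace ℝ (Fin d) :=
  WithLp.toLp 2 fun j : Fin d => t ^ ((j : ℕ) + 1)

/-- `P` is combinatorially equivalent to the convex hull of `n` distinct points of the moment
curve. -/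
def IsCyclicPolytope (d n : ℕ) (P : Set (EuclideanSpace ℝ (Fin d))) : Prop :=
  ∃ t : Fin n → ℝ, Function.Injective t ∧
    CombEquiv P (convexHull ℝ (Set.range fun i => momentCurve d (t i)))

/-- The polytope `C_d(n)`. -/
def trigPolytope (d n : ℕ) : Set (EuclideanSpace ℝ (Fin d)) :=
  convexHull ℝ (Set.range fun i : Fin n => WithLp.toLp 2 fun j : Fin d =>
    √(2 / (d : ℝ)) *
      if Even (j : ℕ) then Real.cos ((((j : ℕ) / 2 + 1 : ℕ) : ℝ) * (2 * Real.pi * (i : ℕ) / n))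
      else Real.sin ((((j : ℕ) / 2 + 1 : ℕ) : ℝ) * (2 * Real.pi * (i : ℕ) / n)))

/-- `P` and `Q` are congruent. -/
def IsCongruent {d : ℕ} (P Q : Set (EuclideanSpace ℝ (Fin d))) : Prop :=
  ∃ f : EuclideanSpace ℝ (Fin d) ≃ᵢ EuclideanSpace ℝ (Fin d), f '' P = Q

end Pool.Agent.P.MP_7322d1_co
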