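import Mathlib
import Pool.Agent.P.MP_7322d1_co.Defs
import Pool.Agent.P.MP_7322d1_co.Vol

set_option autoImplicit false

namespace Pool.Agent.P.MP_7322d1_co

open Matrix

variable {d : ℕ}

lemma toLp_mat (p : Fin (d + 3) → E d) (t : Fin (d + 3) → ℝ) :
    WithLp.toLp 2 (mat p *ᵥ t) = ∑ i, t i • p i := by
  ext r
  simp [mat, mulVec, dotProduct, mul_comm]

lemma fun_mat (p : Fin (d + 3) → E d) (t : Fin (d + 3) → ℝ) (l : StrongDual ℝ (E d)) :
    l (WithLp.toLp 2 (mat p *ᵥ t)) = ∑ i, t i * l (p i) := by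
  rw [toLp_mat]; simp

lemma pt_mem (p : Fin (d + 3) → E d) (i : Fin (d + 3)) : p i ∈ convexHull ℝ (Set.range p) :=
  subset_convexHull ℝ _ ⟨i, rfl⟩

/- `R` is the set of points strictly below a supporting hyperplane containing all the others. -/
def CoFun (p : Fin (d + 3) → E d) (R : Set (Fin (d + 3))) : Prop :=
  ∃ (l : StrongDual ℝ (E d)) (M : ℝ), ∀ i, (i ∉ R → l (p i) = M) ∧ (i ∈ R → l (p i) < M)

lemma CoFun.face {p : Fin (d + 3) → E d} {R : Set (Fin (d + 3))} (h : CoFun p R) :
    ∃ F, IsExposed ℝ (convexHull ℝ (Set.range p)) F ∧ ∀ i, p i ∈ F ↔ i ∉ R := by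
  by_cases hR : ∃ i0, i0 ∉ R
  · obtain ⟨i0, hi0⟩ := hR
    obtain ⟨l, M, h⟩ := h
    have hle : ∀ i, l (p i) ≤ M := by
      intro i
      by_cases hi : i ∈ R
      · exact ((h i).2 hi).le
      · exact ((h i).1 hi).le
    have hle' : ∀ z ∈ convexHull ℝ (Set.range p), l z ≤ M := by
      intro z hz
      obtain ⟨t, t1, t2, rfl⟩ := (mem_hull p z).mp hz
      rw [fun_mat]
      calc ∑ i, t i * l (p i) ≤ ∑ i, t i * M :=
            Finset.sum_le_sum fun i _ => mul_le_mul_of_nonneg_left (hle i) (t1 i)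
        _ = M := by rw [← Finset.sum_mul, t2, one_mul]
    refine ⟨l.toExposed _, ContinuousLinearMap.toExposed.isExposed, fun i => ⟨?_, ?_⟩⟩
    · rintro ⟨-, h2⟩ hi
      have := h2 (p i0) (pt_mem p i0)
      rw [(h i0).1 hi0] at this
      linarith [(h i).2 hi]
    · intro hi
      exact ⟨pt_mem p i, fun z hz => by rw [(h i).1 hi]; exact hle' z hz⟩
  · push Not at hR
    exact ⟨∅, isExposed_empty, fun i => by simp [hR i]⟩

lemma cofun_of_face {p : Fin (d + 3) → E d} {F : Set (E d)}
    (h : IsExposed ℝ (convexHull ℝ (Set.range p)) F) (hF : F.Nonempty) :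
    CoFun p {i | p i ∉ F} := by
  obtain ⟨l, hl⟩ := h hF
  obtain ⟨z, hz⟩ := hF
  have hz' := hz
  rw [hl] at hz'
  refine ⟨l, l z, fun i => ⟨fun hi => ?_, fun hi => ?_⟩⟩
  · have hi : p i ∈ F := by simpa using hi
    rw [hl] at hi
    exact le_antisymm (hz'.2 _ hi.1) (hi.2 _ hz'.1)
  · refine lt_of_le_of_ne (hz'.2 _ (pt_mem p i)) fun e => hi ?_
    rw [hl]
    exact ⟨pt_mem p i, fun w hw => e ▸ hz'.2 w hw⟩

lemma face_subset {p : Fin (d + 3) → E d} {F F' : Set (E d)}
    (h : IsExposed ℝ (convexHull ℝ (Set.range p)) F)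
    (h' : IsExposed ℝ (convexHull ℝ (Set.range p)) F') (hs : ∀ i, p i ∈ F → p i ∈ F') :
    F ⊆ F' := by
  intro z hz
  obtain ⟨l, hl⟩ := h ⟨z, hz⟩
  have hz' := hz
  rw [hl] at hz'
  obtain ⟨t, t1, t2, e⟩ := (mem_hull p z).mp hz'.1
  have h1 : ∑ i, t i * (l z - l (p i)) = 0 := by
    simp only [mul_sub, Finset.sum_sub_distrib, ← Finset.sum_mul, t2, one_mul]
    rw [← fun_mat, ← e, sub_self]
  have h2 := (Finset.sum_eq_zero_iff_of_nonneg fun i _ =>
    mul_nonneg (t1 i) (sub_nonneg.mpr (hz'.2 _ (pt_mem p i)))).mp h1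
  have h3 : ∀ i, t i ≠ 0 → p i ∈ F' := by
    intro i hi
    apply hs
    have := (mul_eq_zero.mp (h2 i (Finset.mem_univ _))).resolve_left hi
    rw [hl]
    exact ⟨pt_mem p i, fun w hw => by linarith [hz'.2 w hw]⟩
  rw [e, toLp_mat, ← Finset.sum_filter_of_ne (p := fun i => t i ≠ 0)
    (fun i _ hi h0 => hi (by rw [h0, zero_smul]))]
  apply (h'.convex (convex_convexHull ℝ _)).sum_mem (fun i _ => t1 i)
  · rw [Finset.sum_filter_of_ne (fun i _ hi => hi), t2]
  · intro i hi
    exact h3 i (Finset.mem_filter.mp hi).2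

lemma CoFun.dep {p : Fin (d + 3) → E d} {R : Set (Fin (d + 3))} (h : CoFun p R) :
    ∃ c : Fin (d + 3) → ℝ, (∀ i, i ∉ R → c i = 0) ∧ (∀ i ∈ R, 0 < c i) ∧
      ∀ v : Fin (d + 3) → ℝ, ∑ i, v i = 0 → mat p *ᵥ v = 0 → ∑ i, c i * v i = 0 := by
  obtain ⟨l, M, h⟩ := h
  refine ⟨fun i => M - l (p i), fun i hi => by simp [(h i).1 hi],
    fun i hi => sub_pos.mpr ((h i).2 hi), fun v h1 h2 => ?_⟩
  have := fun_mat p v l
  rw [h2] at this
  simp only [sub_mul, Finset.sum_sub_distrib, ← Finset.mul_sum, h1, mul_comm (l _)]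
  rw [← this]
  simp

variable {x y : Fin (d + 3) → ℝ}

lemma Ker.cofun {p : Fin (d + 3) → E d} (h : Ker (mat p) x y) {R : Set (Fin (d + 3))}
    {c : Fin (d + 3) → ℝ} (c0 : ∀ i, i ∉ R → c i = 0) (c1 : ∀ i ∈ R, 0 < c i)
    (cx : ∑ i, c i * x i = 0) (cy : ∑ i, c i * y i = 0) : CoFun p R := by
  let dot : (Fin (d + 3) → ℝ) → ((Fin (d + 3) → ℝ) →ₗ[ℝ] ℝ) := fun w =>
    ∑ i, w i • LinearMap.proj i
  have dot_apply : ∀ w v, dot w v = ∑ i, w i * v i := fun w v => by simp [dot]
  let L : Option (Fin d) → ((Fin (d + 3) → ℝ) →ₗ[ℝ] ℝ) := fun o =>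
    o.elim (dot fun _ => 1) (fun r => dot (mat p r))
  have hm := mem_span_of_iInf_ker_le_ker (L := L) (K := dot c) (by
    intro v hv
    rw [Submodule.mem_iInf] at hv
    have h1 : ∑ i, v i = 0 := by simpa [L, dot_apply] using hv none
    have h2 : mat p *ᵥ v = 0 := by
      ext r
      simpa [L, dot_apply, mulVec, dotProduct] using hv (some r)
    obtain ⟨α, β, e⟩ := h.span v h1 h2
    rw [LinearMap.mem_ker, dot_apply]
    have : ∀ i, c i * v i = α * (c i * x i) + β * (c i * y i) := fun i => by rw [e]; ring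
    simp only [this, Finset.sum_add_distrib, ← Finset.mul_sum, cx, cy]
    simp)
  obtain ⟨g, hg⟩ := (Submodule.mem_span_range_iff_exists_fun ℝ).mp hm
  have e : ∀ i, c i = g none + ∑ r, g (some r) * p i r := by
    intro i
    have := LinearMap.congr_fun hg (Pi.single i 1)
    simp [Fintype.sum_option, L, dot_apply, Pi.single_apply, mat] at this
    exact this.symm
  refine ⟨- ∑ r, g (some r) • EuclideanSpace.proj r, g none, fun i => ?_⟩
  have e2 : (- ∑ r, g (some r) • EuclideanSpace.proj r : StrongDual ℝ (E d)) (p i) =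
      g none - c i := by
    rw [e i]; simp
  rw [e2]
  exact ⟨fun hi => by rw [c0 i hi, sub_zero], fun hi => by linarith [c1 i hi]⟩

/- The combinatorial description of cofaces of a cyclic polytope. -/
def CoFace (R : Set (Fin (d + 3))) : Prop :=
  R = ∅ ∨ ∃ a ∈ R, ∃ b ∈ R, ∃ c ∈ R, a < b ∧ b < c ∧ ((a : ℕ) + b) % 2 = 1 ∧ ((b : ℕ) + c) % 2 = 1

lemma Gale.cofun_iff {p : Fin (d + 3) → E d} (h : Gale (mat p) x y) (R : Set (Fin (d + 3))) :
    CoFun p R ↔ CoFace R := by
  classical
  constructor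
  · intro hR
    obtain ⟨c, c0, c1, hc⟩ := hR.dep
    have cx := hc x h.sx h.px
    have cy := hc y h.sy h.py
    by_contra hno
    unfold CoFace at hno
    push Not at hno
    obtain ⟨hne, hno⟩ := hno
    obtain ⟨a, ha, amin⟩ := Set.exists_min_image R id (Set.toFinite R) hne
    obtain ⟨k, hk, kmax⟩ := Set.exists_max_image {i | i ∈ R ∧ ((a : ℕ) + i) % 2 = 0} id
      (Set.toFinite _) ⟨a, ha, by omega⟩
    simp only [id, Set.mem_ofPred_eq] at amin kmax hk
    have neg : ∀ i ∈ R, i ≠ k → x i * y k - x k * y i < 0 := by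
      intro i hi hik
      rcases Nat.mod_two_eq_zero_or_one ((a : ℕ) + i) with q | q
      · have := h.pos i k (lt_of_le_of_ne (kmax i ⟨hi, q⟩) hik)
        rw [sg_even (by omega)] at this
        linarith
      · have hai : a < i := lt_of_le_of_ne (amin i hi) (fun e => by rw [e] at q; omega)
        have hki : k < i := by
          by_contra hc
          push Not at hc
          exact hno a ha i hi k hk.1 hai (lt_of_le_of_ne hc hik) q (by omega)
        have := h.pos k i hki
        rw [sg_odd (by omega)] at this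
        linarith
    have s0 : ∑ i, c i * (x i * y k - x k * y i) = 0 := by
      have : ∀ i, c i * (x i * y k - x k * y i) = y k * (c i * x i) - x k * (c i * y i) :=
        fun i => by ring
      simp only [this, Finset.sum_sub_distrib, ← Finset.mul_sum, cx, cy]
      simp
    have np : ∀ i, c i * (x i * y k - x k * y i) ≤ 0 := by
      intro i
      by_cases hi : i ∈ R
      · by_cases hik : i = k
        · rw [hik]; simp
        · exact (mul_neg_of_pos_of_neg (c1 i hi) (neg i hi hik)).le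
      · rw [c0 i hi]; simp
    have z := (Finset.sum_eq_zero_iff_of_nonpos fun i _ => np i).mp s0
    have cz : ∀ i, i ≠ k → c i = 0 := by
      intro i hik
      by_cases hi : i ∈ R
      · exact absurd (z i (Finset.mem_univ _))
          (mul_neg_of_pos_of_neg (c1 i hi) (neg i hi hik)).ne
      · exact c0 i hi
    rw [Finset.sum_eq_single k (fun i _ hik => by rw [cz i hik, zero_mul]) (by simp)] at cx cy
    have xk := (mul_eq_zero.mp cx).resolve_left (c1 k hk.1).ne'
    have yk := (mul_eq_zero.mp cy).resolve_left (c1 k hk.1).ne'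
    obtain ⟨j, hj⟩ := exists_ne k
    exact h.ne_zero hj (by rw [xk, yk]; ring)
  · rintro (rfl | ⟨a, ha, b, hb, c, hc, hab, hbc, p1, p2⟩)
    · exact h.toKer.cofun (c := 0) (by simp) (by simp) (by simp) (by simp)
    have g1 := h.pos a b hab
    have g2 := h.pos b c hbc
    have g3 := h.pos a c (hab.trans hbc)
    rw [sg_odd p1, one_mul] at g1
    rw [sg_odd p2, one_mul] at g2
    rw [sg_even (by omega), neg_one_mul] at g3
    set sab := x a * y b - x b * y a with h1
    set sbc := x b * y c - x c * y b with h2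
    set sca := -(x a * y c - x c * y a) with h3
    set ind : Fin (d + 3) → ℝ := fun i => if i ∈ R then 1 else 0 with hind
    set zx := ∑ i, ind i * x i with hzx
    set zy := ∑ i, ind i * y i with hzy
    set α := -(zx * y b - x b * zy) / sab with hα
    set β := -(x a * zy - zx * y a) / sab with hβ
    set T := |α| / sbc + |β| / sca with hT
    have T0 : 0 ≤ T := by positivity
    have T1 : 0 ≤ α + T * sbc := by
      have : T * sbc = |α| + |β| / sca * sbc := by rw [hT]; field_simp
      have : 0 ≤ |β| / sca * sbc := by positivity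
      linarith [neg_abs_le α]
    have T2 : 0 ≤ β + T * sca := by
      have : T * sca = |α| / sbc * sca + |β| := by rw [hT]; field_simp
      have : 0 ≤ |α| / sbc * sca := by positivity
      linarith [neg_abs_le β]
    have T3 : 0 ≤ T * sab := by positivity
    have sm : ∀ v : Fin (d + 3) → ℝ, ∑ i, (ind i + (if i = a then α + T * sbc else 0) +
        (if i = b then β + T * sca else 0) + (if i = c then T * sab else 0)) * v i =
        ∑ i, ind i * v i + (α + T * sbc) * v a + (β + T * sca) * v b + T * sab * v c := by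
      intro v
      simp [add_mul, Finset.sum_add_distrib]
    refine h.toKer.cofun (c := fun i => ind i + (if i = a then α + T * sbc else 0) +
      (if i = b then β + T * sca else 0) + (if i = c then T * sab else 0)) ?_ ?_ ?_ ?_
    · intro i hi
      have n1 : i ≠ a := fun e => hi (e ▸ ha)
      have n2 : i ≠ b := fun e => hi (e ▸ hb)
      have n3 : i ≠ c := fun e => hi (e ▸ hc)
      simp [hind, hi, n1, n2, n3]
    · intro i hi
      simp only [hind, hi, if_true]
      split_ifs <;> linarith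
    · rw [sm, ← hzx, hα, hβ]
      field_simp
      rw [h1, h2, h3]
      ring
    · rw [sm, ← hzy, hα, hβ]
      field_simp
      rw [h1, h2, h3]
      ring

lemma Gale.exists_iso {p : Fin (d + 3) → E d} (h : Gale (mat p) x y) :
    Nonempty ({F : Set (E d) // IsExposed ℝ (convexHull ℝ (Set.range p)) F} ≃o
      {S : Set (Fin (d + 3)) // S = ∅ ∨ CoFace Sᶜ}) := by
  refine ⟨RelIso.ofSurjective (OrderEmbedding.ofMapLEIff
    (fun F => ⟨{i | p i ∈ F.1}, ?_⟩) ?_) ?_⟩
  · rcases F.1.eq_empty_or_nonempty with e | e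
    · left; rw [e]; simp
    · right
      exact (h.cofun_iff _).mp (cofun_of_face F.2 e)
  · intro F F'
    exact ⟨fun hs => face_subset F.2 F'.2 (fun i hi => hs hi), fun hs i hi => hs hi⟩
  · rintro ⟨S, rfl | hS⟩
    · exact ⟨⟨∅, isExposed_empty⟩, by simp⟩
    · obtain ⟨F, h1, h2⟩ := ((h.cofun_iff _).mpr hS).face
      refine ⟨⟨F, h1⟩, Subtype.ext ?_⟩
      ext i
      simpa using h2 i

lemma Gale.combEquiv {p p' : Fin (d + 3) → E d} {x' y' : Fin (d + 3) → ℝ} (h : Gale (mat p) x y)
    (h' : Gale (mat p') x' y') :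
    CombEquiv (convexHull ℝ (Set.range p)) (convexHull ℝ (Set.range p')) := by
  obtain ⟨e⟩ := h.exists_iso
  obtain ⟨e'⟩ := h'.exists_iso
  exact ⟨e.trans e'.symm⟩

lemma Gale.injective {p : Fin (d + 3) → E d} (hd : 0 < d) (h : Gale (mat p) x y) :
    Function.Injective p := by
  intro i j hij
  by_contra hne
  obtain ⟨α, β, e⟩ := h.span (Pi.single i 1 - Pi.single j 1) (by simp [Finset.sum_sub_distrib])
    (by ext r; simp [mulVec_sub, mat, hij])
  obtain ⟨k, hk⟩ : ∃ k : Fin (d + 3), k ∉ ({i, j} : Finset (Fin (d + 3))) := by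
    obtain ⟨k, -, hk⟩ := Finset.exists_mem_notMem_of_card_lt_card
      (s := ({i, j} : Finset (Fin (d + 3)))) (t := Finset.univ)
      (lt_of_le_of_lt Finset.card_le_two (by simp))
    exact ⟨k, hk⟩
  obtain ⟨l, hl⟩ : ∃ l : Fin (d + 3), l ∉ ({i, j, k} : Finset (Fin (d + 3))) := by
    obtain ⟨l, -, hl⟩ := Finset.exists_mem_notMem_of_card_lt_card
      (s := ({i, j, k} : Finset (Fin (d + 3)))) (t := Finset.univ)
      (lt_of_le_of_lt Finset.card_le_three (by simpa using hd))
    exact ⟨l, hl⟩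
  simp only [Finset.mem_insert, Finset.mem_singleton, not_or] at hk hl
  have ek := e k
  have el := e l
  have ei := e i
  simp [hk.1, hk.2, hl.1, hl.2.1, hne] at ek el ei
  have n := h.ne_zero hl.2.2
  have a0 : α = 0 := by
    apply mul_right_cancel₀ n
    linear_combination (y l) * ek - (y k) * el
  have b0 : β = 0 := by
    apply mul_right_cancel₀ n
    linear_combination (x k) * el - (x l) * ek
  rw [a0, b0] at ei
  simp at ei

end Pool.Agent.P.MP_7322d1_co
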