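import Mathlib
import Pool.Agent.P.MP_7322d1_co.Faces
import Pool.Agent.P.MP_7322d1_co.Bound

set_option autoImplicit false

namespace Pool.Agent.P.MP_7322d1_co

open Matrix MeasureTheory

variable {d : ℕ}

lemma moment_triple {t : Fin (d + 3) → ℝ} (ht : StrictMono t) {a b c : Fin (d + 3)} (hab : a < b)
    (hbc : b < c) (p1 : ((a : ℕ) + b) % 2 = 1) (p2 : ((b : ℕ) + c) % 2 = 1) :
    CoFun (fun i => momentCurve d (t i)) {a, b, c} := by
  set T : Finset (Fin (d + 3)) := Finset.univ \ {a, b, c} with hT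
  have memT : ∀ i, i ∈ T ↔ i ≠ a ∧ i ≠ b ∧ i ≠ c := fun i => by simp [hT]
  have cT : T.card = d := by
    rw [hT, Finset.card_univ_sdiff, Finset.card_eq_three.mpr
      ⟨a, b, c, hab.ne, (hab.trans hbc).ne, hbc.ne, rfl⟩]
    simp
  set g : Polynomial ℝ := ∏ i ∈ T, (Polynomial.X - Polynomial.C (t i)) with hg
  have gd : g.natDegree = d := by rw [hg, Polynomial.natDegree_finsetProd_X_sub_C_eq_card, cT]
  have ge : ∀ s, g.eval s = ∏ i ∈ T, (s - t i) := fun s => by simp [hg, Polynomial.eval_prod]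
  have sgn : ∀ u v : Fin (d + 3), u < v → ((u : ℕ) + v) % 2 = 1 → u ∉ T → v ∉ T →
      (∀ i, u < i → i < v → i ∈ T) → 0 < g.eval (t u) * g.eval (t v) := by
    intro u v huv q hu hv hin
    rw [ge, ge, ← Finset.prod_mul_distrib,
      ← Finset.prod_filter_mul_prod_filter_not T (fun i => u < i ∧ i < v)]
    apply mul_pos
    · have e : T.filter (fun i => u < i ∧ i < v) = Finset.Ioo u v := by
        ext i
        simp only [Finset.mem_filter, Finset.mem_Ioo]
        exact ⟨fun h => h.2, fun h => ⟨hin i h.1 h.2, h⟩⟩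
      have e2 : ∀ i, (t u - t i) * (t v - t i) = -((t i - t u) * (t v - t i)) := fun i => by ring
      rw [e]
      simp only [e2]
      rw [Finset.prod_neg, Fin.card_Ioo, Even.neg_one_pow (Nat.even_iff.mpr (by
        have : (u : ℕ) < v := huv
        omega)), one_mul]
      apply Finset.prod_pos
      intro i hi
      rw [Finset.mem_Ioo] at hi
      exact mul_pos (sub_pos.mpr (ht hi.1)) (sub_pos.mpr (ht hi.2))
    · apply Finset.prod_pos
      intro i hi
      rw [Finset.mem_filter] at hi
      have n1 : i ≠ u := fun e => hu (e ▸ hi.1)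
      have n2 : i ≠ v := fun e => hv (e ▸ hi.1)
      rcases lt_or_gt_of_ne n1 with h | h
      · exact mul_pos (sub_pos.mpr (ht h)) (sub_pos.mpr (ht (h.trans huv)))
      · have h' : v < i := lt_of_le_of_ne (not_lt.mp fun h' => hi.2 ⟨h, h'⟩) n2.symm
        exact mul_pos_of_neg_of_neg (sub_neg.mpr (ht h)) (sub_neg.mpr (ht h'))
  have s1 := sgn a b hab p1 (by simp [memT]) (by simp [memT])
    (fun i h1 h2 => (memT i).mpr ⟨h1.ne', h2.ne, (h2.trans hbc).ne⟩)
  have s2 := sgn b c hbc p2 (by simp [memT]) (by simp [memT])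
    (fun i h1 h2 => (memT i).mpr ⟨(hab.trans h1).ne', h1.ne', h2.ne⟩)
  set ε := g.eval (t b) with hε
  have e0 : ε ≠ 0 := fun h => by rw [h] at s1; simp at s1
  refine ⟨- ∑ j : Fin d, (ε * g.coeff (j + 1)) • EuclideanSpace.proj j, ε * g.coeff 0, fun i => ?_⟩
  have e : (- ∑ j : Fin d, (ε * g.coeff (j + 1)) • EuclideanSpace.proj j : StrongDual ℝ (E d))
      (momentCurve d (t i)) = ε * g.coeff 0 - ε * g.eval (t i) := by
    rw [Polynomial.eval_eq_sum_range, gd, Finset.sum_range_succ', ← Fin.sum_univ_eq_sum_range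
      (fun j => g.coeff (j + 1) * t i ^ (j + 1)) d]
    simp [momentCurve, mul_add, Finset.mul_sum, mul_assoc]
  rw [e]
  constructor
  · intro hi
    have : g.eval (t i) = 0 := by
      rw [ge]
      exact Finset.prod_eq_zero ((memT i).mpr (by simpa [not_or] using hi)) (sub_self _)
    rw [this]; simp
  · intro hi
    rcases hi with rfl | rfl | rfl
    · linarith
    · linarith [mul_self_pos.mpr e0]
    · linarith

lemma moment_spanning {t : Fin (d + 3) → ℝ} (ht : Function.Injective t) :
    Spanning (mat fun i => momentCurve d (t i)) := by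
  intro v c hv
  set g : Polynomial ℝ :=
    ∑ j : Fin d, Polynomial.monomial (j + 1) (v j) - Polynomial.C c with hg
  have g0 : g = 0 := by
    apply Polynomial.eq_zero_of_natDegree_lt_card_of_eval_eq_zero g ht
    · intro i
      have := hv i
      simp only [mat, momentCurve, of_apply] at this
      simp [hg, Polynomial.eval_finsetSum, this]
    · have : g.natDegree ≤ d := by
        refine (Polynomial.natDegree_sub_le _ _).trans (max_le ?_ (by simp))
        apply Polynomial.natDegree_sum_le_of_forall_le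
        intro j _
        exact (Polynomial.natDegree_monomial_le _).trans (by omega)
      simp only [Fintype.card_fin]
      omega
  ext j
  have := congrArg (fun q => Polynomial.coeff q (j + 1)) g0
  simp only [hg, Polynomial.coeff_sub, Polynomial.finsetSum_coeff, Polynomial.coeff_monomial,
    Polynomial.coeff_C, add_left_inj, Fin.val_inj] at this
  simpa using this

lemma gale_of_cofun (hd : Even d) {p : Fin (d + 3) → E d} (hS : Spanning (mat p))
    (h : ∀ a b c : Fin (d + 3), a < b → b < c → ((a : ℕ) + b) % 2 = 1 → ((b : ℕ) + c) % 2 = 1 →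
      CoFun p {a, b, c}) : ∃ x y, Gale (mat p) x y := by
  obtain ⟨x, y, hK⟩ := hS.exists_ker
  have := hK.gale_of_triples hd (fun a b c hab hbc p1 p2 => by
    obtain ⟨w, w0, w1, hw⟩ := (h a b c hab hbc p1 p2).dep
    refine ⟨w a, w b, w c, w1 a (by simp), w1 b (by simp), w1 c (by simp), fun v h1 h2 => ?_⟩
    rw [← hw v h1 h2, ← Finset.sum_subset (Finset.subset_univ {a, b, c})
      (fun i _ hi => by rw [w0 i (by simpa using hi), zero_mul]),
      Finset.sum_insert (by simp [hab.ne, (hab.trans hbc).ne]), Finset.sum_pair hbc.ne, add_assoc])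
  rcases this with G | G
  · exact ⟨x, y, G⟩
  · exact ⟨y, x, G⟩

lemma moment_gale (hd : Even d) {t : Fin (d + 3) → ℝ} (ht : StrictMono t) :
    ∃ x y, Gale (mat fun i => momentCurve d (t i)) x y :=
  gale_of_cofun hd (moment_spanning ht.injective) fun _ _ _ => moment_triple ht

lemma exposed_unit {P : Set (E d)} (hP : P ⊆ Metric.closedBall 0 1) {v : E d} (hv : v ∈ P)
    (h1 : ‖v‖ = 1) : IsExposed ℝ P {v} := by
  intro _
  have le : ∀ z ∈ P, inner ℝ v z ≤ (1 : ℝ) := by
    intro z hz
    have := real_inner_le_norm v z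
    have h2 := mem_closedBall_zero_iff.mp (hP hz)
    rw [h1] at this
    linarith
  have vv : inner ℝ v v = (1 : ℝ) := by rw [real_inner_self_eq_norm_sq, h1]; simp
  refine ⟨innerSL ℝ v, Set.ext fun z => ⟨?_, ?_⟩⟩
  · rintro rfl
    exact ⟨hv, fun w hw => by simpa [h1] using le w hw⟩
  · rintro ⟨hz, h2⟩
    have h3 : (1 : ℝ) ≤ inner ℝ v z := by simpa [h1] using h2 v hv
    have h4 := mem_closedBall_zero_iff.mp (hP hz)
    have h5 := norm_sub_sq_real z v
    rw [real_inner_comm, h1] at h5
    have h6 : ‖z - v‖ ^ 2 ≤ 0 := by nlinarith [norm_nonneg z]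
    have h7 : ‖z - v‖ = 0 := pow_eq_zero_iff two_ne_zero |>.mp (le_antisymm h6 (sq_nonneg _))
    exact sub_eq_zero.mp (norm_eq_zero.mp h7)

lemma spanning_of_interior {p : Fin (d + 3) → E d}
    (h : (interior (convexHull ℝ (Set.range p))).Nonempty) : Spanning (mat p) := by
  intro v c hv
  by_contra hne
  obtain ⟨r, hr⟩ := Function.ne_iff.mp hne
  have hr : v r ≠ 0 := hr
  let f : E d →ₗ[ℝ] ℝ := ∑ s, v s • EuclideanSpace.projₗ s
  have fa : ∀ z, f z = ∑ s, v s * z s := fun z => by simp [f]
  have h0 := vol_hyperplane f (EuclideanSpace.single r (v r)⁻¹) (by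
    rw [fa, Finset.sum_eq_single r (fun s _ hs => by simp [hs]) (by simp)]
    simp [hr]) c
  have hsub : convexHull ℝ (Set.range p) ⊆ {s : E d | f s = c} := by
    apply convexHull_min
    · rintro _ ⟨i, rfl⟩
      exact (fa _).trans (hv i)
    · exact (convex_singleton c).linear_preimage f
  have := isOpen_interior.measure_pos volume h
  exact this.ne' (measure_mono_null (interior_subset.trans hsub) h0)

theorem exists_label (hd : Even d) (hd2 : 2 ≤ d) {P : Set (E d)} (hI : IsInscribed d (d + 3) P)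
    (hC : IsCyclicPolytope d (d + 3) P) :
    ∃ (p : Fin (d + 3) → E d) (x y : Fin (d + 3) → ℝ), Set.range p = P.extremePoints ℝ ∧
      P = convexHull ℝ (Set.range p) ∧ Spanning (mat p) ∧ Gale (mat p) x y ∧ ∀ i, ‖p i‖ = 1 := by
  obtain ⟨⟨V, hV⟩, hint, hcard, hnorm⟩ := hI
  obtain ⟨t, ht, ⟨Φ⟩⟩ := hC
  have hcomp : IsCompact P := hV ▸ V.finite_toSet.isCompact_convexHull ℝ
  have hconv : Convex ℝ P := hV ▸ convex_convexHull ℝ _
  have hfin : (P.extremePoints ℝ).Finite := Set.finite_of_ncard_pos (by omega)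
  have hext : P = convexHull ℝ (P.extremePoints ℝ) := by
    rw [← (hfin.isClosed_convexHull ℝ).closure_eq, closure_convexHull_extremePoints hcomp hconv]
  have hball : P ⊆ Metric.closedBall 0 1 := by
    rw [hext]
    exact convexHull_min (fun v hv => mem_closedBall_zero_iff.mpr (hnorm v hv).le)
      (convex_closedBall _ _)
  have hmono : StrictMono (t ∘ Tuple.sort t) :=
    (Tuple.monotone_sort t).strictMono_of_injective (ht.comp (Tuple.sort t).injective)
  have hr : (Set.range fun i => momentCurve d (t i)) =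
      Set.range fun i => momentCurve d ((t ∘ Tuple.sort t) i) :=
    ((Tuple.sort t).surjective.range_comp fun i => momentCurve d (t i)).symm
  obtain ⟨x0, y0, G0⟩ := moment_gale hd hmono
  obtain ⟨e0⟩ := G0.exists_iso
  rw [hr] at Φ
  set Ψ := Φ.trans e0 with hΨ
  have single : ∀ i : Fin (d + 3), CoFace ({i}ᶜ : Set (Fin (d + 3))) := by
    intro i
    right
    by_cases h1 : (i : ℕ) ≤ 1
    · refine ⟨⟨2, by omega⟩, ?_, ⟨3, by omega⟩, ?_, ⟨4, by omega⟩, ?_, by simp, by simp, by simp,
        by simp⟩ <;> simp [Fin.ext_iff] <;> omega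
    · by_cases h2 : (i : ℕ) = 2
      · refine ⟨⟨0, by omega⟩, ?_, ⟨1, by omega⟩, ?_, ⟨4, by omega⟩, ?_, by simp,
          by simp [Fin.lt_def], by simp, by simp⟩ <;> simp [Fin.ext_iff] <;> omega
      · refine ⟨⟨0, by omega⟩, ?_, ⟨1, by omega⟩, ?_, ⟨2, by omega⟩, ?_, by simp,
          by simp [Fin.lt_def], by simp, by simp⟩ <;> simp [Fin.ext_iff] <;> omega
  have nonempty : ∀ S : {S : Set (Fin (d + 3)) // S = ∅ ∨ CoFace Sᶜ}, S.1.Nonempty →
      (Ψ.symm S).1.Nonempty := by
    intro S hS
    by_contra hc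
    rw [Set.not_nonempty_iff_eq_empty] at hc
    have : Ψ.symm S ≤ Ψ.symm ⟨∅, Or.inl rfl⟩ := by
      change (Ψ.symm S).1 ⊆ _
      rw [hc]
      exact Set.empty_subset _
    rw [Ψ.symm.le_iff_le] at this
    exact hS.not_subset_empty this
  have atom : ∀ i : Fin (d + 3), ∃ v ∈ P.extremePoints ℝ,
      (Ψ.symm ⟨{i}, Or.inr (single i)⟩).1 = {v} := by
    intro i
    set A := Ψ.symm ⟨{i}, Or.inr (single i)⟩ with hA
    obtain ⟨v, hv⟩ := (A.2.isCompact hcomp).extremePoints_nonempty
      (nonempty _ (Set.singleton_nonempty i))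
    have hvP : v ∈ P.extremePoints ℝ := A.2.isExtreme.extremePoints_subset_extremePoints hv
    refine ⟨v, hvP, ?_⟩
    set B : {F : Set (E d) // IsExposed ℝ P F} := ⟨{v}, exposed_unit hball hvP.1 (hnorm v hvP)⟩
      with hB
    have h1 : B ≤ A := Set.singleton_subset_iff.mpr hv.1
    have h2 : (Ψ B).1 ⊆ {i} := by
      have := Ψ.le_iff_le.mpr h1
      rwa [hA, OrderIso.apply_symm_apply] at this
    rcases Set.subset_singleton_iff_eq.mp h2 with h3 | h3
    · exfalso
      have : Ψ B ≤ Ψ ⟨∅, isExposed_empty⟩ := by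
        change (Ψ B).1 ⊆ _
        rw [h3]
        exact Set.empty_subset _
      rw [Ψ.le_iff_le] at this
      exact (Set.singleton_nonempty v).not_subset_empty this
    · have : A = B := by
        rw [hA, OrderIso.symm_apply_eq]
        exact Subtype.ext h3.symm
      rw [this]
  choose p hp1 hp2 using atom
  have mem : ∀ (S : {S : Set (Fin (d + 3)) // S = ∅ ∨ CoFace Sᶜ}) (i : Fin (d + 3)),
      p i ∈ (Ψ.symm S).1 ↔ i ∈ S.1 := by
    intro S i
    rw [← Set.singleton_subset_iff, ← hp2, ← Set.singleton_subset_iff (a := i)]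
    exact Ψ.symm.le_iff_le
  have pinj : Function.Injective p := by
    intro i j hij
    have := (mem ⟨{j}, Or.inr (single j)⟩ i).mp (by rw [hp2, hij]; rfl)
    exact this
  have hrange : Set.range p = P.extremePoints ℝ := by
    apply Set.eq_of_subset_of_ncard_le (Set.range_subset_iff.mpr hp1) _ hfin
    rw [hcard, Set.ncard_range_of_injective pinj]
    simp
  have hP : P = convexHull ℝ (Set.range p) := by rw [hrange]; exact hext
  have hS : Spanning (mat p) := spanning_of_interior (hP ▸ hint)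
  obtain ⟨x, y, G⟩ := gale_of_cofun hd hS (fun a b c hab hbc p1 p2 => by
    set S : {S : Set (Fin (d + 3)) // S = ∅ ∨ CoFace Sᶜ} := ⟨{a, b, c}ᶜ, Or.inr (Or.inr
      ⟨a, by simp, b, by simp, c, by simp, hab, hbc, p1, p2⟩)⟩ with hSd
    have hne : S.1.Nonempty := by
      obtain ⟨l, -, hl⟩ := Finset.exists_mem_notMem_of_card_lt_card
        (s := ({a, b, c} : Finset (Fin (d + 3)))) (t := Finset.univ)
        (lt_of_le_of_lt Finset.card_le_three (by simp; omega))
      exact ⟨l, by simpa [hSd] using hl⟩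
    have := cofun_of_face (p := p) (F := (Ψ.symm S).1) (hP ▸ (Ψ.symm S).2) (nonempty S hne)
    have e : {i | p i ∉ (Ψ.symm S).1} = {a, b, c} := by
      ext i
      simp only [Set.mem_ofPred_eq, mem, hSd, Set.mem_compl_iff, not_not]
    rwa [e] at this)
  exact ⟨p, x, y, hrange, hP, hS, G, fun i => hnorm _ (hp1 i)⟩

end Pool.Agent.P.MP_7322d1_co
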