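import Mathlib

set_option autoImplicit false

namespace Pool.Agent.P.MP_7322d1_co

/-- Property Z: for every vertex `p` of `P` there is a neighbourhood of `p` in the unit sphere (the
trace on the sphere of an open set `U` containing `p`) such that replacing the vertex `p` by any
point `q` of that neighbourhood does not increase the volume. -/
def HasPropertyZ {d : ℕ} (P : Set (EuclideanSpace ℝ (Fin d))) : Prop :=
  ∀ p ∈ P.extremePoints ℝ, ∃ U : Set (EuclideanSpace ℝ (Fin d)), IsOpen U ∧ p ∈ U ∧
    ∀ q ∈ U, ‖q‖ = 1 →
      MeasureTheory.volume (convexHull ℝ ((P.extremePoints ℝ \ {p}) ∪ {q})) ≤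
        MeasureTheory.volume P

end Pool.Agent.P.MP_7322d1_co
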