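import Mathlib
import Pool.Agent.P.MP_7322d1_co.Cyclic

set_option autoImplicit false

namespace Pool.Agent.P.MP_7322d1_co

open Matrix MeasureTheory

variable {d : ℕ}

noncomputable def cp (d : ℕ) (i : Fin (d + 3)) : E d := WithLp.toLp 2 fun j => Cm d j i

lemma mat_cp : mat (cp d) = Cm d := rfl

lemma trig_eq : trigPolytope d (d + 3) = convexHull ℝ (Set.range (cp d)) := by
  unfold trigPolytope cp
  simp only [Cm, ph, fq, ang, of_apply, Int.cast_natCast]

lemma norm_iff (p : Fin (d + 3) → E d) (i : Fin (d + 3)) :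
    ‖p i‖ = 1 ↔ ∑ r, mat p r i ^ 2 = 1 := by
  rw [EuclideanSpace.norm_eq, Real.sqrt_eq_one]
  simp [mat]

lemma Gale.vol' {p : Fin (d + 3) → E d} {x y : Fin (d + 3) → ℝ} (hd : 0 < d)
    (h : Gale (mat p) x y) : volume (convexHull ℝ (Set.range p)) =
      ENNReal.ofReal (fv (mat p)) * volume (Dl d (0 ≤ ·)) := h.vol hd

lemma vol_le_iff (hd : 0 < d) {p q : Fin (d + 3) → E d} {x y x' y' : Fin (d + 3) → ℝ}
    (h : Gale (mat p) x y) (h' : Gale (mat q) x' y') :
    volume (convexHull ℝ (Set.range p)) ≤ volume (convexHull ℝ (Set.range q)) ↔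
      fv (mat p) ≤ fv (mat q) := by
  rw [h.vol' hd, h'.vol' hd, ENNReal.mul_le_mul_iff_left
    (by rw [← vol_Dl_eq hd]; exact vol_Dl_pos.ne') vol_Dl_lt_top.ne,
    ENNReal.ofReal_le_ofReal_iff (fv_nonneg _)]

lemma congruent_of_orth {p q : Fin (d + 3) → E d} {U : Matrix (Fin d) (Fin d) ℝ}
    (h1 : U * Uᵀ = 1) (h2 : U * mat p = mat q) :
    IsCongruent (convexHull ℝ (Set.range p)) (convexHull ℝ (Set.range q)) := by
  have h3 : Uᵀ * U = 1 := mul_eq_one_comm.mp h1
  let f : E d →ₗ[ℝ] E d := Matrix.toLpLin 2 2 U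
  have hf : ∀ z w, inner ℝ (f z) (f w) = inner ℝ z w := by
    intro z w
    simp only [f, toLpLin_apply, EuclideanSpace.inner_eq_star_dotProduct, star_trivial]
    rw [dotProduct_mulVec, vecMul_mulVec, h3, vecMul_one]
  let g : E d ≃ₗᵢ[ℝ] E d := (f.isometryOfInner hf).toLinearIsometryEquiv rfl
  refine ⟨g.toIsometryEquiv, ?_⟩
  change f '' _ = _
  rw [LinearMap.image_convexHull, ← Set.range_comp]
  congr 2
  ext i j
  have := congrFun (congrFun h2 j) i
  simpa [f, mat, Matrix.mul_apply, mulVec, dotProduct] using this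

lemma IsCongruent.vol_eq {P Q : Set (E d)} (h : IsCongruent P Q) : volume P = volume Q := by
  obtain ⟨f, rfl⟩ := h
  have e : f '' P = (fun z => f 0 + z) '' (f.toRealLinearIsometryEquiv '' P) := by
    rw [Set.image_image]
    congr 1
    ext z
    simp
  rw [e, Set.image_add_left, measure_preimage_add]
  have := MeasurePreserving.measure_preimage_equiv
    (f := f.toRealLinearIsometryEquiv.symm.toHomeomorph.toMeasurableEquiv)
    f.toRealLinearIsometryEquiv.symm.measurePreserving P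
  rw [← this]
  congr 1
  ext z
  constructor
  · intro hz
    exact ⟨_, hz, by simp⟩
  · rintro ⟨w, hw, rfl⟩
    simpa using hw

lemma trig_inscribed (hd : Even d) (hd0 : 0 < d) :
    IsInscribed d (d + 3) (trigPolytope d (d + 3)) := by
  classical
  have G : Gale (mat (cp d)) _ _ := Cm_gale hd hd0
  have hn : ∀ i, ‖cp d i‖ = 1 := fun i => (norm_iff _ i).mpr (Cm_unit hd hd0 i)
  have hball : convexHull ℝ (Set.range (cp d)) ⊆ Metric.closedBall 0 1 :=
    convexHull_min (by rintro _ ⟨i, rfl⟩; exact mem_closedBall_zero_iff.mpr (hn i).le)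
      (convex_closedBall _ _)
  have hext : (convexHull ℝ (Set.range (cp d))).extremePoints ℝ = Set.range (cp d) := by
    apply Set.Subset.antisymm extremePoints_convexHull_subset
    rintro _ ⟨i, rfl⟩
    exact exposedPoints_subset_extremePoints (mem_exposedPoints_iff_exposed_singleton.mpr
      (exposed_unit hball (pt_mem _ i) (hn i)))
  rw [trig_eq]
  refine ⟨⟨Finset.univ.image (cp d), by simp⟩, ?_, ?_, ?_⟩
  · by_contra hc
    rw [Set.not_nonempty_iff_eq_empty] at hc
    have h0 := (convex_convexHull ℝ (Set.range (cp d))).addHaar_frontier volume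
    rw [frontier, hc, Set.sdiff_empty] at h0
    have h1 := measure_mono_null subset_closure h0
    rw [G.vol' hd0, mul_eq_zero, ENNReal.ofReal_eq_zero, ← vol_Dl_eq hd0] at h1
    rcases h1 with h1 | h1
    · exact absurd (G.fv_pos (Cm_spanning hd hd0)) (not_lt.mpr h1)
    · exact vol_Dl_pos.ne' h1
  · rw [hext, Set.ncard_range_of_injective (G.injective hd0)]
    simp
  · rw [hext]
    rintro _ ⟨i, rfl⟩
    exact hn i

lemma trig_cyclic (hd : Even d) (hd0 : 0 < d) :
    IsCyclicPolytope d (d + 3) (trigPolytope d (d + 3)) := by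
  have G : Gale (mat (cp d)) _ _ := Cm_gale hd hd0
  have hm : StrictMono fun i : Fin (d + 3) => ((i : ℕ) : ℝ) := fun i j h =>
    Nat.cast_lt.mpr h
  obtain ⟨x, y, G'⟩ := moment_gale hd hm
  refine ⟨_, hm.injective, ?_⟩
  rw [trig_eq]
  exact G.combEquiv G'

theorem q1 (hd : Even d) (hd2 : 2 ≤ d) {P : Set (E d)} (hI : IsInscribed d (d + 3) P)
    (hC : IsCyclicPolytope d (d + 3) P) :
    volume P ≤ volume (trigPolytope d (d + 3)) ∧
      (volume (trigPolytope d (d + 3)) ≤ volume P → IsCongruent P (trigPolytope d (d + 3))) := by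
  have hd0 : 0 < d := by omega
  obtain ⟨p, x, y, -, rfl, hS, G, hn⟩ := exists_label hd hd2 hI hC
  have G' : Gale (mat (cp d)) _ _ := Cm_gale hd hd0
  obtain ⟨m1, m2⟩ := main_matrix hd hd0 hS G fun i => (norm_iff p i).mp (hn i)
  rw [trig_eq, vol_le_iff hd0 G G', vol_le_iff hd0 G' G]
  refine ⟨m1, fun h => ?_⟩
  obtain ⟨U, h1, h2⟩ := m2 h
  exact congruent_of_orth h1 h2

end Pool.Agent.P.MP_7322d1_co
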