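import Mathlib
import Pool.Agent.P.MP_7322d1_co.Crit
import Pool.Agent.P.MP_7322d1_co.Q1
import Pool.Agent.P.MP_7322d1_co.DefsZ

set_option autoImplicit false

namespace Pool.Agent.P.MP_7322d1_co

open Matrix MeasureTheory Filter Topology

variable {d : ℕ} {P : Matrix (Fin d) (Fin (d + 3)) ℝ} {x y : Fin (d + 3) → ℝ}

lemma chi_col (h : Ker P x y) {a b : Fin (d + 3)} (hs : x a * y b - x b * y a ≠ 0)
    (i : Fin (d + 3)) (q : Fin d → ℝ) {w : Fin (d + 3) → ℝ} (h1 : ∀ r, (P *ᵥ w) r = q r - P r i)
    (h2 : ∑ k, w k = 0) :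
    chi (P.updateCol i q) a b * (x a * y b - x b * y a) = chi P a b *
      ((x a * y b - x b * y a) * (1 + w i) - x i * (w a * y b - w b * y a) -
        y i * (x a * w b - x b * w a)) := by
  set s := x a * y b - x b * y a with hsd
  set t : Fin (d + 3) → ℝ := Pi.single i 1 + w - ((w a * y b - w b * y a) / s) • x -
    ((x a * w b - x b * w a) / s) • y with ht
  set A := (stk P 1 (Pi.single a 1) (Pi.single b 1)).submatrix id finSumFinEquiv with hA
  have e : (stk (P.updateCol i q) 1 (Pi.single a 1) (Pi.single b 1)).submatrix id finSumFinEquiv =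
      A.updateCol (finSumFinEquiv.symm i) (fun k => ∑ j, t (finSumFinEquiv j) • A k j) := by
    ext k j
    have e0 : ∑ j, t (finSumFinEquiv j) • A k j =
        ∑ j, stk P 1 (Pi.single a 1) (Pi.single b 1) k j * t j := by
      rw [← Equiv.sum_comp finSumFinEquiv]
      simp [hA, mul_comm]
    rw [updateCol_apply, e0]
    by_cases hj : j = finSumFinEquiv.symm i
    · rw [if_pos hj, hj]
      simp only [submatrix_apply, id, Equiv.apply_symm_apply]
      rcases k with r | k
      · have : (P *ᵥ t) r = q r := by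
          rw [ht, mulVec_sub, mulVec_sub, mulVec_add, mulVec_smul, mulVec_smul, h.px, h.py]
          simp [h1]
        simpa [stk, mulVec, dotProduct] using this.symm
      · fin_cases k
        · simp [stk, ht, Finset.sum_sub_distrib, Finset.sum_add_distrib, ← Finset.mul_sum, h.sx,
            h.sy, h2]
        · simp [stk, ht, Pi.single_apply, eq_comm (a := i)]
          field_simp
          rw [hsd]; ring
        · simp [stk, ht, Pi.single_apply, eq_comm (a := i)]
          field_simp
          rw [hsd]; ring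
    · rw [if_neg hj]
      have : finSumFinEquiv j ≠ i := fun e => hj (by rw [← e]; simp)
      rcases k with r | k
      · simp [stk, hA, this]
      · simp [stk, hA]
  unfold chi sdet
  rw [e, det_updateCol_sum, ← hA]
  simp [ht]
  field_simp

lemma Gale.exists_z (hS : Spanning P) :
    ∃ z : Fin d → Fin (d + 3) → ℝ, (∀ r, P *ᵥ z r = Pi.single r 1) ∧ ∀ r, ∑ i, z r i = 0 := by
  have hL : (0 : ℝ) < ∑ _i : Fin (d + 3), 1 := Finset.sum_pos (fun _ _ => one_pos) Finset.univ_nonempty
  set c := (∑ _i : Fin (d + 3), (1 : ℝ))⁻¹ • P *ᵥ (fun _ => 1) with hc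
  have h1 : transl P c *ᵥ (fun _ => 1) = 0 := by
    rw [transl_mulVec, hc, smul_smul, mul_inv_cancel₀ hL.ne', one_smul, sub_self]
  have hB := ((hS.transl c).posDef (l := fun _ => 1) (fun _ => one_pos)).det_pos
  rw [diagonal_one, Matrix.mul_one] at hB
  set B := transl P c * (transl P c)ᵀ with hBd
  have s0 : ∀ v : Fin d → ℝ, ∑ i, ((transl P c)ᵀ *ᵥ v) i = 0 := by
    intro v
    have : ∑ k, ((transl P c)ᵀ *ᵥ v) k = v ⬝ᵥ (transl P c *ᵥ fun _ => 1) := by
      rw [dotProduct_mulVec, mulVec_transpose]; simp [dotProduct]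
    rw [this, h1]; simp
  refine ⟨fun r => (transl P c)ᵀ *ᵥ (B⁻¹ *ᵥ Pi.single r 1), fun r => ?_, fun r => s0 _⟩
  have := transl_mulVec P c ((transl P c)ᵀ *ᵥ (B⁻¹ *ᵥ Pi.single r 1))
  rw [s0, zero_smul, sub_zero] at this
  rw [← this, mulVec_mulVec, ← hBd, mulVec_mulVec, mul_nonsing_inv _ hB.ne'.isUnit, one_mulVec]

lemma sphere_max (hd : 2 ≤ d) {m p : Fin d → ℝ} (hp : ∑ r, p r ^ 2 = 1)
    (h : ∀ᶠ q in 𝓝 p, ∑ r, q r ^ 2 = 1 → ∑ r, (q r - p r) * m r ≤ 0) :
    ∃ l : ℝ, 0 ≤ l ∧ ∀ r, m r = l * p r := by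
  set l := ∑ r, p r * m r with hl
  have key : ∀ w : Fin d → ℝ, ∑ r, w r * p r = 0 →
      ∀ᶠ s in 𝓝[>] (0 : ℝ), ∑ r, w r * m r ≤ s * (∑ r, w r ^ 2) * l := by
    intro w hw
    set W := ∑ r, w r ^ 2 with hW
    have W0 : 0 ≤ W := Finset.sum_nonneg fun _ _ => sq_nonneg _
    have hpos : ∀ s : ℝ, 0 < 1 + s ^ 2 * W := fun s => by positivity
    have hc : Continuous fun (s : ℝ) (r : Fin d) =>
        ((1 - s ^ 2 * W) * p r + 2 * s * w r) / (1 + s ^ 2 * W) := by
      apply continuous_pi
      intro r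
      exact Continuous.div (by fun_prop) (by fun_prop) fun s => (hpos s).ne'
    have ht := hc.tendsto' 0 p (by ext r; simp)
    filter_upwards [(ht.eventually h).filter_mono nhdsWithin_le_nhds, self_mem_nhdsWithin]
      with s h1 h2
    have h2 : 0 < s := h2
    have h3 := hpos s
    have e1 : ∀ r, (((1 - s ^ 2 * W) * p r + 2 * s * w r) / (1 + s ^ 2 * W)) ^ 2 =
        ((1 + s ^ 2 * W) ^ 2)⁻¹ * ((1 - s ^ 2 * W) ^ 2 * p r ^ 2 +
          4 * s * (1 - s ^ 2 * W) * (w r * p r) + 4 * s ^ 2 * w r ^ 2) := fun r => by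
      field_simp; ring
    have e2 : ∀ r, (((1 - s ^ 2 * W) * p r + 2 * s * w r) / (1 + s ^ 2 * W) - p r) * m r =
        2 * s / (1 + s ^ 2 * W) * (w r * m r - s * W * (p r * m r)) := fun r => by
      field_simp; ring
    simp only [e1, e2, ← Finset.mul_sum, Finset.sum_add_distrib, Finset.sum_sub_distrib, hp, hw,
      ← hW, ← hl] at h1
    have h4 := h1 (by field_simp; ring)
    have h5 : 0 < 2 * s / (1 + s ^ 2 * W) := by positivity
    have := nonpos_of_mul_nonpos_right h4 h5
    linarith
  have h1 : ∀ r, m r = l * p r := by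
    have a1 : ∑ r, (m r - l * p r) * p r = 0 := by
      have : ∀ r, (m r - l * p r) * p r = p r * m r - l * p r ^ 2 := fun r => by ring
      simp only [this, Finset.sum_sub_distrib, ← Finset.mul_sum, hp, ← hl]; ring
    have a2 : ∑ r, (m r - l * p r) * m r ≤ 0 := by
      have ht : Tendsto (fun s : ℝ => s * (∑ r, (m r - l * p r) ^ 2) * l) (𝓝[>] 0) (𝓝 0) :=
        (Continuous.tendsto' (by fun_prop) 0 0 (by simp)).mono_left nhdsWithin_le_nhds
      exact ge_of_tendsto ht (key _ a1)
    have a3 : ∑ r, (m r - l * p r) ^ 2 = 0 := by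
      apply le_antisymm _ (Finset.sum_nonneg fun _ _ => sq_nonneg _)
      have : ∀ r, (m r - l * p r) ^ 2 = (m r - l * p r) * m r - l * ((m r - l * p r) * p r) :=
        fun r => by ring
      simp only [this, Finset.sum_sub_distrib, ← Finset.mul_sum, a1]
      linarith
    intro r
    have := (Finset.sum_eq_zero_iff_of_nonneg fun _ _ => sq_nonneg _).mp a3 r (Finset.mem_univ _)
    exact sub_eq_zero.mp (pow_eq_zero_iff two_ne_zero |>.mp this)
  refine ⟨l, ?_, h1⟩
  obtain ⟨w, w1, w2⟩ : ∃ w : Fin d → ℝ, ∑ r, w r * p r = 0 ∧ 0 < ∑ r, w r ^ 2 := by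
    by_contra hc
    push Not at hc
    have a : ∀ k r : Fin d, (if r = k then 1 else 0) - p k * p r = 0 := by
      intro k r
      have a1 := hc (fun r => (if r = k then 1 else 0) - p k * p r) (by
        have : ∀ r, ((if r = k then 1 else 0) - p k * p r) * p r =
            (if r = k then p r else 0) - p k * p r ^ 2 := fun r => by split_ifs <;> ring
        simp only [this, Finset.sum_sub_distrib, ← Finset.mul_sum, hp]
        simp)
      have := (Finset.sum_eq_zero_iff_of_nonneg fun _ _ => sq_nonneg _).mp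
        (le_antisymm a1 (Finset.sum_nonneg fun _ _ => sq_nonneg _)) r (Finset.mem_univ _)
      exact pow_eq_zero_iff two_ne_zero |>.mp this
    have a1 := a ⟨0, by omega⟩ ⟨0, by omega⟩
    have a2 := a ⟨1, by omega⟩ ⟨1, by omega⟩
    have a3 := a ⟨0, by omega⟩ ⟨1, by omega⟩
    simp at a1 a2 a3
    rcases a3 with a3 | a3
    · simp [a3] at a1
    · simp [a3] at a2
  obtain ⟨s, s1, s2⟩ := ((key w w1).and self_mem_nhdsWithin).exists
  have s2 : 0 < s := s2
  have : ∑ r, w r * m r = 0 := by
    have : ∀ r, w r * m r = l * (w r * p r) := fun r => by rw [h1 r]; ring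
    simp only [this, ← Finset.mul_sum, w1, mul_zero]
  rw [this] at s1
  exact nonneg_of_mul_nonneg_right s1 (mul_pos s2 w2)

lemma Alt.fv_eq {ε : ℝ} (h : Alt P ε) : |ε| * fv P = ε * ∑ ab ∈ Tr d, chi P ab.1 ab.2 := by
  unfold fv
  rw [Finset.mul_sum, Finset.mul_sum]
  apply Finset.sum_congr rfl
  intro ab hab
  obtain ⟨p1, p2, p3⟩ := mem_Tr.mp hab
  have := h _ _ p3
  rw [sg_odd (by omega), one_mul] at this
  rw [← abs_mul, abs_of_pos this]

theorem q2 (hd : Even d) (hd2 : 2 ≤ d) {Q : Set (E d)} (hI : IsInscribed d (d + 3) Q)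
    (hC : IsCyclicPolytope d (d + 3) Q) (hZ : HasPropertyZ Q) :
    IsCongruent Q (trigPolytope d (d + 3)) := by
  have hd0 : 0 < d := by omega
  apply (q1 hd hd2 hI hC).2
  obtain ⟨p, x, y, hr, hQ, hS, G, hn⟩ := exists_label hd hd2 hI hC
  have G' : Gale (mat (cp d)) _ _ := Cm_gale hd hd0
  have hP : ∀ i, ∑ r, mat p r i ^ 2 = 1 := fun i => (norm_iff p i).mp (hn i)
  obtain ⟨κ, hκ, e, -⟩ := G.toKer.chi_kappa hS (l := fun _ => 1) (fun _ => one_pos)
  obtain ⟨z, z1, z2⟩ := Gale.exists_z hS
  have hA : Alt (mat p) κ := by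
    intro a b hab
    have := mul_pos (mul_self_pos.mpr hκ) (G.pos a b hab)
    rw [e]; linarith
  have loc : ∀ i, ∃ l : ℝ, 0 ≤ l ∧ ∀ r,
      Vf x y * z r i - x i * Vf (z r) y - y i * Vf x (z r) = l * mat p r i := by
    intro i
    apply sphere_max hd2 (hP i)
    have form : ∀ (q : Fin d → ℝ) (a b : Fin (d + 3)), a ≠ b →
        chi ((mat p).updateCol i q) a b = κ * ((x a * y b - x b * y a) +
          ∑ r, (q r - mat p r i) * ((x a * y b - x b * y a) * z r i -
            x i * (z r a * y b - z r b * y a) - y i * (x a * z r b - x b * z r a))) := by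
      intro q a b hab
      have hs := G.ne_zero hab
      have := chi_col G.toKer hs i q (w := ∑ r, (q r - mat p r i) • z r)
        (by
          intro s
          rw [mulVec_sum]
          simp only [mulVec_smul, z1]
          simp [Finset.sum_apply, Pi.single_apply])
        (by
          simp only [Finset.sum_apply, Pi.smul_apply, smul_eq_mul]
          rw [Finset.sum_comm]
          simp [← Finset.mul_sum, z2])
      apply mul_right_cancel₀ hs
      rw [this, e]
      have e2 : ∀ r, (q r - mat p r i) * ((x a * y b - x b * y a) * z r i -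
            x i * (z r a * y b - z r b * y a) - y i * (x a * z r b - x b * z r a)) =
          (x a * y b - x b * y a) * ((q r - mat p r i) * z r i) +
          (y i * x b - x i * y b) * ((q r - mat p r i) * z r a) +
          (x i * y a - y i * x a) * ((q r - mat p r i) * z r b) := fun r => by ring
      simp only [e2, Finset.sum_add_distrib, ← Finset.mul_sum, Finset.sum_apply, Pi.smul_apply,
        smul_eq_mul]
      ring
    have ev1 : ∀ᶠ q in 𝓝 (fun r => mat p r i), Alt ((mat p).updateCol i q) κ := by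
      unfold Alt
      simp only [eventually_all]
      intro a b hab
      simp only [form _ a b hab.ne]
      apply Filter.Tendsto.eventually_const_lt (hA a b hab)
      apply Continuous.tendsto' (by fun_prop)
      simp [e]
    obtain ⟨U, U1, U2, U3⟩ := hZ (p i) (hr ▸ Set.mem_range_self i)
    have ev2 : ∀ᶠ q in 𝓝 (fun r => mat p r i), (WithLp.toLp 2 q : E d) ∈ U :=
      (PiLp.continuous_toLp 2 _).continuousAt.eventually_mem (U1.mem_nhds U2)
    filter_upwards [ev1, ev2] with q q1 q2 q3
    set p' := Function.update p i (WithLp.toLp 2 q) with hp'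
    have m' : mat p' = (mat p).updateCol i q := by
      ext r k
      by_cases hk : k = i
      · simp [mat, hp', hk]
      · simp [mat, hp', hk]
    have r' : (Q.extremePoints ℝ \ {p i}) ∪ {WithLp.toLp 2 q} = Set.range p' := by
      rw [← hr]
      ext v
      constructor
      · rintro (⟨⟨k, rfl⟩, hk⟩ | rfl)
        · exact ⟨k, Function.update_of_ne (fun e => hk (by rw [e]; rfl)) _ _⟩
        · exact ⟨i, Function.update_self _ _ _⟩
      · rintro ⟨k, rfl⟩
        by_cases hk : k = i
        · right; simp [hp', hk]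
        · left
          rw [hp', Function.update_of_ne hk]
          exact ⟨⟨k, rfl⟩, fun e => hk (G.injective hd0 e)⟩
    have v1 := U3 _ q2 (by rw [EuclideanSpace.norm_eq, Real.sqrt_eq_one]; simpa using q3)
    obtain ⟨x', y', G''⟩ := q1.exists_gale
    rw [← m'] at G''
    rw [r', hQ, vol_le_iff hd0 G'' G, m'] at v1
    have v2 := mul_le_mul_of_nonneg_left v1 (abs_nonneg κ)
    rw [q1.fv_eq, hA.fv_eq, Finset.sum_congr rfl fun ab hab => form q ab.1 ab.2 (Tr_ne hab).2.2]
      at v2
    simp only [e, ← Finset.mul_sum, Finset.sum_add_distrib] at v2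
    rw [Finset.sum_comm] at v2
    simp only [← Finset.mul_sum, Finset.sum_sub_distrib, ← Finset.sum_mul] at v2
    have v3 : κ * κ * ∑ r, (q r - mat p r i) *
        (Vf x y * z r i - x i * Vf (z r) y - y i * Vf x (z r)) ≤ 0 := by
      simp only [Vf, Finset.sum_sub_distrib]
      linarith
    exact nonpos_of_mul_nonpos_right v3 (mul_self_pos.mpr hκ)
  choose l l1 l2 using loc
  rw [trig_eq, hQ, vol_le_iff hd0 G' G]
  exact Crit.le hd hd0 hS G hP ⟨z1, z2, l1, fun r i => l2 i r⟩

theorem q2' (hd : Even d) (hd2 : 2 ≤ d) {Q : Set (E d)} (hI : IsInscribed d (d + 3) Q)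
    (hC : IsCyclicPolytope d (d + 3) Q) (hZ : IsCongruent Q (trigPolytope d (d + 3))) :
    HasPropertyZ Q := by
  have hd0 : 0 < d := by omega
  obtain ⟨p, x, y, hr, hQ, hS, G, hn⟩ := exists_label hd hd2 hI hC
  have G' : Gale (mat (cp d)) _ _ := Cm_gale hd hd0
  obtain ⟨κ, hκ, e, -⟩ := G.toKer.chi_kappa hS (l := fun _ => 1) (fun _ => one_pos)
  have hA : Alt (mat p) κ := by
    intro a b hab
    have := mul_pos (mul_self_pos.mpr hκ) (G.pos a b hab)
    rw [e]; linarith
  intro v hv
  obtain ⟨i, rfl⟩ : v ∈ Set.range p := hr ▸ hv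
  have ev1 : ∀ᶠ q in 𝓝 (p i), Alt (mat (Function.update p i q)) κ := by
    unfold Alt
    simp only [eventually_all]
    intro a b hab
    apply Filter.Tendsto.eventually_const_lt (hA a b hab)
    apply Continuous.tendsto'
    · refine continuous_const.mul (continuous_const.mul ?_)
      unfold chi sdet
      apply Continuous.matrix_det
      apply continuous_matrix
      rintro (r | k) j
      · simp only [stk, mat, submatrix_apply, id, fromRows_apply_inl, of_apply]
        by_cases hj : finSumFinEquiv j = i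
        · simp only [hj, Function.update_self]
          fun_prop
        · simp only [Function.update_of_ne hj]
          fun_prop
      · simp only [stk, submatrix_apply, id, fromRows_apply_inr]
        fun_prop
    · simp
  obtain ⟨U, U1, U2, U3⟩ := eventually_nhds_iff.mp ev1
  refine ⟨U, U2, U3, fun q q1 q2 => ?_⟩
  have r' : (Q.extremePoints ℝ \ {p i}) ∪ {q} = Set.range (Function.update p i q) := by
    rw [← hr]
    ext v
    constructor
    · rintro (⟨⟨k, rfl⟩, hk⟩ | rfl)
      · exact ⟨k, Function.update_of_ne (fun e => hk (by rw [e]; rfl)) _ _⟩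
      · exact ⟨i, Function.update_self _ _ _⟩
    · rintro ⟨k, rfl⟩
      by_cases hk : k = i
      · right; simp [hk]
      · left
        rw [Function.update_of_ne hk]
        exact ⟨⟨k, rfl⟩, fun e => hk (G.injective hd0 e)⟩
  obtain ⟨x', y', G''⟩ := (U1 q q1).exists_gale
  rw [r', hZ.vol_eq, trig_eq, vol_le_iff hd0 G'' G']
  refine (main_matrix hd hd0 (U1 q q1).spanning G'' fun k => (norm_iff _ k).mp ?_).1
  by_cases hk : k = i
  · simpa [hk] using q2
  · simpa [hk] using hn k

end Pool.Agent.P.MP_7322d1_co
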